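import Pool.Agent.H851.UK.StmA

/-!
# UK-A (helper668 for helper851): intertwiners of modules of the even Clifford algebra
-/

set_option autoImplicit false

namespace Pool.Agent.H851.UK.A

open Module Pool.Agent.H851.UK

/-- anticommuting operators -/
structure Ac {K W : Type} [Field K] [AddCommGroup W] [Module K W] (n : ℕ) (P : End K W)
    (e : ℕ → End K W) (c : ℕ → K) : Prop where
  idem : ∀ v, P (P v) = P v
  left : ∀ k, k < n → ∀ v, P (e k v) = e k v
  right : ∀ k, k < n → ∀ v, e k (P v) = e k v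
  sq : ∀ k, k < n → ∀ v, e k (e k v) = c k • P v
  anti : ∀ k l, k < n → l < n → k ≠ l → ∀ v, e k (e l v) = - e l (e k v)

/-- products of the first operators -/
theorem prods {K W : Type} [Field K] [AddCommGroup W] [Module K W] (n : ℕ) (P : End K W)
    (e : ℕ → End K W) (c : ℕ → K) (hc : ∀ k, k < n → c k ≠ 0) (h : Ac n P e c) (j : ℕ) (hj : j ≤ n) :
    ∃ (z z' : End K W) (d : K), d ≠ 0 ∧ (∀ v, z (P v) = z v) ∧ (∀ v, P (z v) = z v) ∧
      (∀ k, j ≤ k → k < n → ∀ v, e k (z v) = (-1 : K) ^ j • z (e k v)) ∧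
      (∀ k, k < j → ∀ v, e k (z v) = (-1 : K) ^ (j + 1) • z (e k v)) ∧
      (∀ v, z (z' v) = d • P v) := by
  induction j with
  | zero =>
    refine ⟨P, P, 1, one_ne_zero, h.idem, h.idem, fun k _ hk v => ?_, fun k hk => absurd hk (by omega),
      fun v => ?_⟩
    · rw [pow_zero, one_smul, h.right k hk, h.left k hk]
    · rw [one_smul, h.idem]
  | succ j ih =>
    obtain ⟨z, z', d, hd, h1, h2, h3, h4, h5⟩ := ih (by omega)
    have hjn : j < n := by omega
    refine ⟨z ∘ₗ e j, e j ∘ₗ z', c j * d, mul_ne_zero (hc j hjn) hd, fun v => ?_, fun v => ?_,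
      fun k hk1 hk2 v => ?_, fun k hk v => ?_, fun v => ?_⟩
    · show z (e j (P v)) = z (e j v)
      rw [h.right j hjn]
    · show P (z (e j v)) = z (e j v)
      rw [h2]
    · show e k (z (e j v)) = (-1 : K) ^ (j + 1) • z (e j (e k v))
      rw [h3 k (by omega) hk2, h.anti k j hk2 hjn (by omega), map_neg, pow_succ]
      module
    · show e k (z (e j v)) = (-1 : K) ^ (j + 1 + 1) • z (e j (e k v))
      rcases Nat.lt_succ_iff_lt_or_eq.1 hk with hk' | rfl
      · rw [h4 k hk', h.anti k j (by omega) hjn (by omega), map_neg, pow_succ (-1 : K) (j + 1)]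
        module
      · rw [h3 k le_rfl hjn, pow_succ, pow_succ]
        module
    · show z (e j (e j (z' v))) = (c j * d) • P v
      rw [h.sq j hjn, map_smul, h1, h5, smul_smul]

/-- the induction -/
theorem step {K W₁ W₂ : Type} [Field K] [AddCommGroup W₁] [Module K W₁] [AddCommGroup W₂]
    [Module K W₂] (r : ℕ) (P₁ : End K W₁) (P₂ : End K W₂) (e : ℕ → End K W₁) (f : ℕ → End K W₂)
    (c : ℕ → K) (hc : ∀ k, k < 2 * r → c k ≠ 0) (h₁ : Ac (2 * r) P₁ e c) (h₂ : Ac (2 * r) P₂ f c)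
    (hP₁ : P₁ ≠ 0) (hP₂ : P₂ ≠ 0) (j : ℕ) (hj : j ≤ 2 * r) :
    ∃ L : W₁ →ₗ[K] W₂, L ≠ 0 ∧ (∀ v, P₂ (L v) = L v) ∧ (∀ v, L (P₁ v) = L v) ∧
      ∀ k, k < j → ∀ v, f k (L v) = L (e k v) := by
  induction j with
  | zero =>
    obtain ⟨v, hv⟩ : ∃ v, P₁ v ≠ 0 := by
      by_contra h
      push Not at h
      exact hP₁ (LinearMap.ext h)
    obtain ⟨w, hw⟩ : ∃ w, P₂ w ≠ 0 := by
      by_contra h
      push Not at h
      exact hP₂ (LinearMap.ext h)
    obtain ⟨φ, hφ⟩ : ∃ φ : Dual K W₁, φ (P₁ v) ≠ 0 := by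
      by_contra h
      push Not at h
      exact hv ((Module.forall_dual_apply_eq_zero_iff K (P₁ v)).1 h)
    refine ⟨LinearMap.smulRight (φ ∘ₗ P₁) (P₂ w), fun h => ?_, fun v => ?_, fun v => ?_,
      fun k hk => absurd hk (by omega)⟩
    · have h3 := LinearMap.congr_fun h v
      have h4 : φ (P₁ v) • P₂ w = 0 := h3
      rcases smul_eq_zero.1 h4 with h5 | h5
      · exact hφ h5
      · exact hw h5
    · show P₂ (φ (P₁ v) • P₂ w) = φ (P₁ v) • P₂ w
      rw [map_smul, h₂.idem]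
    · show φ (P₁ (P₁ v)) • P₂ w = φ (P₁ v) • P₂ w
      rw [h₁.idem]
  | succ j ih =>
    obtain ⟨L, hL0, hL2, hL1, hL⟩ := ih (by omega)
    have hjn : j < 2 * r := by omega
    have hcj := hc j hjn
    by_cases hM : L + (c j)⁻¹ • (f j ∘ₗ L ∘ₗ e j) = 0
    · -- `f j` anti-intertwines
      have hanti : ∀ v, f j (L v) = - L (e j v) := by
        intro v
        have h3 := LinearMap.congr_fun hM (e j v)
        have h4 : L (e j v) + (c j)⁻¹ • f j (L (e j (e j v))) = 0 := h3
        rw [h₁.sq j hjn, map_smul, map_smul, hL1, smul_smul, inv_mul_cancel₀ hcj, one_smul] at h4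
        exact eq_neg_of_add_eq_zero_right h4
      obtain ⟨z, z', d, hd, hz1, hzc, hza, hzz⟩ : ∃ (z z' : End K W₁) (d : K), d ≠ 0 ∧
          (∀ v, z (P₁ v) = z v) ∧ (∀ k, k < j → ∀ v, e k (z v) = z (e k v)) ∧
          (∀ v, e j (z v) = - z (e j v)) ∧ (∀ v, z (z' v) = d • P₁ v) := by
        rcases Nat.even_or_odd j with hev | hodd
        · obtain ⟨t, ht⟩ := hev
          have hj1 : j + 1 < 2 * r := by omega
          refine ⟨e j ∘ₗ e (j + 1), e (j + 1) ∘ₗ e j, c j * c (j + 1),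
            mul_ne_zero hcj (hc _ hj1), fun v => ?_, fun k hk v => ?_, fun v => ?_, fun v => ?_⟩
          · show e j (e (j + 1) (P₁ v)) = e j (e (j + 1) v)
            rw [h₁.right _ hj1]
          · show e k (e j (e (j + 1) v)) = e j (e (j + 1) (e k v))
            rw [h₁.anti k j (by omega) hjn (by omega), h₁.anti k (j + 1) (by omega) hj1 (by omega),
              map_neg, neg_neg]
          · show e j (e j (e (j + 1) v)) = - e j (e (j + 1) (e j v))
            rw [h₁.anti (j + 1) j hj1 hjn (by omega), map_neg, neg_neg]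
          · show e j (e (j + 1) (e (j + 1) (e j v))) = (c j * c (j + 1)) • P₁ v
            rw [h₁.sq _ hj1, h₁.left j hjn, map_smul, h₁.sq j hjn, smul_smul, mul_comm]
        · obtain ⟨z, z', d, hd, g1, g2, g3, g4, g5⟩ := prods (2 * r) P₁ e c hc h₁ j (by omega)
          refine ⟨z, z', d, hd, g1, fun k hk v => ?_, fun v => ?_, g5⟩
          · have h6 : (-1 : K) ^ (j + 1) = 1 := (hodd.add_one).neg_one_pow
            rw [g4 k hk, h6, one_smul]
          · rw [g3 j le_rfl hjn, hodd.neg_one_pow, neg_smul, one_smul]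
      refine ⟨L ∘ₗ z, fun h => ?_, fun v => ?_, fun v => ?_, fun k hk v => ?_⟩
      · apply hL0
        refine LinearMap.ext fun v => ?_
        have h3 := LinearMap.congr_fun h (z' v)
        have h4 : L (z (z' v)) = 0 := h3
        rw [hzz, map_smul, hL1] at h4
        rcases smul_eq_zero.1 h4 with h5 | h5
        · exact absurd h5 hd
        · exact h5
      · show P₂ (L (z v)) = L (z v)
        rw [hL2]
      · show L (z (P₁ v)) = L (z v)
        rw [hz1]
      · show f k (L (z v)) = L (z (e k v))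
        rcases Nat.lt_succ_iff_lt_or_eq.1 hk with hk' | rfl
        · rw [hL k hk', hzc k hk']
        · rw [hanti, hza, map_neg, neg_neg]
    · refine ⟨_, hM, fun v => ?_, fun v => ?_, fun k hk v => ?_⟩
      · show P₂ (L v + (c j)⁻¹ • f j (L (e j v))) = L v + (c j)⁻¹ • f j (L (e j v))
        rw [map_add, map_smul, hL2, h₂.left j hjn]
      · show L (P₁ v) + (c j)⁻¹ • f j (L (e j (P₁ v))) = L v + (c j)⁻¹ • f j (L (e j v))
        rw [hL1, h₁.right j hjn]
      · show f k (L v + (c j)⁻¹ • f j (L (e j v))) = L (e k v) + (c j)⁻¹ • f j (L (e j (e k v)))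
        rw [map_add, map_smul]
        rcases Nat.lt_succ_iff_lt_or_eq.1 hk with hk' | rfl
        · rw [hL k hk', h₂.anti k j (by omega) hjn (by omega), hL k hk',
            h₁.anti k j (by omega) hjn (by omega), map_neg, map_neg, neg_neg]
        · rw [h₂.sq k hjn, h₁.sq k hjn, map_smul, map_smul, hL1, hL2, smul_smul, smul_smul,
            inv_mul_cancel₀ hcj, one_smul, one_smul, add_comm]

theorem t_A : S_A := by
  intro k W₁ W₂ _ _ _ _ _ _ r a P₁ P₂ Ψ₁ Ψ₂ ha hP₁ hP₂ h₁ h₂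
  -- the anticommuting operators
  have key : ∀ (W : Type) [AddCommGroup W] [Module k W] (P : End k W)
      (Ψ : Fin (2 * r + 1) → Fin (2 * r + 1) → End k W), IsCl a P Ψ →
      Ac (2 * r) P (fun i => if h : i + 1 < 2 * r + 1 then Ψ 0 ⟨i + 1, h⟩ else 0)
        (fun i => if h : i + 1 < 2 * r + 1 then -(a 0 * a ⟨i + 1, h⟩) else 0) := by
    intro W _ _ P Ψ h
    have hne : ∀ i (hi : i + 1 < 2 * r + 1), (⟨i + 1, hi⟩ : Fin (2 * r + 1)) ≠ 0 := by
      intro i hi h
      have := congrArg Fin.val h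
      simp at this
    have hm : ∀ s t u v, Ψ s t (Ψ t u v) = a t • Ψ s u v := by
      intro s t u v
      have := LinearMap.congr_fun (h.mul s t u) v
      exact this
    have hn : ∀ s t v, s ≠ t → Ψ s t v = - Ψ t s v := by
      intro s t v hst
      rw [h.anti s t hst]
      rfl
    refine ⟨fun v => ?_, fun i hi v => ?_, fun i hi v => ?_, fun i hi v => ?_,
      fun i j hi hj hij v => ?_⟩
    · exact LinearMap.congr_fun h.idem v
    · have hi' : i + 1 < 2 * r + 1 := by omega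
      simp only [dif_pos hi']
      exact LinearMap.congr_fun (h.left _ _) v
    · have hi' : i + 1 < 2 * r + 1 := by omega
      simp only [dif_pos hi']
      exact LinearMap.congr_fun (h.right _ _) v
    · have hi' : i + 1 < 2 * r + 1 := by omega
      simp only [dif_pos hi']
      rw [hn 0 _ (Ψ 0 ⟨i + 1, hi'⟩ v) (hne i hi').symm, hm, h.sq]
      show -(a 0 • a ⟨i + 1, hi'⟩ • P v) = -(a 0 * a ⟨i + 1, hi'⟩) • P v
      rw [smul_smul, neg_smul]
    · have hi' : i + 1 < 2 * r + 1 := by omega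
      have hj' : j + 1 < 2 * r + 1 := by omega
      simp only [dif_pos hi', dif_pos hj']
      have hij' : (⟨i + 1, hi'⟩ : Fin (2 * r + 1)) ≠ ⟨j + 1, hj'⟩ := by
        intro h
        have := congrArg Fin.val h
        simp only at this
        omega
      rw [hn 0 _ (Ψ 0 ⟨j + 1, hj'⟩ v) (hne i hi').symm, hm,
        hn 0 _ (Ψ 0 ⟨i + 1, hi'⟩ v) (hne j hj').symm, hm, hn _ _ v hij']
      module
  obtain ⟨L, hL0, hL2, hL1, hL⟩ := step r P₁ P₂ _ _ _ (fun i hi => by
    have hi' : i + 1 < 2 * r + 1 := by omega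
    simp only [dif_pos hi']
    exact neg_ne_zero.2 (mul_ne_zero (ha _) (ha _))) (key W₁ P₁ Ψ₁ h₁) (key W₂ P₂ Ψ₂ h₂)
    hP₁ hP₂ (2 * r) le_rfl
  have h0 : ∀ s v, Ψ₂ 0 s (L v) = L (Ψ₁ 0 s v) := by
    intro s v
    by_cases hs : s = 0
    · subst hs
      rw [h₁.sq, h₂.sq]
      show a 0 • P₂ (L v) = L (a 0 • P₁ v)
      rw [map_smul, hL1, hL2]
    · obtain ⟨s, hs'⟩ := s
      obtain ⟨i, rfl⟩ : ∃ i, s = i + 1 := Nat.exists_eq_succ_of_ne_zero (fun h => hs (by
        subst h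
        rfl))
      have := hL i (by omega) v
      simp only [dif_pos hs'] at this
      exact this
  have h0' : ∀ s v, Ψ₂ s 0 (L v) = L (Ψ₁ s 0 v) := by
    intro s v
    by_cases hs : s = 0
    · subst hs
      exact h0 0 v
    · rw [h₂.anti s 0 hs, h₁.anti s 0 hs]
      show -(Ψ₂ 0 s (L v)) = L (-(Ψ₁ 0 s v))
      rw [h0, map_neg]
  refine ⟨L, hL0, LinearMap.ext hL2, LinearMap.ext hL1, fun s t => LinearMap.ext fun v => ?_⟩
  show Ψ₂ s t (L v) = L (Ψ₁ s t v)
  have e1 : a 0 • Ψ₂ s t (L v) = Ψ₂ s 0 (Ψ₂ 0 t (L v)) :=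
    (LinearMap.congr_fun (h₂.mul s 0 t) (L v)).symm
  have e2 : a 0 • Ψ₁ s t v = Ψ₁ s 0 (Ψ₁ 0 t v) :=
    (LinearMap.congr_fun (h₁.mul s 0 t) v).symm
  have e3 : a 0 • Ψ₂ s t (L v) = a 0 • L (Ψ₁ s t v) := by
    rw [e1, ← map_smul, e2, h0, h0']
  exact smul_right_injective _ (ha 0) e3

end Pool.Agent.H851.UK.A
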