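import Mathlib
import Pool.Agent.H851.KS.Bc
import Pool.Graph.R_seed8.Y960.RM.TH

/-!
# Bilinear maps, base change and operators of additive functions
-/

set_option autoImplicit false
set_option linter.unusedSectionVars false
set_option linter.unusedVariables false

namespace Pool.Agent.H851.UK

open Module TensorProduct Pool.Agent.Y114.RM Pool.Agent.TH118.SG

section bil

variable {K : Type} [Field K] {E₁ E₂ E₃ : Type} [AddCommGroup E₁] [Module K E₁] [AddCommGroup E₂]
  [Module K E₂] [AddCommGroup E₃] [Module K E₃]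

/-- generalized eigenvectors and bilinear maps -/
theorem gen_bil (f : E₁ →ₗ[K] E₂ →ₗ[K] E₃) {G₁ : End K E₁} {G₂ : End K E₂} {G₃ : End K E₃}
    (h : ∀ x y, G₃ (f x y) = f (G₁ x) (G₂ y)) {α β : K} : ∀ (N a b : ℕ) (x : E₁) (y : E₂),
    a + b ≤ N → ((G₁ - algebraMap K (End K E₁) α) ^ a) x = 0 →
    ((G₂ - algebraMap K (End K E₂) β) ^ b) y = 0 →
    ((G₃ - algebraMap K (End K E₃) (α * β)) ^ N) (f x y) = 0 := by
  intro N
  induction N with
  | zero =>
    intro a b x y hab hx hy
    have ha : a = 0 := by omega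
    subst ha
    rw [pow_zero, Module.End.one_apply] at hx
    rw [hx, map_zero, LinearMap.zero_apply, map_zero]
  | succ N ih =>
    intro a b x y hab hx hy
    rcases Nat.eq_zero_or_pos a with rfl | ha
    · rw [pow_zero, Module.End.one_apply] at hx
      rw [hx, map_zero, LinearMap.zero_apply, map_zero]
    rcases Nat.eq_zero_or_pos b with rfl | hb
    · rw [pow_zero, Module.End.one_apply] at hy
      rw [hy, map_zero, map_zero]
    have e : (G₃ - algebraMap K (End K E₃) (α * β)) (f x y) =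
        f ((G₁ - algebraMap K (End K E₁) α) x) (G₂ y) +
          α • f x ((G₂ - algebraMap K (End K E₂) β) y) := by
      rw [LinearMap.sub_apply, LinearMap.sub_apply, LinearMap.sub_apply,
        Module.algebraMap_end_apply, Module.algebraMap_end_apply, Module.algebraMap_end_apply, h,
        map_sub, map_sub, LinearMap.sub_apply, map_smul, map_smul, LinearMap.smul_apply, smul_sub,
        smul_smul, sub_add_sub_cancel]
    rw [pow_succ, Module.End.mul_apply, e, map_add, map_smul]
    have h1 := ih (a - 1) b ((G₁ - algebraMap K (End K E₁) α) x) (G₂ y) (by omega) (by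
      rw [← Module.End.mul_apply, ← pow_succ, Nat.sub_add_cancel ha]
      exact hx) (by
      have hc : Commute ((G₂ - algebraMap K (End K E₂) β) ^ b) G₂ :=
        ((Commute.refl G₂).sub_left (Algebra.commute_algebraMap_left β G₂)).pow_left b
      rw [← Module.End.mul_apply, hc.eq, Module.End.mul_apply, hy, map_zero])
    have h2 := ih a (b - 1) x ((G₂ - algebraMap K (End K E₂) β) y) (by omega) hx (by
      rw [← Module.End.mul_apply, ← pow_succ, Nat.sub_add_cancel hb]
      exact hy)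
    rw [h1, h2, smul_zero, add_zero]

end bil

section op

variable {K : Type} [Field K] [CharZero K] [IsAlgClosed K] {E₁ E₂ E₃ : Type} [AddCommGroup E₁]
  [Module K E₁] [AddCommGroup E₂] [Module K E₂] [AddCommGroup E₃] [Module K E₃]
  [FiniteDimensional K E₁] [FiniteDimensional K E₂] [FiniteDimensional K E₃]

/-- operators of additive functions and bilinear maps -/
theorem op_bil (f : E₁ →ₗ[K] E₂ →ₗ[K] E₃) {G₁ N₁ : End K E₁} {G₂ N₂ : End K E₂} {G₃ N₃ : End K E₃}
    {θ : Additive Kˣ →+ K} (h : ∀ x y, G₃ (f x y) = f (G₁ x) (G₂ y)) (h₁ : IsOp θ G₁ N₁)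
    (h₂ : IsOp θ G₂ N₂) (h₃ : IsOp θ G₃ N₃) (i₁ : ∀ x ∈ G₁.maxGenEigenspace 0, x = 0)
    (i₂ : ∀ x ∈ G₂.maxGenEigenspace 0, x = 0) (x : E₁) (y : E₂) :
    N₃ (f x y) = f (N₁ x) y + f x (N₂ y) := by
  have key : ∀ α, ∀ x ∈ G₁.maxGenEigenspace α, ∀ β, ∀ y ∈ G₂.maxGenEigenspace β,
      N₃ (f x y) = f (N₁ x) y + f x (N₂ y) := by
    intro α x hx β y hy
    by_cases hα : α = 0
    · subst hα
      rw [i₁ x hx, map_zero, LinearMap.zero_apply, map_zero, map_zero, map_zero, LinearMap.zero_apply,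
        LinearMap.zero_apply, add_zero]
    by_cases hβ : β = 0
    · subst hβ
      rw [i₂ y hy, map_zero, map_zero, map_zero, map_zero, map_zero, add_zero]
    obtain ⟨a, ha⟩ := mem_gen.1 hx
    obtain ⟨b, hb⟩ := mem_gen.1 hy
    have h1 : f x y ∈ G₃.maxGenEigenspace (α * β) := mem_gen.2 ⟨a + b, gen_bil f h (a + b) a b x y le_rfl ha hb⟩
    rw [h₃ _ _ h1, h₁ _ _ hx, h₂ _ _ hy, ext0_mul θ hα hβ, map_smul, map_smul, LinearMap.smul_apply,
      add_smul]
  have key2 : ∀ x, ∀ β, ∀ y ∈ G₂.maxGenEigenspace β, N₃ (f x y) = f (N₁ x) y + f x (N₂ y) := by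
    intro x β y hy
    have htop : (⊤ : Submodule K E₁) ≤
        LinearMap.eqLocus (N₃ ∘ₗ f.flip y) (f.flip y ∘ₗ N₁ + f.flip (N₂ y)) := by
      rw [← Module.End.iSup_maxGenEigenspace_eq_top G₁]
      exact iSup_le fun α x hx => key α x hx β y hy
    exact htop trivial
  have htop : (⊤ : Submodule K E₂) ≤ LinearMap.eqLocus (N₃ ∘ₗ f x) (f (N₁ x) + f x ∘ₗ N₂) := by
    rw [← Module.End.iSup_maxGenEigenspace_eq_top G₂]
    exact iSup_le fun β y hy => key2 x β y hy
  exact htop trivial

end op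

section bc

variable {k : Type} [Field k] (C : Type) [Field C] [Algebra k C] {V W : Type}
  [AddCommGroup V] [Module k V] [AddCommGroup W] [Module k W]

/-- the extension of a bilinear map -/
noncomputable def fC (f : V →ₗ[k] V →ₗ[k] End k W) :
    (C ⊗[k] V) →ₗ[C] (C ⊗[k] V) →ₗ[C] End C (C ⊗[k] W) :=
  (LinearMap.BilinMap.baseChange C f).compr₂ (LinearMap.tensorProduct k C W W)

theorem fC_tmul (f : V →ₗ[k] V →ₗ[k] End k W) (a b : C) (x y : V) :
    fC C f (a ⊗ₜ[k] x) (b ⊗ₜ[k] y) = (a * b) • (f x y).baseChange C := by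
  rw [fC, LinearMap.compr₂_apply, LinearMap.BilinMap.baseChange_tmul]
  rfl

/-- induction for pairs of vectors -/
theorem ind2 {P : C ⊗[k] V → C ⊗[k] V → Prop} (h0 : ∀ y, P 0 y) (h0' : ∀ x, P x 0)
    (h : ∀ a x b y, P (a ⊗ₜ x) (b ⊗ₜ y)) (h1 : ∀ x x' y, P x y → P x' y → P (x + x') y)
    (h2 : ∀ x y y', P x y → P x y' → P x (y + y')) (x y : C ⊗[k] V) : P x y := by
  induction x with
  | zero => exact h0 y
  | add x x' hx hx' => exact h1 x x' y hx hx'
  | tmul a x =>
    induction y with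
    | zero => exact h0' _
    | add y y' hy hy' => exact h2 _ y y' hy hy'
    | tmul b y => exact h a x b y

end bc

end Pool.Agent.H851.UK
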