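import Mathlib
import Pool.Agent.H851.KD.Pub

/-!
# The definitions used in the statement of the uniqueness of the Kuga-Satake part
-/

set_option autoImplicit false
set_option linter.unusedSectionVars false
set_option linter.unusedVariables false

namespace Pool.Agent.H851.UK

open Matrix NumberField IsDedekindDomain Polynomial
open Pool.Agent.H851.K3 Pool.Agent.H851.KD
open Pool.Agent.NH56.HY (GK IsFrobenius)

variable {K : Type} [Field K] [NumberField K] {ℓ : ℕ} [hℓ : Fact ℓ.Prime] {n : Type}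
    [Fintype n] [DecidableEq n] {m m₁ m₂ : Type}
    [Fintype m] [DecidableEq m] [Fintype m₁] [DecidableEq m₁] [Fintype m₂] [DecidableEq m₂]

/-- `σ` is continuous and semisimple, and over an open subgroup `Δ` of the Galois group it is the Tate twist by `j`
of a representation of weight one: at almost all places of degree one, with the residue characteristic `p`, whose
Frobenius element is in `Δ`, the product of `p ^ j` and the geometric Frobenius element is a zero of a monic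
polynomial with integral coefficients all whose complex roots have the absolute value `√p`. For example `j = 0` and
`W = H^1(A)` for an abelian variety `A` over `K`, or a subrepresentation of it. -/
structure WeightOneAt (j : ℤ) (σ : GK K →* Matrix m m ℚ_[ℓ]) : Prop where
  continuous : Continuous σ
  semisimple : Semisimple σ
  weight : ∃ (Δ : Subgroup (GK K)) (S' : Finset ℕ), IsOpen (Δ : Set (GK K)) ∧
    ∀ (p : ℕ) [Fact p.Prime], p ∉ S' → ∀ v : HeightOneSpectrum (𝓞 K),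
      Ideal.absNorm v.asIdeal = p → ∀ g ∈ Δ, IsFrobenius v g → ∃ P : ℤ[X], P.Monic ∧
        (∀ z : ℂ, aeval z P = 0 → ‖z‖ ^ 2 = p) ∧
        (aeval ((p : ℚ_[ℓ]) ^ j • σ g⁻¹) P : Matrix m m ℚ_[ℓ]) = 0

/-- `M` is a homomorphism of modules of the even Clifford algebra of `T`, from `(P₁, ψ₁)` to `(P₂, ψ₂)` -/
def CliffordMap (T : Submodule ℚ_[ℓ] (n → ℚ_[ℓ])) (P₁ : Matrix m₁ m₁ ℚ_[ℓ])
    (ψ₁ : (n → ℚ_[ℓ]) → (n → ℚ_[ℓ]) → Matrix m₁ m₁ ℚ_[ℓ]) (P₂ : Matrix m₂ m₂ ℚ_[ℓ])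
    (ψ₂ : (n → ℚ_[ℓ]) → (n → ℚ_[ℓ]) → Matrix m₂ m₂ ℚ_[ℓ]) (M : Matrix m₂ m₁ ℚ_[ℓ]) : Prop :=
  P₂ * M = M ∧ M * P₁ = M ∧ ∀ x ∈ T, ∀ y ∈ T, ψ₂ x y * M = M * ψ₁ x y

/-- `M` is equivariant for the elements of `Δ` -/
def Intertwines (σ₁ : GK K →* Matrix m₁ m₁ ℚ_[ℓ]) (σ₂ : GK K →* Matrix m₂ m₂ ℚ_[ℓ])
    (Δ : Subgroup (GK K)) (M : Matrix m₂ m₁ ℚ_[ℓ]) : Prop :=
  ∀ g ∈ Δ, σ₂ g * M = M * σ₁ g

/-- **Clifford maps are Galois maps**, for the two equivariant even Clifford modules -/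
def MapsEquivariant (q : Matrix n n ℚ_[ℓ]) (χ : GK K →* ℚ_[ℓ]) (ρ : GK K →* Matrix n n ℚ_[ℓ])
    (σ₁ : GK K →* Matrix m₁ m₁ ℚ_[ℓ]) (σ₂ : GK K →* Matrix m₂ m₂ ℚ_[ℓ]) : Prop :=
  ∀ (Δ₁ Δ₂ : Subgroup (GK K)) (P₁ : Matrix m₁ m₁ ℚ_[ℓ])
    (ψ₁ : (n → ℚ_[ℓ]) → (n → ℚ_[ℓ]) → Matrix m₁ m₁ ℚ_[ℓ]) (P₂ : Matrix m₂ m₂ ℚ_[ℓ])
    (ψ₂ : (n → ℚ_[ℓ]) → (n → ℚ_[ℓ]) → Matrix m₂ m₂ ℚ_[ℓ]),
    IsOpen (Δ₁ : Set (GK K)) → IsOpen (Δ₂ : Set (GK K)) →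
    IsKugaSatake q χ ρ σ₁ Δ₁ P₁ ψ₁ → IsKugaSatake q χ ρ σ₂ Δ₂ P₂ ψ₂ →
    ∃ Δ : Subgroup (GK K), IsOpen (Δ : Set (GK K)) ∧
      ∀ M, CliffordMap (orth q (tate χ ρ)) P₁ ψ₁ P₂ ψ₂ M → Intertwines σ₁ σ₂ Δ M

/-- Every equivariant even Clifford module `P₁ W₁` in `W₁` is, as a representation of an open subgroup `Δ` of the
Galois group, contained in a power of `W₂`: the nonzero vectors of `P₁ W₁` are not killed by all `Δ`-equivariant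
maps `W₁ → W₂`. -/
def Embeds (q : Matrix n n ℚ_[ℓ]) (χ : GK K →* ℚ_[ℓ]) (ρ : GK K →* Matrix n n ℚ_[ℓ])
    (σ₁ : GK K →* Matrix m₁ m₁ ℚ_[ℓ]) (σ₂ : GK K →* Matrix m₂ m₂ ℚ_[ℓ]) : Prop :=
  ∀ (Δ₁ : Subgroup (GK K)) (P₁ : Matrix m₁ m₁ ℚ_[ℓ])
    (ψ₁ : (n → ℚ_[ℓ]) → (n → ℚ_[ℓ]) → Matrix m₁ m₁ ℚ_[ℓ]),
    IsOpen (Δ₁ : Set (GK K)) → IsKugaSatake q χ ρ σ₁ Δ₁ P₁ ψ₁ →
    ∃ Δ : Subgroup (GK K), IsOpen (Δ : Set (GK K)) ∧
      ∀ x, P₁ *ᵥ x = x → x ≠ 0 → ∃ M, Intertwines σ₁ σ₂ Δ M ∧ M *ᵥ x ≠ 0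

end Pool.Agent.H851.UK
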