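import Mathlib
import Pool.Agent.H851.UK.Def

/-!
# The definitions used in the statement on the Tate endomorphisms of the Kuga-Satake part
-/

set_option autoImplicit false
set_option linter.unusedSectionVars false
set_option linter.unusedVariables false

namespace Pool.Agent.H851.UK

open Matrix NumberField IsDedekindDomain Polynomial
open Pool.Agent.H851.K3 Pool.Agent.H851.KD
open Pool.Agent.NH56.HY (GK IsFrobenius)

variable {K : Type} [Field K] [NumberField K] {ℓ : ℕ} [hℓ : Fact ℓ.Prime] {n : Type}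
    [Fintype n] [DecidableEq n] {m : Type} [Fintype m] [DecidableEq m]

/-- The **Tate endomorphisms** of `P W`, for a projection `P`: the endomorphisms `M = P M P` which commute with all
elements of an open subgroup of the Galois group. For `W = H^1(A)` with an abelian variety `A` over `K` and `P = 1`
these are the `ℚ_ℓ`-linear combinations of the endomorphisms of `A` over the algebraic closure (Faltings). -/
def TateEnd (σ : GK K →* Matrix m m ℚ_[ℓ]) (P : Matrix m m ℚ_[ℓ]) :
    Submodule ℚ_[ℓ] (Matrix m m ℚ_[ℓ]) where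
  carrier := {M | P * M = M ∧ M * P = M ∧
    ∃ Δ : Subgroup (GK K), IsOpen (Δ : Set (GK K)) ∧ ∀ g ∈ Δ, σ g * M = M * σ g}
  zero_mem' := ⟨mul_zero _, zero_mul _, ⊤, isOpen_univ, fun g _ => by rw [mul_zero, zero_mul]⟩
  add_mem' := by
    rintro M N ⟨m1, m2, Δ, hΔ, m3⟩ ⟨n1, n2, Δ', hΔ', n3⟩
    refine ⟨by rw [mul_add, m1, n1], by rw [add_mul, m2, n2], Δ ⊓ Δ', hΔ.inter hΔ',
      fun g hg => ?_⟩
    rw [mul_add, add_mul, m3 g hg.1, n3 g hg.2]
  smul_mem' := by
    rintro c M ⟨m1, m2, Δ, hΔ, m3⟩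
    refine ⟨by rw [mul_smul_comm, m1], by rw [smul_mul_assoc, m2], Δ, hΔ, fun g hg => ?_⟩
    rw [mul_smul_comm, smul_mul_assoc, m3 g hg]

/-- `M` is an endomorphism of `P W` which commutes with the action of the even Clifford algebra of `T`. -/
def CommutesWithClifford (T : Submodule ℚ_[ℓ] (n → ℚ_[ℓ])) (P : Matrix m m ℚ_[ℓ])
    (ψ : (n → ℚ_[ℓ]) → (n → ℚ_[ℓ]) → Matrix m m ℚ_[ℓ]) (M : Matrix m m ℚ_[ℓ]) : Prop :=
  P * M = M ∧ M * P = M ∧ ∀ x ∈ T, ∀ y ∈ T, ψ x y * M = M * ψ x y

end Pool.Agent.H851.UK
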