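import Mathlib

/-!
# The slopes of a Clifford module
-/

set_option autoImplicit false
set_option linter.unusedSectionVars false
set_option linter.unusedVariables false

namespace Pool.Agent.H851.UK

open Module

section core

variable {C : Type} [Field C] [CharZero C] {E : Type} [AddCommGroup E] [Module C E]

/-- an operator which is scalar on a spanning family of subspaces -/
theorem scal {ι : Type} {N a : End C E} {e : C} (G : ι → Submodule C E)
    (hspan : (⊤ : Submodule C E) ≤ ⨆ γ, G γ) (h : ∀ γ, ∀ x ∈ G γ, N (a x) = e • a x) :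
    N * a = e • a := by
  have htop : (⊤ : Submodule C E) ≤ LinearMap.eqLocus (N * a) (e • a) :=
    hspan.trans (iSup_le fun γ x hx => h γ x hx)
  exact LinearMap.ext fun x => htop trivial

theorem core {ι : Type} {N P a b c d : End C E} {r e : C} (hr : r ≠ 0)
    (hab : a + b = (2 : C) • P) (haa : a * a = (2 : C) • a) (hbb : b * b = (2 : C) • b)
    (hcd : c * d = -(r • a)) (hdc : d * c = -(r • b)) (hNa : N * a = a * N) (hNb : N * b = b * N)
    (hNc : N * c = c * N + c) (hNd : N * d = d * N - d) (G : ι → Submodule C E) (t : ι → C)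
    (hspan : (⊤ : Submodule C E) ≤ ⨆ γ, G γ) (hN : ∀ γ, ∀ x ∈ G γ, N x = t γ • x)
    (H : ∀ (c : C) (z z' : E), z ≠ 0 → N z = c • z → z' ≠ 0 → N z' = (c - 1) • z' → c = e) :
    N * P = (e - 1) • P + (2 : C)⁻¹ • a := by
  have h1 : N * a = e • a := by
    refine scal G hspan fun γ x hx => ?_
    by_cases hz : a x = 0
    · rw [hz, map_zero, smul_zero]
    have e1 : N (a x) = t γ • a x := by
      have h2 := LinearMap.congr_fun hNa x
      rw [Module.End.mul_apply, Module.End.mul_apply, hN γ x hx, map_smul] at h2
      exact h2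
    have e2 : a (a x) = (2 : C) • a x := LinearMap.congr_fun haa x
    have e3 : c (d (a x)) = -(r • a (a x)) := LinearMap.congr_fun hcd (a x)
    have e4 : d (a x) ≠ 0 := by
      intro h0
      rw [h0, map_zero, e2, smul_smul] at e3
      have h5 := neg_eq_zero.1 e3.symm
      rcases smul_eq_zero.1 h5 with h6 | h6
      · exact mul_ne_zero hr two_ne_zero h6
      · exact hz h6
    have e5 : N (d (a x)) = (t γ - 1) • d (a x) := by
      have h2 := LinearMap.congr_fun hNd (a x)
      rw [LinearMap.sub_apply, Module.End.mul_apply, Module.End.mul_apply, e1, map_smul] at h2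
      rw [h2, sub_smul, one_smul]
    rw [e1, H _ _ _ hz e1 e4 e5]
  have h2 : N * b = (e - 1) • b := by
    refine scal G hspan fun γ x hx => ?_
    by_cases hz : b x = 0
    · rw [hz, map_zero, smul_zero]
    have e1 : N (b x) = t γ • b x := by
      have h2 := LinearMap.congr_fun hNb x
      rw [Module.End.mul_apply, Module.End.mul_apply, hN γ x hx, map_smul] at h2
      exact h2
    have e2 : b (b x) = (2 : C) • b x := LinearMap.congr_fun hbb x
    have e3 : d (c (b x)) = -(r • b (b x)) := LinearMap.congr_fun hdc (b x)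
    have e4 : c (b x) ≠ 0 := by
      intro h0
      rw [h0, map_zero, e2, smul_smul] at e3
      have h5 := neg_eq_zero.1 e3.symm
      rcases smul_eq_zero.1 h5 with h6 | h6
      · exact mul_ne_zero hr two_ne_zero h6
      · exact hz h6
    have e5 : N (c (b x)) = (t γ + 1) • c (b x) := by
      have h2 := LinearMap.congr_fun hNc (b x)
      rw [LinearMap.add_apply, Module.End.mul_apply, Module.End.mul_apply, e1, map_smul] at h2
      rw [h2, add_smul, one_smul]
    have h3 := H (t γ + 1) _ _ e4 e5 hz (by rw [add_sub_cancel_right]; exact e1)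
    rw [e1, ← h3, add_sub_cancel_right]
  have h3 : (2 : C) • (N * P) = (2 : C) • ((e - 1) • P + (2 : C)⁻¹ • a) := by
    rw [← mul_smul_comm, ← hab, mul_add, h1, h2, smul_add, smul_smul (2 : C) (2 : C)⁻¹,
      mul_inv_cancel₀ two_ne_zero, one_smul, smul_comm (2 : C) (e - 1), ← hab, smul_add, sub_smul e,
      sub_smul e, one_smul, one_smul]
    abel
  exact smul_right_injective _ (two_ne_zero (α := C)) h3

/-- intertwiners of Clifford modules commute with the operator of slopes -/
theorem comm_of_core {N P a M : End C E} {e : C} (hNP : N * P = (e - 1) • P + (2 : C)⁻¹ • a)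
    (hPN : P * N = N * P) (hPM : P * M = M) (hMP : M * P = M) (haM : a * M = M * a) :
    N * M = M * N := by
  have h1 : N * M = (e - 1) • M + (2 : C)⁻¹ • (a * M) := by
    calc N * M = N * P * M := by rw [mul_assoc, hPM]
      _ = _ := by rw [hNP, add_mul, smul_mul_assoc, smul_mul_assoc, hPM]
  have h2 : M * N = (e - 1) • M + (2 : C)⁻¹ • (M * a) := by
    calc M * N = M * (P * N) := by rw [← mul_assoc, hMP]
      _ = _ := by rw [hPN, hNP, mul_add, mul_smul_comm, mul_smul_comm, hMP]
  rw [h1, h2, haM]

end core

end Pool.Agent.H851.UK
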