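import Mathlib
import Pool.Agent.H851.UK.Bil
import Pool.Agent.H851.UK.Core
import Pool.Agent.H851.KS.Hyp

/-!
# The relations of the even Clifford algebra, polarised, and their base change
-/

set_option autoImplicit false
set_option linter.unusedSectionVars false
set_option linter.unusedVariables false

namespace Pool.Agent.H851.UK

open Module TensorProduct Pool.Agent.H851.KS Pool.Agent.H851.KT Pool.Agent.Y114.RM

/-- the polarised relations of the even Clifford algebra -/
structure ClRel {C A D : Type} [Field C] [AddCommGroup A] [Module C A] [Ring D] [Algebra C D]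
    (B : A →ₗ[C] A →ₗ[C] C) (T : Submodule C A) (P : D) (F : A →ₗ[C] A →ₗ[C] D) : Prop where
  idem : P * P = P
  left : ∀ x y, P * F x y = F x y
  right : ∀ x y, F x y * P = F x y
  pol : ∀ x ∈ T, ∀ y ∈ T, F x y + F y x = (2 * B x y) • P
  mul : ∀ x ∈ T, ∀ y ∈ T, ∀ y' ∈ T, ∀ z ∈ T,
    F x y * F y' z + F x y' * F y z = (2 * B y y') • F x z

section rel

variable {C A D : Type} [Field C] [CharZero C] [AddCommGroup A] [Module C A] [Ring D] [Algebra C D]
  {B : A →ₗ[C] A →ₗ[C] C} {T : Submodule C A} {P : D} {F : A →ₗ[C] A →ₗ[C] D}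

theorem ClRel.of (hs : ∀ x y, B x y = B y x) (idem : P * P = P) (left : ∀ x y, P * F x y = F x y)
    (right : ∀ x y, F x y * P = F x y) (sq : ∀ x ∈ T, F x x = B x x • P)
    (mul : ∀ x ∈ T, ∀ y ∈ T, ∀ z ∈ T, F x y * F y z = B y y • F x z) : ClRel B T P F := by
  refine ⟨idem, left, right, fun x hx y hy => ?_, fun x hx y hy y' hy' z hz => ?_⟩
  · have h1 := sq (x + y) (T.add_mem hx hy)
    simp only [map_add, LinearMap.add_apply] at h1
    rw [sq x hx, sq y hy, hs y x] at h1
    have h2 : F x y + F y x = (B x x • P + F y x + (F x y + B y y • P)) - B x x • P - B y y • P := by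
      abel
    rw [h2, h1]
    module
  · have h1 := mul x hx (y + y') (T.add_mem hy hy') z hz
    simp only [map_add, LinearMap.add_apply, add_mul, mul_add] at h1
    rw [mul x hx y hy z hz, mul x hx y' hy' z hz, hs y' y] at h1
    have h2 : F x y * F y' z + F x y' * F y z = (B y y • F x z + F x y' * F y z +
        (F x y * F y' z + B y' y' • F x z)) - B y y • F x z - B y' y' • F x z := by
      abel
    rw [h2, h1]
    module

theorem ClRel.sq (h : ClRel B T P F) {x : A} (hx : x ∈ T) : F x x = B x x • P := by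
  have h1 := h.pol x hx x hx
  rw [← two_smul C, mul_smul] at h1
  exact smul_right_injective _ (two_ne_zero (α := C)) h1

end rel

section bc

variable {k : Type} [Field k] [CharZero k] {n : Type} [Fintype n] [DecidableEq n] {C : Type}
  [Field C] [CharZero C] [Algebra k C] {T : Submodule k (n → k)}

theorem TC_lin {D : Type} [AddCommGroup D] [Module C D] {f g : C ⊗[k] (n → k) → D}
    (hf : IsLinearMap C f) (hg : IsLinearMap C g) (h : ∀ t ∈ T, f (1 ⊗ₜ[k] t) = g (1 ⊗ₜ[k] t)) :
    ∀ x ∈ TC C T, f x = g x := by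
  intro x hx
  refine TC_induction (P := fun x => f x = g x) ?_ ?_ ?_ hx
  · rw [hf.map_zero, hg.map_zero]
  · intro c t ht
    have h1 : (c ⊗ₜ[k] t : C ⊗[k] (n → k)) = c • ((1 : C) ⊗ₜ[k] t) := by
      rw [TensorProduct.smul_tmul', smul_eq_mul, mul_one]
    rw [h1, hf.map_smul, hg.map_smul, h t ht]
  · intro x y hx hy
    rw [hf.map_add, hg.map_add, hx, hy]

/-- relations which hold for the vectors of a submodule hold over an extension field -/
theorem ClRel.ext {D : Type} [Ring D] [Algebra C D] {B : (C ⊗[k] (n → k)) →ₗ[C] (C ⊗[k] (n → k)) →ₗ[C] C}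
    {P : D} {F : (C ⊗[k] (n → k)) →ₗ[C] (C ⊗[k] (n → k)) →ₗ[C] D} (idem : P * P = P)
    (left : ∀ x y, P * F x y = F x y) (right : ∀ x y, F x y * P = F x y)
    (pol : ∀ x ∈ T, ∀ y ∈ T, F (1 ⊗ₜ[k] x) (1 ⊗ₜ[k] y) + F (1 ⊗ₜ[k] y) (1 ⊗ₜ[k] x) =
      (2 * B (1 ⊗ₜ[k] x) (1 ⊗ₜ[k] y)) • P)
    (mul : ∀ x ∈ T, ∀ y ∈ T, ∀ y' ∈ T, ∀ z ∈ T,
      F (1 ⊗ₜ[k] x) (1 ⊗ₜ[k] y) * F (1 ⊗ₜ[k] y') (1 ⊗ₜ[k] z) +
        F (1 ⊗ₜ[k] x) (1 ⊗ₜ[k] y') * F (1 ⊗ₜ[k] y) (1 ⊗ₜ[k] z) =
      (2 * B (1 ⊗ₜ[k] y) (1 ⊗ₜ[k] y')) • F (1 ⊗ₜ[k] x) (1 ⊗ₜ[k] z)) :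
    ClRel B (TC C T) P F := by
  refine ⟨idem, left, right, ?_, ?_⟩
  · intro x hx y hy
    revert x
    refine TC_lin (f := fun x => F x y + F y x) (g := fun x => (2 * B x y) • P) ?_ ?_ ?_
    · exact ⟨fun a b => by simp only [map_add, LinearMap.add_apply]; abel, fun c a => by
        simp only [map_smul, LinearMap.smul_apply, smul_add]⟩
    · exact ⟨fun a b => by simp only [map_add, LinearMap.add_apply]; module, fun c a => by
        simp only [map_smul, LinearMap.smul_apply, smul_eq_mul]; module⟩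
    intro x hx
    revert y
    refine TC_lin (f := fun y => F (1 ⊗ₜ[k] x) y + F y (1 ⊗ₜ[k] x))
      (g := fun y => (2 * B (1 ⊗ₜ[k] x) y) • P) ?_ ?_ ?_
    · exact ⟨fun a b => by simp only [map_add, LinearMap.add_apply]; abel, fun c a => by
        simp only [map_smul, LinearMap.smul_apply, smul_add]⟩
    · exact ⟨fun a b => by simp only [map_add, LinearMap.add_apply]; module, fun c a => by
        simp only [map_smul, LinearMap.smul_apply, smul_eq_mul]; module⟩
    intro y hy
    exact pol x hx y hy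
  · intro x hx y hy y' hy' z hz
    revert x
    refine TC_lin (f := fun x => F x y * F y' z + F x y' * F y z)
      (g := fun x => (2 * B y y') • F x z) ?_ ?_ ?_
    · exact ⟨fun a b => by simp only [map_add, LinearMap.add_apply, add_mul]; abel, fun c a => by
        simp only [map_smul, LinearMap.smul_apply, smul_add, smul_mul_assoc]⟩
    · exact ⟨fun a b => by simp only [map_add, LinearMap.add_apply]; module, fun c a => by
        simp only [map_smul, LinearMap.smul_apply]; module⟩
    intro x hx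
    revert z
    refine TC_lin (f := fun z => F (1 ⊗ₜ[k] x) y * F y' z + F (1 ⊗ₜ[k] x) y' * F y z)
      (g := fun z => (2 * B y y') • F (1 ⊗ₜ[k] x) z) ?_ ?_ ?_
    · exact ⟨fun a b => by simp only [map_add, mul_add]; abel, fun c a => by
        simp only [map_smul, smul_add, mul_smul_comm]⟩
    · exact ⟨fun a b => by simp only [map_add]; module, fun c a => by
        simp only [map_smul]; module⟩
    intro z hz
    revert y
    refine TC_lin (f := fun y => F (1 ⊗ₜ[k] x) y * F y' (1 ⊗ₜ[k] z) +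
        F (1 ⊗ₜ[k] x) y' * F y (1 ⊗ₜ[k] z))
      (g := fun y => (2 * B y y') • F (1 ⊗ₜ[k] x) (1 ⊗ₜ[k] z)) ?_ ?_ ?_
    · exact ⟨fun a b => by simp only [map_add, LinearMap.add_apply, add_mul, mul_add]; abel,
        fun c a => by
        simp only [map_smul, LinearMap.smul_apply, smul_add, mul_smul_comm, smul_mul_assoc]⟩
    · exact ⟨fun a b => by simp only [map_add, LinearMap.add_apply]; module, fun c a => by
        simp only [map_smul, LinearMap.smul_apply, smul_eq_mul]; module⟩
    intro y hy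
    revert y'
    refine TC_lin (f := fun y' => F (1 ⊗ₜ[k] x) (1 ⊗ₜ[k] y) * F y' (1 ⊗ₜ[k] z) +
        F (1 ⊗ₜ[k] x) y' * F (1 ⊗ₜ[k] y) (1 ⊗ₜ[k] z))
      (g := fun y' => (2 * B (1 ⊗ₜ[k] y) y') • F (1 ⊗ₜ[k] x) (1 ⊗ₜ[k] z)) ?_ ?_ ?_
    · exact ⟨fun a b => by simp only [map_add, LinearMap.add_apply, add_mul, mul_add]; abel,
        fun c a => by
        simp only [map_smul, LinearMap.smul_apply, smul_add, mul_smul_comm, smul_mul_assoc]⟩
    · exact ⟨fun a b => by simp only [map_add]; module, fun c a => by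
        simp only [map_smul, smul_eq_mul]; module⟩
    intro y' hy'
    exact mul x hx y hy y' hy' z hz

end bc

section bc2

variable {k : Type} [Field k] [CharZero k] {n : Type} [Fintype n] [DecidableEq n] {C : Type} [Field C]
  [CharZero C] [Algebra k C] {T : Submodule k (n → k)} {W : Type} [AddCommGroup W] [Module k W]

theorem bc_smul (c : k) (X : End k W) :
    ((c • X).baseChange C : End C (C ⊗[k] W)) = (algebraMap k C c) • X.baseChange C := by
  rw [LinearMap.baseChange_smul, algebraMap_smul]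

theorem ClRel.bc {B : (n → k) →ₗ[k] (n → k) →ₗ[k] k} {P : End k W}
    {F : (n → k) →ₗ[k] (n → k) →ₗ[k] End k W} (h : ClRel B T P F) :
    ClRel (bcB C B) (TC C T) (P.baseChange C) (fC C F) := by
  have key : ∀ x y, fC C F (1 ⊗ₜ[k] x) (1 ⊗ₜ[k] y) = (F x y).baseChange C := by
    intro x y
    rw [fC_tmul, mul_one, one_smul]
  have keyB : ∀ x y, bcB C B (1 ⊗ₜ[k] x) (1 ⊗ₜ[k] y) = algebraMap k C (B x y) := by
    intro x y
    rw [bcB_tmul]
    simp
  have two : (algebraMap k C) 2 = 2 := map_ofNat _ 2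
  refine ClRel.ext ?_ ?_ ?_ ?_ ?_
  · rw [← bc_mul, h.idem]
  · refine ind2 (k := k) (C := C) (V := n → k) (P := fun x y => P.baseChange C * fC C F x y = fC C F x y) ?_ ?_ ?_ ?_ ?_
    · intro y
      rw [map_zero, LinearMap.zero_apply, mul_zero]
    · intro x
      rw [map_zero, mul_zero]
    · intro a x b y
      rw [fC_tmul, mul_smul_comm, ← bc_mul, h.left]
    · intro x x' y h1 h2
      rw [map_add, LinearMap.add_apply, mul_add, h1, h2]
    · intro x y y' h1 h2
      rw [map_add, mul_add, h1, h2]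
  · refine ind2 (k := k) (C := C) (V := n → k) (P := fun x y => fC C F x y * P.baseChange C = fC C F x y) ?_ ?_ ?_ ?_ ?_
    · intro y
      rw [map_zero, LinearMap.zero_apply, zero_mul]
    · intro x
      rw [map_zero, zero_mul]
    · intro a x b y
      rw [fC_tmul, smul_mul_assoc, ← bc_mul, h.right]
    · intro x x' y h1 h2
      rw [map_add, LinearMap.add_apply, add_mul, h1, h2]
    · intro x y y' h1 h2
      rw [map_add, add_mul, h1, h2]
  · intro x hx y hy
    rw [key, key, keyB, ← LinearMap.baseChange_add, h.pol x hx y hy, bc_smul, map_mul, two]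
  · intro x hx y hy y' hy' z hz
    rw [key, key, key, key, key, keyB, ← bc_mul, ← bc_mul, ← LinearMap.baseChange_add,
      h.mul x hx y hy y' hy' z hz, bc_smul, map_mul, two]

end bc2

end Pool.Agent.H851.UK
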