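import Pool.Agent.H851.UK.Dim
import Pool.Agent.H851.UK.Rel

/-!
# Equivariant maps from the vector representation to the endomorphisms of a Clifford module
-/

set_option autoImplicit false
set_option linter.unusedSectionVars false

namespace Pool.Agent.H851.UK

open Module

section

variable {k W : Type} [Field k] [CharZero k] [AddCommGroup W] [Module k W] {r : ℕ}
  {a : Fin (2 * r + 1) → k} {P : End k W} {Ψ : Fin (2 * r + 1) → Fin (2 * r + 1) → End k W}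

/-- the square of the product of the first generators -/
theorem IsCl.prodw (h : IsCl a P Ψ) (ha : ∀ s, a s ≠ 0) (j : ℕ) (hj : j ≤ 2 * r) :
    ∃ (z : End k W) (d : k), d ≠ 0 ∧ P * z = z ∧ z * P = z ∧ z * z = d • P ∧
      (∀ i : Fin (2 * r + 1), i ≠ 0 → j < (i : ℕ) → Ψ 0 i * z = ((-1 : k) ^ j) • (z * Ψ 0 i)) ∧
      (∀ i : Fin (2 * r + 1), i ≠ 0 → (i : ℕ) ≤ j →
        Ψ 0 i * z = ((-1 : k) ^ (j + 1)) • (z * Ψ 0 i)) ∧
      ∀ c : End k W, c * P = P * c → (∀ s t, c * Ψ s t = Ψ s t * c) → c * z = z * c := by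
  induction j with
  | zero =>
    refine ⟨P, 1, one_ne_zero, h.idem, h.idem, by rw [h.idem, one_smul],
      fun i _ _ => ?_, fun i hi hi' => absurd (Fin.ext (by simpa using hi')) hi, fun c hc _ => hc⟩
    rw [pow_zero, one_smul, h.left, h.right]
  | succ j ih =>
    obtain ⟨z, d, hd, g1, g2, g3, g4, g5, g6⟩ := ih (by omega)
    let i₀ : Fin (2 * r + 1) := ⟨j + 1, by omega⟩
    have hi₀ : i₀ ≠ 0 := fun h' => absurd (congrArg Fin.val h') (by simp [i₀])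
    have hm1 : ((-1 : k)) ^ j ≠ 0 := pow_ne_zero _ (neg_ne_zero.2 one_ne_zero)
    refine ⟨z * Ψ 0 i₀, (-1 : k) ^ j * (-(a 0 * a i₀) * d), mul_ne_zero hm1 (mul_ne_zero
      (neg_ne_zero.2 (mul_ne_zero (ha _) (ha _))) hd), ?_, ?_, ?_, fun i hi hij => ?_,
      fun i hi hij => ?_, fun c hc hc' => ?_⟩
    · rw [← mul_assoc, g1]
    · rw [mul_assoc, h.right]
    · calc z * Ψ 0 i₀ * (z * Ψ 0 i₀) = z * (Ψ 0 i₀ * z) * Ψ 0 i₀ := by simp only [mul_assoc]
        _ = ((-1 : k) ^ j) • (z * z * (Ψ 0 i₀ * Ψ 0 i₀)) := by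
            rw [g4 i₀ hi₀ (by simp [i₀]), mul_smul_comm, smul_mul_assoc]
            simp only [mul_assoc]
        _ = _ := by
            rw [h.gen_sq hi₀, g3, mul_smul_comm, smul_mul_assoc, h.idem, smul_smul, smul_smul,
              mul_assoc]
    · have hne : i ≠ i₀ := fun h' => by
        rw [h'] at hij
        simp [i₀] at hij
      rw [← mul_assoc, g4 i hi (by omega), smul_mul_assoc, mul_assoc, h.gen_anti hi hi₀ hne,
        mul_neg, pow_succ, mul_neg_one, neg_smul, smul_neg, mul_assoc]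
    · by_cases hne : i = i₀
      · subst hne
        rw [← mul_assoc, g4 i₀ hi₀ (by simp [i₀]), smul_mul_assoc, pow_succ, pow_succ, mul_neg_one,
          mul_neg_one, neg_neg]
      · have hlt : (i : ℕ) ≤ j := by
          have h1 : (i : ℕ) ≠ j + 1 := fun h' => hne (Fin.ext h')
          omega
        rw [← mul_assoc, g5 i hi hlt, smul_mul_assoc, mul_assoc, h.gen_anti hi hi₀ hne, mul_neg,
          pow_succ _ (j + 1), mul_neg_one, neg_smul, smul_neg, mul_assoc]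
    · rw [← mul_assoc, g6 c hc hc', mul_assoc, hc', mul_assoc]

/-- the relations of an equivariant family -/
structure Eqv (a : Fin (2 * r + 1) → k) (Ψ : Fin (2 * r + 1) → Fin (2 * r + 1) → End k W)
    (φ : Fin (2 * r + 1) → End k W) : Prop where
  one : ∀ i j l, i ≠ j → l ≠ i → l ≠ j → Ψ i j * φ l = φ l * Ψ i j
  two : ∀ i j, i ≠ j → Ψ i j * φ j - φ j * Ψ i j = (2 * a j) • φ i

theorem IsCl.gsq (h : IsCl a P Ψ) {i j : Fin (2 * r + 1)} (hij : i ≠ j) :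
    Ψ i j * Ψ i j = -(a i * a j) • P := by
  have h1 : Ψ i j * Ψ i j = -(Ψ i j * Ψ j i) := by
    rw [← mul_neg, ← h.anti i j hij]
  rw [h1, h.mul i j i, h.sq i, smul_smul, neg_smul, mul_comm]

theorem exists_off (hr : 1 ≤ r) (l : Fin (2 * r + 1)) :
    ∃ i j : Fin (2 * r + 1), i ≠ j ∧ l ≠ i ∧ l ≠ j := by
  by_cases h0 : (l : ℕ) = 0
  · exact ⟨⟨1, by omega⟩, ⟨2, by omega⟩, Fin.ne_of_val_ne (show (1 : ℕ) ≠ 2 by omega),
      Fin.ne_of_val_ne (show (l : ℕ) ≠ 1 by omega), Fin.ne_of_val_ne (show (l : ℕ) ≠ 2 by omega)⟩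
  · by_cases h1 : (l : ℕ) = 1
    · exact ⟨⟨0, by omega⟩, ⟨2, by omega⟩, Fin.ne_of_val_ne (show (0 : ℕ) ≠ 2 by omega),
        Fin.ne_of_val_ne (show (l : ℕ) ≠ 0 by omega), Fin.ne_of_val_ne (show (l : ℕ) ≠ 2 by omega)⟩
    · exact ⟨⟨0, by omega⟩, ⟨1, by omega⟩, Fin.ne_of_val_ne (show (0 : ℕ) ≠ 1 by omega),
        Fin.ne_of_val_ne (show (l : ℕ) ≠ 0 by omega), Fin.ne_of_val_ne (show (l : ℕ) ≠ 1 by omega)⟩

theorem Eqv.comm {φ : Fin (2 * r + 1) → End k W} (p : Eqv a Ψ φ) (h : IsCl a P Ψ)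
    (ha : ∀ s, a s ≠ 0) (hr : 1 ≤ r) (l : Fin (2 * r + 1)) : P * φ l = φ l * P := by
  obtain ⟨i, j, hij, hi, hj⟩ := exists_off hr l
  have h1 := p.one i j l hij hi hj
  have h2 := h.gsq hij
  have h3 : Ψ i j * Ψ i j * φ l = φ l * (Ψ i j * Ψ i j) := by
    rw [mul_assoc, h1, ← mul_assoc, h1, mul_assoc]
  rw [h2, smul_mul_assoc, mul_smul_comm] at h3
  exact smul_right_injective _ (neg_ne_zero.2 (mul_ne_zero (ha i) (ha j))) h3

theorem Eqv.left {φ : Fin (2 * r + 1) → End k W} (p : Eqv a Ψ φ) (h : IsCl a P Ψ)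
    (ha : ∀ s, a s ≠ 0) (hr : 1 ≤ r) (l : Fin (2 * r + 1)) : P * φ l = φ l := by
  obtain ⟨i, -, -, hi, -⟩ := exists_off hr l
  have h1 := p.two l i hi
  have h2 : P * (Ψ l i * φ i - φ i * Ψ l i) = Ψ l i * φ i - φ i * Ψ l i := by
    rw [mul_sub, ← mul_assoc, h.left, ← mul_assoc, p.comm h ha hr i, mul_assoc (φ i) P, h.left]
  rw [h1, mul_smul_comm] at h2
  exact smul_right_injective _ (mul_ne_zero two_ne_zero (ha i)) h2

theorem Eqv.anti {φ : Fin (2 * r + 1) → End k W} (p : Eqv a Ψ φ) (h : IsCl a P Ψ)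
    (ha : ∀ s, a s ≠ 0) (hr : 1 ≤ r) {i j : Fin (2 * r + 1)} (hij : i ≠ j) :
    Ψ i j * φ i = -(φ i * Ψ i j) := by
  have h1 := p.two i j hij
  have h2 := h.gsq hij
  have h3 : Ψ i j * (Ψ i j * φ j - φ j * Ψ i j) + (Ψ i j * φ j - φ j * Ψ i j) * Ψ i j = 0 := by
    have e1 : Ψ i j * (Ψ i j * φ j - φ j * Ψ i j) + (Ψ i j * φ j - φ j * Ψ i j) * Ψ i j =
        Ψ i j * Ψ i j * φ j - φ j * (Ψ i j * Ψ i j) := by noncomm_ring
    rw [e1, h2, smul_mul_assoc, mul_smul_comm, p.comm h ha hr j, sub_self]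
  rw [h1, mul_smul_comm, smul_mul_assoc, ← smul_add] at h3
  exact eq_neg_of_add_eq_zero_left
    ((smul_eq_zero.1 h3).resolve_left (mul_ne_zero two_ne_zero (ha j)))

/-- **An equivariant family is a multiple of any other one whose squares are not zero.** -/
theorem Eqv.mult {φ θ : Fin (2 * r + 1) → End k W} (p : Eqv a Ψ φ) (t : Eqv a Ψ θ)
    (h : IsCl a P Ψ) (ha : ∀ s, a s ≠ 0) (hr : 1 ≤ r) {δ : k} (hδ : δ ≠ 0)
    (hθ : θ 0 * θ 0 = δ • P) : ∃ M : End k W, P * M = M ∧ M * P = M ∧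
      (∀ s t, Ψ s t * M = M * Ψ s t) ∧ ∀ s, φ s = M * θ s := by
  have hφP : ∀ l, φ l * P = φ l := fun l => by rw [← p.comm h ha hr, p.left h ha hr]
  have hθP : ∀ l, θ l * P = θ l := fun l => by rw [← t.comm h ha hr, t.left h ha hr]
  have hM1 : P * (δ⁻¹ • (φ 0 * θ 0)) = δ⁻¹ • (φ 0 * θ 0) := by
    rw [mul_smul_comm, ← mul_assoc, p.left h ha hr]
  have hM2 : (δ⁻¹ • (φ 0 * θ 0)) * P = δ⁻¹ • (φ 0 * θ 0) := by
    rw [smul_mul_assoc, mul_assoc, hθP]
  have hM3 := h.comm_all ha hM1 hM2 fun i hi => by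
    rw [mul_smul_comm, smul_mul_assoc]
    congr 1
    calc Ψ 0 i * (φ 0 * θ 0) = (Ψ 0 i * φ 0) * θ 0 := by rw [mul_assoc]
      _ = -(φ 0 * (Ψ 0 i * θ 0)) := by rw [p.anti h ha hr (Ne.symm hi), neg_mul, mul_assoc]
      _ = φ 0 * θ 0 * Ψ 0 i := by rw [t.anti h ha hr (Ne.symm hi), mul_neg, neg_neg, mul_assoc]
  have h0 : φ 0 = (δ⁻¹ • (φ 0 * θ 0)) * θ 0 := by
    rw [smul_mul_assoc, mul_assoc, hθ, mul_smul_comm, smul_smul, inv_mul_cancel₀ hδ, one_smul, hφP]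
  refine ⟨_, hM1, hM2, hM3, fun s => ?_⟩
  by_cases hs : s = 0
  · rw [hs]
    exact h0
  · have e1 := p.two s 0 hs
    have e2 := t.two s 0 hs
    generalize δ⁻¹ • (φ 0 * θ 0) = M at h0 hM3
    have e3 : (2 * a 0) • φ s = (2 * a 0) • (M * θ s) := by
      rw [← e1, ← mul_smul_comm, ← e2, h0, mul_sub, ← mul_assoc, hM3, mul_assoc, mul_assoc]
    exact smul_right_injective _ (mul_ne_zero two_ne_zero (ha 0)) e3

end

section lin

variable {C A D : Type} [Field C] [CharZero C] [AddCommGroup A] [Module C A] [Ring D] [Algebra C D]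
  {B : A →ₗ[C] A →ₗ[C] C} {T : Submodule C A} {P : D} {F : A →ₗ[C] A →ₗ[C] D}

/-- equivariance for the Lie algebra -/
def TEqv (B : A →ₗ[C] A →ₗ[C] C) (T : Submodule C A) (F : A →ₗ[C] A →ₗ[C] D) (φ : A →ₗ[C] D) :
    Prop :=
  ∀ x ∈ T, ∀ y ∈ T, ∀ u ∈ T,
    F x y * φ u - φ u * F x y = (2 * B y u) • φ x - (2 * B x u) • φ y

/-- the square roots of the products are equivariant -/
theorem teqv_of_sq (h : ClRel B T P F) (hs : ∀ x y, B x y = B y x) {θ : A →ₗ[C] D} {c : C}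
    (hc : c ≠ 0) (hθ : ∀ x ∈ T, ∀ y ∈ T, θ x * θ y = c • F x y)
    (hP : ∀ x ∈ T, P * θ x = θ x ∧ θ x * P = θ x) : TEqv B T F θ := by
  intro x hx y hy u hu
  have e1 := h.pol y hy u hu
  have e2 := h.pol x hx u hu
  have f1 : θ y * θ u = (c * (2 * B y u)) • P - θ u * θ y := by
    rw [hθ y hy u hu, hθ u hu y hy, mul_smul, ← e1, smul_add, add_sub_cancel_right]
  have f2 : θ x * θ u = (c * (2 * B x u)) • P - θ u * θ x := by
    rw [hθ x hx u hu, hθ u hu x hx, mul_smul, ← e2, smul_add, add_sub_cancel_right]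
  have f3 : θ x * θ y * θ u = (c * (2 * B y u)) • θ x - (c * (2 * B x u)) • θ y +
      θ u * (θ x * θ y) := by
    calc θ x * θ y * θ u = θ x * (θ y * θ u) := mul_assoc _ _ _
      _ = (c * (2 * B y u)) • θ x - (θ x * θ u) * θ y := by
          rw [f1, mul_sub, mul_smul_comm, (hP x hx).2, mul_assoc]
      _ = _ := by
          rw [f2, sub_mul, smul_mul_assoc, (hP y hy).1, mul_assoc]
          abel
  rw [hθ x hx y hy, smul_mul_assoc, mul_smul_comm] at f3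
  have f4 : c • (F x y * θ u - θ u * F x y) = c • ((2 * B y u) • θ x - (2 * B x u) • θ y) := by
    rw [smul_sub, f3, add_sub_cancel_right, smul_sub, smul_smul, smul_smul]
  exact smul_right_injective _ hc f4

end lin

section lin2

variable {k V W : Type} [Field k] [CharZero k] [AddCommGroup V] [Module k V] [AddCommGroup W]
  [Module k W] {B : V →ₗ[k] V →ₗ[k] k} {T : Submodule k V} {P : End k W}
  {F : V →ₗ[k] V →ₗ[k] End k W} {r : ℕ} {e : Fin (2 * r + 1) → V} {a : Fin (2 * r + 1) → k}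

theorem TEqv.eqv {φ : V →ₗ[k] End k W} (p : TEqv B T F φ) (he : ∀ s, e s ∈ T)
    (hee : ∀ s, B (e s) (e s) = a s) (hne : ∀ s t, s ≠ t → B (e s) (e t) = 0) :
    Eqv a (fun s t => F (e s) (e t)) (fun s => φ (e s)) := by
  refine ⟨fun i j l hij hi hj => ?_, fun i j hij => ?_⟩
  · have h1 := p _ (he i) _ (he j) _ (he l)
    rw [hne j l (Ne.symm hj), hne i l (Ne.symm hi), mul_zero, zero_smul, zero_smul,
      sub_zero] at h1
    exact sub_eq_zero.1 h1
  · have h1 := p _ (he i) _ (he j) _ (he j)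
    rw [hee, hne i j hij, mul_zero, zero_smul, sub_zero] at h1
    exact h1

end lin2

end Pool.Agent.H851.UK
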