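import Mathlib
import Pool.Agent.H851.UK.Def

/-!
# The definition used in the statement on the Lie algebra of the Kuga-Satake part
-/

set_option autoImplicit false
set_option linter.unusedSectionVars false
set_option linter.unusedVariables false

namespace Pool.Agent.H851.UK

open Matrix NumberField IsDedekindDomain Polynomial
open Pool.Agent.H851.K3 Pool.Agent.H851.KD
open Pool.Agent.NH56.HY (GK IsFrobenius)

variable {K : Type} [Field K] [NumberField K] {ℓ : ℕ} [hℓ : Fact ℓ.Prime] {n : Type}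
    [Fintype n] [DecidableEq n] {m : Type} [Fintype m] [DecidableEq m]

/-- The Lie algebra of `V(1) ⊕ W` acts on `P W` through linear combinations of the products `ψ x y` of two vectors
of `T`: the space of these combinations is `gspin(T)`, the sum of the scalars and of the Lie algebra `so(T)` in the
even Clifford algebra of `T`. -/
def ActsThroughProducts (q : Matrix n n ℚ_[ℓ]) (χ : GK K →* ℚ_[ℓ]) (ρ : GK K →* Matrix n n ℚ_[ℓ])
    (σ : GK K →* Matrix m m ℚ_[ℓ]) (P : Matrix m m ℚ_[ℓ])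
    (ψ : (n → ℚ_[ℓ]) → (n → ℚ_[ℓ]) → Matrix m m ℚ_[ℓ]) : Prop :=
  ∀ (X : Matrix n n ℚ_[ℓ]) (Y : Matrix m m ℚ_[ℓ]), InLie χ ρ σ X Y →
    Y * P ∈ Submodule.span ℚ_[ℓ] {Z | ∃ x ∈ orth q (tate χ ρ), ∃ y ∈ orth q (tate χ ρ), ψ x y = Z}

end Pool.Agent.H851.UK
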