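import Pool.Agent.H851.UK.Emb

/-!
# The centre of the commutant of the even Clifford algebra in odd dimension
-/

set_option autoImplicit false

namespace Pool.Agent.H851.UK

open Module

section

variable {k W : Type} [Field k] [CharZero k] [AddCommGroup W] [Module k W] {r : ℕ}
  {a : Fin (2 * r + 1) → k} {P : End k W} {Ψ : Fin (2 * r + 1) → Fin (2 * r + 1) → End k W}

/-- operators which commute with the generators commute with all products -/
theorem IsCl.comm_all (h : IsCl a P Ψ) (ha : ∀ s, a s ≠ 0) {X : End k W} (hPX : P * X = X)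
    (hXP : X * P = X) (hX : ∀ i : Fin (2 * r + 1), i ≠ 0 → Ψ 0 i * X = X * Ψ 0 i) (s t) :
    Ψ s t * X = X * Ψ s t := by
  have hs0 : ∀ s, Ψ 0 s * X = X * Ψ 0 s := by
    intro s
    by_cases hs : s = 0
    · subst hs
      rw [h.sq, smul_mul_assoc, mul_smul_comm, hPX, hXP]
    · exact hX s hs
  have hs0' : ∀ s, Ψ s 0 * X = X * Ψ s 0 := by
    intro s
    by_cases hs : s = 0
    · subst hs
      exact hs0 0
    · rw [h.anti s 0 hs, neg_mul, mul_neg, hs0]
  have e1 : a 0 • (Ψ s t * X) = a 0 • (X * Ψ s t) := by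
    rw [← smul_mul_assoc, ← mul_smul_comm, ← h.mul s 0 t, mul_assoc, hs0 t, ← mul_assoc, hs0' s,
      mul_assoc]
  exact smul_right_injective _ (ha 0) e1

/-- the product of the first generators -/
theorem IsCl.prodz (h : IsCl a P Ψ) (ha : ∀ s, a s ≠ 0) (j : ℕ) (hj : j ≤ 2 * r) :
    ∃ (z z' : End k W) (d : k), d ≠ 0 ∧ P * z = z ∧ z * P = z ∧ z * z' = d • P ∧ P * z' = z' ∧
      (∀ i : Fin (2 * r + 1), i ≠ 0 → j < (i : ℕ) → Ψ 0 i * z = ((-1 : k) ^ j) • (z * Ψ 0 i)) ∧
      (∀ i : Fin (2 * r + 1), i ≠ 0 → (i : ℕ) ≤ j →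
        Ψ 0 i * z = ((-1 : k) ^ (j + 1)) • (z * Ψ 0 i)) ∧
      ∀ c : End k W, c * P = P * c → (∀ s t, c * Ψ s t = Ψ s t * c) → c * z = z * c ∧
        c * z' = z' * c := by
  induction j with
  | zero =>
    refine ⟨P, P, 1, one_ne_zero, h.idem, h.idem, by rw [h.idem, one_smul], h.idem,
      fun i _ _ => ?_, fun i hi hi' => absurd (Fin.ext (by simpa using hi')) hi,
      fun c hc _ => ⟨hc, hc⟩⟩
    rw [pow_zero, one_smul, h.left, h.right]
  | succ j ih =>
    obtain ⟨z, z', d, hd, g1, g2, g3, g3', g4, g5, g6⟩ := ih (by omega)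
    let i₀ : Fin (2 * r + 1) := ⟨j + 1, by omega⟩
    have hi₀ : i₀ ≠ 0 := fun h' => absurd (congrArg Fin.val h') (by simp [i₀])
    refine ⟨z * Ψ 0 i₀, Ψ 0 i₀ * z', -(a 0 * a i₀) * d, mul_ne_zero
      (neg_ne_zero.2 (mul_ne_zero (ha _) (ha _))) hd, ?_, ?_, ?_, ?_, fun i hi hij => ?_,
      fun i hi hij => ?_, fun c hc hc' => ⟨?_, ?_⟩⟩
    · rw [← mul_assoc, g1]
    · rw [mul_assoc, h.right]
    · calc z * Ψ 0 i₀ * (Ψ 0 i₀ * z') = z * (Ψ 0 i₀ * Ψ 0 i₀) * z' := by simp only [mul_assoc]
        _ = _ := by rw [h.gen_sq hi₀, mul_smul_comm, g2, smul_mul_assoc, g3, smul_smul]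
    · rw [← mul_assoc, h.left]
    · have hne : i ≠ i₀ := fun h' => by
        rw [h'] at hij
        simp [i₀] at hij
      rw [← mul_assoc, g4 i hi (by omega), smul_mul_assoc, mul_assoc, h.gen_anti hi hi₀ hne,
        mul_neg, pow_succ, mul_neg_one, neg_smul, smul_neg, mul_assoc]
    · by_cases hne : i = i₀
      · subst hne
        rw [← mul_assoc, g4 i₀ hi₀ (by simp [i₀]), smul_mul_assoc, pow_succ, pow_succ, mul_neg_one,
          mul_neg_one, neg_neg]
      · have hlt : (i : ℕ) ≤ j := by
          have h1 : (i : ℕ) ≠ j + 1 := fun h' => hne (Fin.ext h')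
          omega
        rw [← mul_assoc, g5 i hi hlt, smul_mul_assoc, mul_assoc, h.gen_anti hi hi₀ hne, mul_neg,
          pow_succ _ (j + 1), mul_neg_one, neg_smul, smul_neg, mul_assoc]
    · rw [← mul_assoc, (g6 c hc hc').1, mul_assoc, hc', mul_assoc]
    · rw [← mul_assoc, hc', mul_assoc, (g6 c hc hc').2, mul_assoc]

/-- **The centre of the commutant consists of scalars.** -/
theorem IsCl.scalar (h : IsCl a P Ψ) (ha : ∀ s, a s ≠ 0) {c : End k W} (hPc : P * c = c)
    (hcP : c * P = c) (hc : ∀ s t, c * Ψ s t = Ψ s t * c)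
    (hcc : ∀ b : End k W, P * b = b → b * P = b → (∀ s t, Ψ s t * b = b * Ψ s t) → c * b = b * c) :
    ∃ e : k, c = e • P := by
  obtain ⟨z, z', d, hd, g1, g2, g3, g3', -, g5, g6⟩ := h.prodz ha (2 * r) le_rfl
  have hcP' : c * P = P * c := by rw [hcP, hPc]
  obtain ⟨hcz, hcz'⟩ := g6 c hcP' hc
  have hz : ∀ i : Fin (2 * r + 1), i ≠ 0 → Ψ 0 i * z = -(z * Ψ 0 i) := by
    intro i hi
    rw [g5 i hi (by omega), pow_succ, pow_mul, neg_one_sq, one_pow, one_mul, neg_one_smul]
  have key : ∀ j : ℕ, ∀ X : End k W, P * X = X → X * P = X →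
      (∀ i : Fin (2 * r + 1), i ≠ 0 → j < (i : ℕ) → Ψ 0 i * X = X * Ψ 0 i) → c * X = X * c := by
    intro j
    induction j with
    | zero =>
      intro X x1 x2 x3
      refine hcc X x1 x2 (h.comm_all ha x1 x2 fun i hi => x3 i hi ?_)
      have h1 : (i : ℕ) ≠ 0 := fun h' => hi (Fin.ext h')
      omega
    | succ j ih =>
      intro X x1 x2 x3
      by_cases hj : j + 1 < 2 * r + 1
      swap
      · exact ih X x1 x2 fun i hi hij => x3 i hi (by omega)
      let i₀ : Fin (2 * r + 1) := ⟨j + 1, hj⟩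
      have hi₀ : i₀ ≠ 0 := fun h' => absurd (congrArg Fin.val h') (by simp [i₀])
      have hc0 : -(a 0 * a i₀) ≠ 0 := neg_ne_zero.2 (mul_ne_zero (ha _) (ha _))
      set γ : End k W := Ψ 0 i₀ with hγ
      have hγγ : γ * γ = -(a 0 * a i₀) • P := h.gen_sq hi₀
      have hγP : γ * P = γ := h.right 0 i₀
      have hPγ : P * γ = γ := h.left 0 i₀
      have hcγ : c * γ = γ * c := hc 0 i₀
      have hzγ : γ * z = -(z * γ) := hz i₀ hi₀
      set Y : End k W := (-(a 0 * a i₀))⁻¹ • (γ * X * γ) with hY
      have hγY : γ * Y = X * γ := by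
        rw [hY, mul_smul_comm]
        calc (-(a 0 * a i₀))⁻¹ • (γ * (γ * X * γ)) = (-(a 0 * a i₀))⁻¹ • ((γ * γ) * X * γ) := by
              simp only [mul_assoc]
          _ = X * γ := by
              rw [hγγ, smul_mul_assoc, smul_mul_assoc, x1, smul_smul, inv_mul_cancel₀ hc0, one_smul]
      have hYγ : Y * γ = γ * X := by
        rw [hY, smul_mul_assoc]
        calc (-(a 0 * a i₀))⁻¹ • (γ * X * γ * γ) = (-(a 0 * a i₀))⁻¹ • (γ * X * (γ * γ)) := by
              simp only [mul_assoc]
          _ = γ * X := by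
              rw [hγγ, mul_smul_comm, mul_assoc, x2, smul_smul, inv_mul_cancel₀ hc0, one_smul]
      have hPY : P * Y = Y := by
        rw [hY, mul_smul_comm, ← mul_assoc, ← mul_assoc, hPγ]
      have hYP : Y * P = Y := by
        rw [hY, smul_mul_assoc, mul_assoc, hγP]
      have hYi : ∀ i : Fin (2 * r + 1), i ≠ 0 → j + 1 < (i : ℕ) → Ψ 0 i * Y = Y * Ψ 0 i := by
        intro i hi hij
        have hne : i ≠ i₀ := fun h' => by
          rw [h'] at hij
          simp [i₀] at hij
        have e0 := h.gen_anti hi hi₀ hne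
        rw [← hγ] at e0
        rw [hY, mul_smul_comm, smul_mul_assoc]
        congr 1
        calc Ψ 0 i * (γ * X * γ) = (Ψ 0 i * γ) * X * γ := by simp only [mul_assoc]
          _ = -(γ * (Ψ 0 i * X) * γ) := by rw [e0]; simp only [mul_assoc, neg_mul]
          _ = -(γ * X * (Ψ 0 i * γ)) := by rw [x3 i hi hij]; simp only [mul_assoc]
          _ = γ * X * γ * Ψ 0 i := by rw [e0]; simp only [mul_assoc, mul_neg, neg_neg]
      -- the part which commutes with `γ`
      have hE : c * (X + Y) = (X + Y) * c := by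
        refine ih (X + Y) (by rw [mul_add, x1, hPY]) (by rw [add_mul, x2, hYP])
          fun i hi hij => ?_
        by_cases hne : i = i₀
        · subst hne
          rw [← hγ, mul_add, add_mul, hγY, hYγ, add_comm]
        · have hlt : j + 1 < (i : ℕ) := by
            have h1 : (i : ℕ) ≠ j + 1 := fun h' => hne (Fin.ext h')
            omega
          rw [mul_add, add_mul, x3 i hi hlt, hYi i hi hlt]
      -- the part which anticommutes with `γ`
      have hγO : γ * (X - Y) = -((X - Y) * γ) := by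
        rw [mul_sub, sub_mul, hγY, hYγ, neg_sub]
      have hO : c * ((X - Y) * (z * γ)) = (X - Y) * (z * γ) * c := by
        refine ih _ ?_ ?_ fun i hi hij => ?_
        · rw [← mul_assoc, mul_sub, x1, hPY]
        · rw [mul_assoc, mul_assoc, hγP]
        · by_cases hne : i = i₀
          · subst hne
            rw [← hγ]
            calc γ * ((X - Y) * (z * γ)) = (γ * (X - Y)) * (z * γ) := by simp only [mul_assoc]
              _ = -((X - Y) * (γ * z) * γ) := by rw [hγO]; simp only [mul_assoc, neg_mul]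
              _ = (X - Y) * (z * γ) * γ := by
                  rw [hzγ]
                  simp only [mul_assoc, mul_neg, neg_mul, neg_neg]
          · have hlt : j + 1 < (i : ℕ) := by
              have h1 : (i : ℕ) ≠ j + 1 := fun h' => hne (Fin.ext h')
              omega
            have e0 := h.gen_anti hi hi₀ hne
            rw [← hγ] at e0
            have e1 : Ψ 0 i * (X - Y) = (X - Y) * Ψ 0 i := by
              rw [mul_sub, sub_mul, x3 i hi hlt, hYi i hi hlt]
            calc Ψ 0 i * ((X - Y) * (z * γ)) = (Ψ 0 i * (X - Y)) * (z * γ) := by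
                  simp only [mul_assoc]
              _ = (X - Y) * (Ψ 0 i * z) * γ := by rw [e1]; simp only [mul_assoc]
              _ = -((X - Y) * z * (Ψ 0 i * γ)) := by
                  rw [hz i hi]
                  simp only [mul_assoc, mul_neg, neg_mul]
              _ = (X - Y) * (z * γ) * Ψ 0 i := by
                  rw [e0]
                  simp only [mul_assoc, mul_neg, neg_neg]
      have hO' : c * (X - Y) = (X - Y) * c := by
        have e1 : z * γ * (γ * z') = (-(a 0 * a i₀) * d) • P := by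
          calc z * γ * (γ * z') = z * (γ * γ) * z' := by simp only [mul_assoc]
            _ = _ := by rw [hγγ, mul_smul_comm, g2, smul_mul_assoc, g3, smul_smul]
        have e2 : c * (γ * z') = γ * z' * c := by
          rw [← mul_assoc, hcγ, mul_assoc, hcz', mul_assoc]
        have e3 : (X - Y) * P = X - Y := by rw [sub_mul, x2, hYP]
        have e4 : (-(a 0 * a i₀) * d) • (c * (X - Y)) = (-(a 0 * a i₀) * d) • ((X - Y) * c) := by
          calc (-(a 0 * a i₀) * d) • (c * (X - Y)) = c * ((X - Y) * (z * γ)) * (γ * z') := by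
                rw [mul_assoc c, mul_assoc (X - Y), e1, mul_smul_comm, e3, mul_smul_comm]
            _ = (X - Y) * (z * γ) * (c * (γ * z')) := by rw [hO, mul_assoc _ c]
            _ = (X - Y) * ((z * γ) * (γ * z')) * c := by rw [e2]; simp only [mul_assoc]
            _ = _ := by rw [e1, mul_smul_comm, e3, smul_mul_assoc]
        exact smul_right_injective _ (mul_ne_zero hc0 hd) e4
      have h2 : (2 : k) • (c * X) = (2 : k) • (X * c) := by
        have e1 : X + X = (X + Y) + (X - Y) := by abel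
        rw [two_smul, two_smul, ← mul_add, ← add_mul, e1, mul_add, add_mul, hE, hO']
      exact smul_right_injective _ (two_ne_zero (α := k)) h2
  by_cases hP : P = 0
  · exact ⟨0, by rw [zero_smul, ← hPc, hP, zero_mul]⟩
  obtain ⟨x, hx⟩ : ∃ x, P x ≠ 0 := by
    by_contra h'
    push Not at h'
    exact hP (LinearMap.ext h')
  obtain ⟨φ, hφ⟩ : ∃ φ : Dual k W, φ (P x) ≠ 0 := by
    by_contra h'
    push Not at h'
    exact hx ((Module.forall_dual_apply_eq_zero_iff k (P x)).1 h')
  have hPP : ∀ y, P (P y) = P y := fun y => LinearMap.congr_fun h.idem y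
  refine ⟨(φ (P x))⁻¹ * φ (P (c (P x))), LinearMap.ext fun y => ?_⟩
  have h1 := key (2 * r) (LinearMap.smulRight (φ ∘ₗ P) (P y)) (LinearMap.ext fun v => by
      rw [Module.End.mul_apply, LinearMap.smulRight_apply, map_smul, hPP])
    (LinearMap.ext fun v => by
      rw [Module.End.mul_apply, LinearMap.smulRight_apply, LinearMap.smulRight_apply,
        LinearMap.comp_apply, LinearMap.comp_apply, hPP]) (fun i hi hij => by omega)
  have h2 := LinearMap.congr_fun h1 (P x)
  rw [Module.End.mul_apply, Module.End.mul_apply, LinearMap.smulRight_apply,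
    LinearMap.smulRight_apply, LinearMap.comp_apply, LinearMap.comp_apply, hPP, map_smul] at h2
  have h3 : c (P y) = c y := LinearMap.congr_fun hcP y
  rw [h3] at h2
  rw [LinearMap.smul_apply, mul_smul, ← h2, smul_smul, inv_mul_cancel₀ hφ, one_smul]

end

end Pool.Agent.H851.UK
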