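import Pool.Agent.H851.UK.A

/-!
# Modules of the even Clifford algebra in odd dimension embed in powers of each other
-/

set_option autoImplicit false

namespace Pool.Agent.H851.UK

open Module

section

variable {k W : Type} [Field k] [CharZero k] [AddCommGroup W] [Module k W] {r : ℕ}
  {a : Fin (2 * r + 1) → k} {P : End k W} {Ψ : Fin (2 * r + 1) → Fin (2 * r + 1) → End k W}

theorem IsCl.gen_sq (h : IsCl a P Ψ) {i : Fin (2 * r + 1)} (hi : i ≠ 0) :
    Ψ 0 i * Ψ 0 i = -(a 0 * a i) • P := by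
  have h1 := h.anti 0 i (Ne.symm hi)
  calc Ψ 0 i * Ψ 0 i = -(Ψ 0 i * Ψ i 0) := by rw [h.anti i 0 hi, mul_neg, neg_neg]
    _ = -(a 0 * a i) • P := by rw [h.mul, h.sq, smul_smul, neg_smul, mul_comm]

theorem IsCl.gen_anti (h : IsCl a P Ψ) {i l : Fin (2 * r + 1)} (hi : i ≠ 0) (hl : l ≠ 0)
    (hil : i ≠ l) : Ψ 0 i * Ψ 0 l = -(Ψ 0 l * Ψ 0 i) := by
  have h1 : ∀ {i l : Fin (2 * r + 1)}, i ≠ 0 → Ψ 0 i * Ψ 0 l = -(a 0 • Ψ i l) := by
    intro i l hi
    rw [h.anti 0 i (Ne.symm hi), neg_mul, h.mul]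
  rw [h1 hi, h1 hl, h.anti i l hil, smul_neg]

/-- an equivariant projection onto a submodule -/
theorem IsCl.proj (h : IsCl a P Ψ) (ha : ∀ s, a s ≠ 0) (K : Submodule k W) (hK : ∀ x ∈ K, P x = x)
    (hKs : ∀ s t, ∀ x ∈ K, Ψ s t x ∈ K) :
    ∃ X : End k W, (∀ x, X x ∈ K) ∧ (∀ x ∈ K, X x = x) ∧ X * P = X ∧
      ∀ s t, Ψ s t * X = X * Ψ s t := by
  obtain ⟨g, hg⟩ := LinearMap.exists_leftInverse_of_injective K.subtype K.ker_subtype
  have hg' : ∀ x (hx : x ∈ K), g x = ⟨x, hx⟩ := fun x hx => LinearMap.congr_fun hg ⟨x, hx⟩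
  have key : ∀ j : ℕ, ∃ X : End k W, (∀ x, X x ∈ K) ∧ (∀ x ∈ K, X x = x) ∧ X * P = X ∧
      ∀ i : Fin (2 * r + 1), i ≠ 0 → (i : ℕ) ≤ j → Ψ 0 i * X = X * Ψ 0 i := by
    intro j
    induction j with
    | zero =>
      refine ⟨K.subtype ∘ₗ g ∘ₗ P, fun x => (g (P x)).2, fun x hx => ?_, ?_, fun i hi hi' => ?_⟩
      · change ((g (P x) : K) : W) = x
        rw [hK x hx, hg' x hx]
      · refine LinearMap.ext fun x => ?_
        change ((g (P (P x)) : K) : W) = (g (P x) : K)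
        have h1 : P (P x) = P x := LinearMap.congr_fun h.idem x
        rw [h1]
      · exact absurd (Fin.ext (by simpa using hi')) hi
    | succ j ih =>
      obtain ⟨X, x1, x2, x3, x4⟩ := ih
      by_cases hj : j + 1 < 2 * r + 1
      swap
      · exact ⟨X, x1, x2, x3, fun i hi _ => x4 i hi (by omega)⟩
      let i₀ : Fin (2 * r + 1) := ⟨j + 1, hj⟩
      have hi₀ : i₀ ≠ 0 := fun h' => absurd (congrArg Fin.val h') (by simp [i₀])
      have hc : -(a 0 * a i₀) ≠ 0 := neg_ne_zero.2 (mul_ne_zero (ha _) (ha _))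
      have hPX : P * X = X := LinearMap.ext fun x => hK _ (x1 x)
      set γ : End k W := Ψ 0 i₀ with hγ
      have hγγ : γ * γ = -(a 0 * a i₀) • P := h.gen_sq hi₀
      have hγP : γ * P = γ := h.right 0 i₀
      have hPγ : P * γ = γ := h.left 0 i₀
      refine ⟨(2⁻¹ : k) • (X + (-(a 0 * a i₀))⁻¹ • (γ * X * γ)), fun x => ?_, fun x hx => ?_, ?_,
        fun i hi hij => ?_⟩
      · change (2⁻¹ : k) • (X x + (-(a 0 * a i₀))⁻¹ • γ (X (γ x))) ∈ K
        exact K.smul_mem _ (K.add_mem (x1 x) (K.smul_mem _ (hKs _ _ _ (x1 _))))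
      · change (2⁻¹ : k) • (X x + (-(a 0 * a i₀))⁻¹ • γ (X (γ x))) = x
        have h1 : γ (γ x) = -(a 0 * a i₀) • P x := LinearMap.congr_fun hγγ x
        rw [x2 x hx, x2 (γ x) (hKs _ _ _ hx), h1, hK x hx, smul_smul, inv_mul_cancel₀ hc, one_smul,
          ← two_smul k x, smul_smul, inv_mul_cancel₀ two_ne_zero, one_smul]
      · rw [smul_mul_assoc, add_mul, smul_mul_assoc, x3, mul_assoc, hγP]
      · by_cases hil : i = i₀
        · subst hil
          rw [← hγ, mul_smul_comm, smul_mul_assoc, mul_add, add_mul, mul_smul_comm, smul_mul_assoc]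
          congr 1
          have e1 : γ * (γ * X * γ) = -(a 0 * a i₀) • (X * γ) := by
            calc γ * (γ * X * γ) = (γ * γ) * X * γ := by simp only [mul_assoc]
              _ = _ := by rw [hγγ, smul_mul_assoc, smul_mul_assoc, hPX]
          have e2 : γ * X * γ * γ = -(a 0 * a i₀) • (γ * X) := by
            calc γ * X * γ * γ = γ * X * (γ * γ) := by simp only [mul_assoc]
              _ = _ := by rw [hγγ, mul_smul_comm, mul_assoc, x3]
          rw [e1, e2, smul_smul, smul_smul, inv_mul_cancel₀ hc, one_smul, one_smul, add_comm]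
        · have hij' : (i : ℕ) ≤ j := by
            have h1 : (i : ℕ) ≠ j + 1 := fun h' => hil (Fin.ext h')
            omega
          have e0 := h.gen_anti hi hi₀ hil
          rw [← hγ] at e0
          have e0' : γ * Ψ 0 i = -(Ψ 0 i * γ) := by rw [e0, neg_neg]
          rw [mul_smul_comm, smul_mul_assoc, mul_add, add_mul, mul_smul_comm, smul_mul_assoc,
            x4 i hi hij']
          congr 3
          calc Ψ 0 i * (γ * X * γ) = (Ψ 0 i * γ) * X * γ := by simp only [mul_assoc]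
            _ = -(γ * (Ψ 0 i * X) * γ) := by rw [e0]; simp only [mul_assoc, neg_mul]
            _ = -(γ * X * (Ψ 0 i * γ)) := by rw [x4 i hi hij']; simp only [mul_assoc]
            _ = γ * X * γ * Ψ 0 i := by rw [e0]; simp only [mul_assoc, mul_neg, neg_neg]
  obtain ⟨X, x1, x2, x3, x4⟩ := key (2 * r)
  have hPX : P * X = X := LinearMap.ext fun x => hK _ (x1 x)
  have hs0 : ∀ s, Ψ 0 s * X = X * Ψ 0 s := by
    intro s
    by_cases hs : s = 0
    · subst hs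
      rw [h.sq, smul_mul_assoc, mul_smul_comm, hPX, x3]
    · exact x4 s hs (by omega)
  have hs0' : ∀ s, Ψ s 0 * X = X * Ψ s 0 := by
    intro s
    by_cases hs : s = 0
    · subst hs
      exact hs0 0
    · rw [h.anti s 0 hs, neg_mul, mul_neg, hs0]
  refine ⟨X, x1, x2, x3, fun s t => ?_⟩
  have e1 : a 0 • (Ψ s t * X) = a 0 • (X * Ψ s t) := by
    rw [← smul_mul_assoc, ← mul_smul_comm, ← h.mul s 0 t, mul_assoc, hs0 t, ← mul_assoc, hs0' s,
      mul_assoc]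
  exact smul_right_injective _ (ha 0) e1

end

/-- **Modules of the even Clifford algebra in odd dimension embed in powers of each other.** -/
theorem emb {k W₁ W₂ : Type} [Field k] [CharZero k] [AddCommGroup W₁] [Module k W₁]
    [AddCommGroup W₂] [Module k W₂] {r : ℕ} {a : Fin (2 * r + 1) → k} {P₁ : End k W₁}
    {P₂ : End k W₂} {Ψ₁ : Fin (2 * r + 1) → Fin (2 * r + 1) → End k W₁}
    {Ψ₂ : Fin (2 * r + 1) → Fin (2 * r + 1) → End k W₂} (ha : ∀ s, a s ≠ 0) (hP₂ : P₂ ≠ 0)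
    (h₁ : IsCl a P₁ Ψ₁) (h₂ : IsCl a P₂ Ψ₂) {x : W₁} (hx : P₁ x = x) (hx0 : x ≠ 0) :
    ∃ L : W₁ →ₗ[k] W₂, L x ≠ 0 ∧ P₂ ∘ₗ L = L ∧ L ∘ₗ P₁ = L ∧
      ∀ s t, Ψ₂ s t ∘ₗ L = L ∘ₗ Ψ₁ s t := by
  by_contra hcon
  push Not at hcon
  let K : Submodule k W₁ :=
    { carrier := {x | P₁ x = x ∧ ∀ L : W₁ →ₗ[k] W₂, P₂ ∘ₗ L = L → L ∘ₗ P₁ = L →
        (∀ s t, Ψ₂ s t ∘ₗ L = L ∘ₗ Ψ₁ s t) → L x = 0}
      zero_mem' := ⟨map_zero _, fun L _ _ _ => map_zero L⟩
      add_mem' := fun {x y} hx hy => ⟨by rw [map_add, hx.1, hy.1], fun L l1 l2 l3 => by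
        rw [map_add, hx.2 L l1 l2 l3, hy.2 L l1 l2 l3, add_zero]⟩
      smul_mem' := fun c x hx => ⟨by rw [map_smul, hx.1], fun L l1 l2 l3 => by
        rw [map_smul, hx.2 L l1 l2 l3, smul_zero]⟩ }
  have hxK : x ∈ K := by
    refine ⟨hx, fun L l1 l2 l3 => ?_⟩
    by_contra hne
    obtain ⟨s, t, hst⟩ := hcon L hne l1 l2
    exact hst (l3 s t)
  obtain ⟨X, x1, x2, x3, x4⟩ := h₁.proj ha K (fun x hx => hx.1) (by
    intro s t x hx
    refine ⟨LinearMap.congr_fun (h₁.left s t) x, fun L l1 l2 l3 => ?_⟩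
    have e1 := LinearMap.congr_fun (l3 s t) x
    rw [LinearMap.comp_apply, LinearMap.comp_apply, hx.2 L l1 l2 l3, map_zero] at e1
    exact e1.symm)
  have hXX : X * X = X := LinearMap.ext fun y => x2 _ (x1 y)
  have hX0 : X ≠ 0 := by
    intro h0
    have h1 := x2 x hxK
    rw [h0] at h1
    exact hx0 h1.symm
  have hcl : IsCl a X (fun s t => X * Ψ₁ s t) := by
    refine ⟨hXX, fun s t => ?_, fun s t => ?_, fun s => ?_, fun s t hst => ?_, fun s t u => ?_⟩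
    · change X * (X * Ψ₁ s t) = X * Ψ₁ s t
      rw [← mul_assoc, hXX]
    · change X * Ψ₁ s t * X = X * Ψ₁ s t
      rw [mul_assoc, x4, ← mul_assoc, hXX]
    · change X * Ψ₁ s s = a s • X
      rw [h₁.sq, mul_smul_comm, x3]
    · change X * Ψ₁ s t = -(X * Ψ₁ t s)
      rw [h₁.anti s t hst, mul_neg]
    · change X * Ψ₁ s t * (X * Ψ₁ t u) = a t • (X * Ψ₁ s u)
      rw [← mul_assoc, mul_assoc X, x4, ← mul_assoc, hXX, mul_assoc, h₁.mul, mul_smul_comm]
  obtain ⟨L, hL0, l1, l2, l3⟩ := A.t_A k W₁ W₂ r a X P₂ _ Ψ₂ ha hX0 hP₂ hcl h₂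
  have l2' : ∀ y, L (X y) = L y := fun y => LinearMap.congr_fun l2 y
  have l4 : L ∘ₗ P₁ = L := by
    refine LinearMap.ext fun y => ?_
    rw [LinearMap.comp_apply, ← l2' (P₁ y)]
    have e1 : X (P₁ y) = X y := LinearMap.congr_fun x3 y
    rw [e1, l2']
  have l5 : ∀ s t, Ψ₂ s t ∘ₗ L = L ∘ₗ Ψ₁ s t := by
    intro s t
    rw [l3 s t]
    exact LinearMap.ext fun y => l2' _
  apply hL0
  refine LinearMap.ext fun y => ?_
  rw [← l2' y]
  exact (x1 y).2 L l1 l4 l5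

end Pool.Agent.H851.UK
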