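import Pool.Agent.H851.KS.Num

/-!
# The valuations of the eigenvalues of an ordinary Frobenius element, for all embeddings
-/

set_option autoImplicit false

namespace Pool.Agent.H851.UK

open Matrix Polynomial Filter Topology NumberField IsDedekindDomain
open Pool.Agent.NH56.HY Pool.Agent.H851.K3 Pool.Agent.H851.KS

section

variable {K : Type} [Field K] [NumberField K] {ℓ : ℕ} [Fact ℓ.Prime] {n : Type}
    [Fintype n] [DecidableEq n] {q : Matrix n n ℚ_[ℓ]} {S : Finset ℕ} {χ : GK K →* ℚ_[ℓ]}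
    {Pol : HeightOneSpectrum (𝓞 K) → ℤ[X]} {ρ : GK K →* Matrix n n ℚ_[ℓ]}

open Classical in
/-- **Ordinary Frobenius elements**, for all embeddings. -/
theorem fro_pi (h : IsK3Type q S χ Pol ρ) {p : ℕ} [hpf : Fact p.Prime] (hpS : p ∉ S)
    {v : HeightOneSpectrum (𝓞 K)} (hv : Ideal.absNorm v.asIdeal = p) {σ : GK K}
    (hσ : IsFrobenius v σ) (hord : ¬ (p : ℤ) ∣ (Pol v).coeff (Fintype.card n - 1))
    (s : AlgebraicClosure ℚ →+* PadicAlgCl ℓ) (π : AlgebraicClosure ℚ →+* PadicAlgCl p) :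
    ∃ (A : PadicAlgCl ℓ → Prop) (φ : PadicAlgCl ℓ → ℝ) (β : PadicAlgCl ℓ), AddOn A φ ∧
      (∀ γ, (R χ ρ σ⁻¹).charpoly.IsRoot γ → A γ) ∧ (R χ ρ σ⁻¹).charpoly.IsRoot β ∧ β ≠ 1 ∧
      φ β = 1 ∧ (∀ γ, (R χ ρ σ⁻¹).charpoly.IsRoot γ → γ ≠ β → γ ≠ β⁻¹ → φ γ = 0) ∧
      ∀ t : AlgebraicClosure ℚ, t ≠ 0 → A (s t) ∧ φ (s t) = Real.logb p ‖π t‖ := by
  have hc := h.card
  have hp1 : (1 : ℝ) < p := by exact_mod_cast hpf.out.one_lt
  obtain ⟨c⟩ := Pool.Agent.NH66.HY.Nwt.exists_hom ℚ ℂ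
  obtain ⟨hmon, hweil⟩ := h.weil p hpS v hv
  have hcp := (h.frobenius p hpS v hv σ hσ).2
  have hdeg : (Pol v).natDegree = Fintype.card n := by
    rw [← hmon.natDegree_map (Int.castRingHom ℚ_[ℓ]), ← hcp, Matrix.charpoly_natDegree_eq_dim]
  have hnw := newton_eq (by omega) hmon hdeg hweil (h.mazur p hpS v hv) hord
  have hroots := roots_eq h hpS hv hσ s
  have hne0 : ∀ z : ℂ, aeval z (Pol v) = 0 → z ≠ 0 := by
    intro z hz h
    have := hweil z hz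
    rw [h, norm_zero] at this
    have h5 : (0 : ℝ) < (p : ℝ) ^ 2 := by positivity
    rw [← this] at h5
    norm_num at h5
  have hinv := Pool.Agent.NH66.HY.Nwt.roots_inv t_ARI hweil c hne0
  set R0 := ((Pol v).map (Int.castRingHom (AlgebraicClosure ℚ))).roots with hR0
  have hmM : (R χ ρ σ⁻¹).charpoly ≠ 0 := (Matrix.charpoly_monic _).ne_zero
  have hroot : ∀ γ, (R χ ρ σ⁻¹).charpoly.IsRoot γ ↔ ∃ a ∈ R0, s (a / p) = γ := by
    intro γ
    rw [← mem_roots hmM, hroots, Multiset.mem_map]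
  have hp0 : (p : AlgebraicClosure ℚ) ≠ 0 := Nat.cast_ne_zero.2 hpf.out.ne_zero
  have hR0a : ∀ a ∈ R0, aeval a (Pol v) = 0 := by
    intro a ha
    have h2 := isRoot_of_mem_roots ha
    rw [IsRoot.def, eval_map] at h2
    rw [aeval_def, Subsingleton.elim (algebraMap ℤ (AlgebraicClosure ℚ)) (Int.castRingHom _)]
    exact h2
  have hari := fun a ha => t_ARI.2 (Pol v) p 2 hmon hweil a (hR0a a ha)
  -- the slopes
  set f : AlgebraicClosure ℚ → ℝ := fun a => -Real.logb p ‖π a‖ with hf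
  have hslopes : R0.map f = 0 ::ₘ 2 ::ₘ Multiset.replicate (Fintype.card n - 2) 1 := by
    rw [← hnw]
    unfold newton
    rw [t_ARI.1 (Pol v) (PadicAlgCl p) π, Multiset.map_map]
    rfl
  obtain ⟨s1, s2, s3⟩ := inj_of_slopes hslopes
  have hnp : ‖(p : PadicAlgCl p)‖ = (p : ℝ)⁻¹ := Pool.Agent.NH66.HY.Nwt.norm_nat p
  -- a root of slope zero
  obtain ⟨a₀, ha₀, hfa₀⟩ : ∃ a ∈ R0, f a = 0 := by
    have h1 : (0 : ℝ) ∈ R0.map f := by
      rw [hslopes]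
      exact Multiset.mem_cons_self _ _
    obtain ⟨a, ha, ha'⟩ := Multiset.mem_map.1 h1
    exact ⟨a, ha, ha'⟩
  -- the inverse
  have hinv0 : (p : AlgebraicClosure ℚ) ^ 2 / a₀ ∈ R0 := by
    rw [← hinv]
    exact Multiset.mem_map_of_mem (fun a => (p : AlgebraicClosure ℚ) ^ 2 / a) ha₀
  have ha₀0 : a₀ ≠ 0 := (hari a₀ ha₀).1
  have hfinv : f ((p : AlgebraicClosure ℚ) ^ 2 / a₀) = 2 - f a₀ := by
    simp only [hf]
    have h2 : ‖π a₀‖ ≠ 0 := norm_ne_zero_iff.2 ((map_ne_zero π).2 ha₀0)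
    rw [map_div₀, norm_div, map_pow, map_natCast, norm_pow, hnp,
      Real.logb_div (by positivity) h2, Real.logb_pow,
      Real.logb_inv, Real.logb_self_eq_one hp1]
    push_cast
    ring
  set β := s (a₀ / p) with hβ'
  have hβinv : s ((p : AlgebraicClosure ℚ) ^ 2 / a₀ / p) = β⁻¹ := by
    rw [hβ', ← map_inv₀]
    congr 1
    field_simp
  let A : PadicAlgCl ℓ → Prop := fun x => ∃ t, t ≠ 0 ∧ s t = x
  let ψ : PadicAlgCl ℓ → ℝ := fun x => if hx : ∃ t, s t = x then Real.logb p ‖π hx.choose‖ else 0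
  have hψ : ∀ t, ψ (s t) = Real.logb p ‖π t‖ := by
    intro t
    have hx : ∃ t', s t' = s t := ⟨t, rfl⟩
    have e : ψ (s t) = Real.logb p ‖π hx.choose‖ := dif_pos hx
    rw [e, s.injective hx.choose_spec]
  have hAψ : AddOn A ψ := by
    refine ⟨⟨1, one_ne_zero, map_one s⟩, ?_, ?_, ?_, ?_⟩
    · rintro _ _ ⟨t, ht, rfl⟩ ⟨u, hu, rfl⟩
      exact ⟨t * u, mul_ne_zero ht hu, map_mul s t u⟩
    · rintro _ ⟨t, ht, rfl⟩
      exact ⟨t⁻¹, inv_ne_zero ht, map_inv₀ s t⟩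
    · rintro _ ⟨t, ht, rfl⟩
      exact (map_ne_zero s).2 ht
    · rintro _ _ ⟨t, ht, rfl⟩ ⟨u, hu, rfl⟩
      rw [← map_mul, hψ, hψ, hψ, map_mul, norm_mul,
        Real.logb_mul (norm_ne_zero_iff.2 ((map_ne_zero π).2 ht))
          (norm_ne_zero_iff.2 ((map_ne_zero π).2 hu))]
  have hψr : ∀ a ∈ R0, ψ (s (a / p)) = 1 - f a := by
    intro a ha
    have h2 : ‖π a‖ ≠ 0 := norm_ne_zero_iff.2 ((map_ne_zero π).2 (hari a ha).1)
    simp only [hf]
    rw [hψ, map_div₀, norm_div, map_natCast, hnp, Real.logb_div h2 (by positivity), Real.logb_inv,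
      Real.logb_self_eq_one hp1]
    ring
  have hψβ : ψ β = 1 := by rw [hβ', hψr a₀ ha₀, hfa₀, sub_zero]
  refine ⟨A, ψ, β, hAψ, ?_, (hroot β).2 ⟨a₀, ha₀, rfl⟩, ?_, hψβ, ?_, fun t ht => ⟨⟨t, ht, rfl⟩, hψ t⟩⟩
  · intro γ hγ
    obtain ⟨a, ha, rfl⟩ := (hroot γ).1 hγ
    exact ⟨a / p, div_ne_zero (hari a ha).1 hp0, rfl⟩
  · intro h1
    have h2 := hAψ.map 1 1 hAψ.one hAψ.one
    rw [mul_one] at h2
    rw [h1] at hψβ
    linarith
  · intro γ hγ h1 h2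
    obtain ⟨a, ha, rfl⟩ := (hroot γ).1 hγ
    rw [hψr a ha]
    by_cases hfa : f a = 1
    · rw [hfa, sub_self]
    · exfalso
      have h3 : f a = f a₀ ∨ f a = 2 - f a₀ := by
        rcases s1 a ha with e1 | e1 | e1
        · left; rw [e1, hfa₀]
        · right; rw [e1, hfa₀]; norm_num
        · exact absurd e1 hfa
      rcases h3 with h3 | h3
      · have h4 := s3 a ha a₀ ha₀ hfa h3
        exact h1 (by rw [h4])
      · have h4 := s3 a ha _ hinv0 hfa (by rw [h3, hfinv])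
        exact h2 (by rw [h4, hβinv])

end

end Pool.Agent.H851.UK
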