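import Mathlib
import Pool.Agent.H851.UK.Rel
import Pool.Agent.H851.UK.Theta
import Pool.Agent.H851.MK.Torus
import Pool.Agent.H851.KD.Crit

/-!
# The operators of slopes of Clifford modules
-/

set_option autoImplicit false
set_option linter.unusedSectionVars false
set_option linter.unusedVariables false

namespace Pool.Agent.H851.UK

open Module TensorProduct Pool.Agent.Y114.RM Pool.Agent.TH118.SG Polynomial Matrix Topology
open NumberField IsDedekindDomain
open Pool.Agent.H851.K3 Pool.Agent.H851.KT Pool.Agent.H851.TT Pool.Agent.H851.ZD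
open Pool.Agent.H851.IN Pool.Agent.H851.KS Pool.Agent.H851.KD
open Pool.Agent.NH56.HY (GK IsFrobenius tw tw_apply R chi_ne Near NonUnip t_ARI t_KRO t_NR1)

section abs

variable {C E A ι : Type} [Field C] [CharZero C] [AddCommGroup A] [Module C A] [AddCommGroup E]
  [Module C E] {B : A →ₗ[C] A →ₗ[C] C} {T : Submodule C A} {P : End C E}
  {F : A →ₗ[C] A →ₗ[C] End C E}

/-- the operator of slopes on a Clifford module -/
theorem cl_core (hs : ∀ x y, B x y = B y x) (h : ClRel B T P F) {N : End C E} {v v' u : A}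
    (hv : v ∈ T) (hv' : v' ∈ T) (hu : u ∈ T) (h0 : B v v = 0) (h0' : B v' v' = 0) (h1 : B v v' = 1)
    (hvu : B v u = 0) (hvu' : B v' u = 0) (huu : B u u ≠ 0)
    (hbr : ∀ x y, N * F x y = F x y * N + (F (wdg B v' v x) y + F x (wdg B v' v y)))
    (G : ι → Submodule C E) (t : ι → C)
    (hspan : (⊤ : Submodule C E) ≤ ⨆ γ, G γ) (hN : ∀ γ, ∀ x ∈ G γ, N x = t γ • x) {e : C}
    (H : ∀ (c : C) (z z' : E), z ≠ 0 → N z = c • z → z' ≠ 0 → N z' = (c - 1) • z' → c = e) :
    N * P = (e - 1) • P + (2 : C)⁻¹ • F v v' ∧ P * N = N * P := by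
  have y1 : wdg B v' v v = v := by
    rw [wdg_apply, hs v' v, h1, h0, one_smul, zero_smul, sub_zero]
  have y2 : wdg B v' v v' = -v' := by
    rw [wdg_apply, h0', h1, zero_smul, one_smul, zero_sub]
  have y3 : wdg B v' v u = 0 := by
    rw [wdg_apply, hvu', hvu, zero_smul, zero_smul, sub_zero]
  have f1 : F v v = 0 := by rw [h.sq hv, h0, zero_smul]
  have f2 : F v' v' = 0 := by rw [h.sq hv', h0', zero_smul]
  have f3 : F u u = B u u • P := h.sq hu
  have hab : F v v' + F v' v = (2 : C) • P := by
    rw [h.pol v hv v' hv', h1, mul_one]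
  have haa : F v v' * F v v' = (2 : C) • F v v' := by
    have h2 := h.mul v hv v' hv' v hv v' hv'
    rwa [f1, zero_mul, add_zero, hs v' v, h1, mul_one] at h2
  have hbb : F v' v * F v' v = (2 : C) • F v' v := by
    have h2 := h.mul v' hv' v hv v' hv' v hv
    rwa [f2, zero_mul, add_zero, h1, mul_one] at h2
  have hcd : F v u * F v' u = -(B u u • F v v') := by
    have h2 := h.mul v hv u hu v' hv' u hu
    rw [f3, hs u v', hvu', mul_zero, zero_smul, mul_smul_comm, h.right] at h2
    exact eq_neg_of_add_eq_zero_left h2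
  have hdc : F v' u * F v u = -(B u u • F v' v) := by
    have h2 := h.mul v' hv' u hu v hv u hu
    rw [f3, hs u v, hvu, mul_zero, zero_smul, mul_smul_comm, h.right] at h2
    exact eq_neg_of_add_eq_zero_left h2
  have hPN : P * N = N * P := by
    have h2 := hbr u u
    rw [y3, map_zero, LinearMap.zero_apply, map_zero, add_zero, add_zero, f3, mul_smul_comm,
      smul_mul_assoc] at h2
    exact (smul_right_injective _ huu h2).symm
  refine ⟨core huu hab haa hbb hcd hdc ?_ ?_ ?_ ?_ G t hspan hN H, hPN⟩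
  · rw [hbr, y1, y2, map_neg, add_neg_cancel, add_zero]
  · rw [hbr, y1, y2, map_neg, LinearMap.neg_apply, neg_add_cancel, add_zero]
  · rw [hbr, y1, y3, map_zero, add_zero]
  · rw [hbr, y2, y3, map_zero, add_zero, map_neg, LinearMap.neg_apply, sub_eq_add_neg]

/-- invertible operators have no eigenvalue zero -/
theorem inj0 {G G' : End C E} (h : G' * G = 1) : ∀ x ∈ G.maxGenEigenspace 0, x = 0 := by
  intro x hx
  rw [Module.End.mem_maxGenEigenspace] at hx
  obtain ⟨k, hk⟩ := hx
  rw [zero_smul, sub_zero] at hk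
  have h1 : ∀ k : ℕ, G' ^ k * G ^ k = 1 := by
    intro k
    induction k with
    | zero => rw [pow_zero, pow_zero, one_mul]
    | succ k ih =>
      calc G' ^ (k + 1) * G ^ (k + 1) = G' ^ k * (G' * G) * G ^ k := by
            rw [pow_succ G', pow_succ' G, mul_assoc, mul_assoc, mul_assoc]
        _ = 1 := by rw [h, mul_one, ih]
  have h2 := LinearMap.congr_fun (h1 k) x
  rw [Module.End.mul_apply, hk, map_zero, Module.End.one_apply] at h2
  exact h2.symm

end abs

section equi

variable {k : Type} [Field k] [CharZero k] {C : Type} [Field C] [CharZero C] [Algebra k C]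
  {V W : Type} [AddCommGroup V] [Module k V] [AddCommGroup W] [Module k W]
  {F : V →ₗ[k] V →ₗ[k] End k W}

theorem fC_equi {S S' : End k W} {R : End k V} (hS : S * S' = 1)
    (h : ∀ x y, S * F x y = F (R x) (R y) * S) (x y : C ⊗[k] V) :
    AdE (S.baseChange C) (S'.baseChange C) (fC C F x y) =
      fC C F (R.baseChange C x) (R.baseChange C y) := by
  have h' : ∀ x y, AdE S S' (F x y) = F (R x) (R y) := by
    intro x y
    rw [AdE_apply, ← mul_assoc, h, mul_assoc, hS, mul_one]
  refine ind2 (k := k) (C := C) (V := V) (P := fun x y =>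
    AdE (S.baseChange C) (S'.baseChange C) (fC C F x y) =
      fC C F (R.baseChange C x) (R.baseChange C y)) ?_ ?_ ?_ ?_ ?_ x y
  · intro y
    rw [map_zero, LinearMap.zero_apply, map_zero, map_zero, map_zero, LinearMap.zero_apply]
  · intro x
    rw [map_zero, map_zero, map_zero, map_zero]
  · intro a x b y
    rw [fC_tmul, LinearMap.baseChange_tmul, LinearMap.baseChange_tmul, fC_tmul, map_smul, ← h',
      AdE_apply, AdE_apply, bc_mul, bc_mul]
  · intro x x' y h1 h2
    rw [map_add, LinearMap.add_apply, map_add, h1, h2, map_add, map_add, LinearMap.add_apply]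
  · intro x y y' h1 h2
    rw [map_add, map_add, h1, h2, map_add, map_add]

end equi

end Pool.Agent.H851.UK
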