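import Mathlib
import Pool.Agent.H851.UK.Frob1

/-!
# Ordinary Frobenius elements and Clifford modules of weight one
-/

set_option autoImplicit false
set_option linter.unusedSectionVars false
set_option linter.unusedVariables false

namespace Pool.Agent.H851.UK

open Module TensorProduct Pool.Agent.Y114.RM Pool.Agent.TH118.SG Polynomial Matrix Topology
open NumberField IsDedekindDomain
open Pool.Agent.H851.K3 Pool.Agent.H851.KT Pool.Agent.H851.TT Pool.Agent.H851.ZD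
open Pool.Agent.H851.IN Pool.Agent.H851.KS Pool.Agent.H851.KD
open Pool.Agent.NH56.HY (GK IsFrobenius tw tw_apply R chi_ne Near NonUnip t_ARI t_KRO t_NR1)

variable {K : Type} [Field K] [NumberField K] {ℓ : ℕ} [hℓ : Fact ℓ.Prime] {n : Type}
    [Fintype n] [DecidableEq n] {q : Matrix n n ℚ_[ℓ]} {S : Finset ℕ} {χ : GK K →* ℚ_[ℓ]}
    {Pol : HeightOneSpectrum (𝓞 K) → ℤ[X]} {ρ : GK K →* Matrix n n ℚ_[ℓ]}
    {a : Fin (finrank ℚ_[ℓ] (orth q (tate χ ρ))) → ℚ_[ℓ]}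
    {U : Matrix n (Fin (finrank ℚ_[ℓ] (orth q (tate χ ρ)))) ℚ_[ℓ]}
    {W' : Matrix (Fin (finrank ℚ_[ℓ] (orth q (tate χ ρ)))) n ℚ_[ℓ]}

/-- the hyperbolic plane of an ordinary Frobenius element, for all embeddings -/
theorem torus_pi (h : IsK3Type q S χ Pol ρ)
    (Fr : Frame q (tateLie χ ρ) (orth q (tate χ ρ)) a U W')
    (hd3 : 3 ≤ finrank ℚ_[ℓ] (orth q (tate χ ρ))) {p : ℕ} [hp : Fact p.Prime] (hpS : p ∉ S)
    {v₀ : HeightOneSpectrum (𝓞 K)} (hv₀ : Ideal.absNorm v₀.asIdeal = p) {g : GK K}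
    (hg : IsFrobenius v₀ g) (hord : ¬ (p : ℤ) ∣ (Pol v₀).coeff (Fintype.card n - 1))
    (hnear : g⁻¹ ∈ Near χ ρ) (s : AlgebraicClosure ℚ →+* PadicAlgCl ℓ)
    (π : AlgebraicClosure ℚ →+* PadicAlgCl p) :
    ∃ (θ : Additive (PadicAlgCl ℓ)ˣ →+ PadicAlgCl ℓ)
      (v v' u : PadicAlgCl ℓ ⊗[ℚ_[ℓ]] (n → ℚ_[ℓ])),
      v ∈ TC (PadicAlgCl ℓ) (orth q (tate χ ρ)) ∧ v' ∈ TC (PadicAlgCl ℓ) (orth q (tate χ ρ)) ∧
      u ∈ TC (PadicAlgCl ℓ) (orth q (tate χ ρ)) ∧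
      bcB (PadicAlgCl ℓ) (form q) v v = 0 ∧ bcB (PadicAlgCl ℓ) (form q) v' v' = 0 ∧
      bcB (PadicAlgCl ℓ) (form q) v v' = 1 ∧ bcB (PadicAlgCl ℓ) (form q) v u = 0 ∧
      bcB (PadicAlgCl ℓ) (form q) v' u = 0 ∧ bcB (PadicAlgCl ℓ) (form q) u u ≠ 0 ∧
      (∀ Y : End (PadicAlgCl ℓ) (PadicAlgCl ℓ ⊗[ℚ_[ℓ]] (n → ℚ_[ℓ])),
        IsOp θ ((rep χ ρ g⁻¹).baseChange (PadicAlgCl ℓ)) Y →
          Y = wdg (bcB (PadicAlgCl ℓ) (form q)) v' v) ∧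
      ∀ t : AlgebraicClosure ℚ, t ≠ 0 → ∀ c : ℚ, Real.logb p ‖π t‖ = c → ext0 θ (s t) = c := by
  obtain ⟨A, φ, β, hA, hAr, hroot, hβ1, hφ1, hφ0, hst⟩ := fro_pi h hpS hv₀ hg hord s π
  have hsep : ∀ β, (R χ ρ g⁻¹).charpoly.IsRoot β → β ≠ 1 → Separated (R χ ρ g⁻¹) β :=
    fun β hβ hβ1 => fro h hpS hv₀ hg hord hnear β hβ hβ1
  obtain ⟨θ, hθ⟩ := exists_theta hA
  obtain ⟨v, v', a1, a2, a3, a4⟩ := Pool.Agent.H851.MK.torus_of h hroot hβ1 hsep hA hAr hφ1 hφ0 hθ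
  obtain ⟨L, hLT, hLie, -, -⟩ := Pool.Agent.Y41.RM.lieL' ℚ_[ℓ] (n → ℚ_[ℓ]) (GK K) (rep χ ρ)
  obtain ⟨Y, hY⟩ := exists_op ((rep χ ρ g⁻¹).baseChange (PadicAlgCl ℓ)) (fun z => ext0 θ z)
  have hYL : Y ∈ bcS (PadicAlgCl ℓ) L :=
    Pool.Agent.R913.Adj.op_mem (ρ := rep χ ρ) (PadicAlgCl ℓ) hLT g⁻¹ θ Y hY
  have hle : L ≤ lieE χ ρ := fun X hX => lieE_of_lt ((hLT X).1 hX)
  have hYL' : Y ∈ bcS (PadicAlgCl ℓ) (lin (tateLie χ ρ)) := bcS_mono hle hYL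
  have hYw := a4 Y hY
  have hs := bcB_symm (C := PadicAlgCl ℓ) (form_symm h.symm)
  have hv : v ∈ TC (PadicAlgCl ℓ) (orth q (tate χ ρ)) := by
    have h1 := TC_range Fr hYL' v
    rwa [hYw, wdg_apply, hs v' v, a3, a1, one_smul, zero_smul, sub_zero] at h1
  have hv' : v' ∈ TC (PadicAlgCl ℓ) (orth q (tate χ ρ)) := by
    have h1 := TC_range Fr hYL' v'
    rw [hYw, wdg_apply, a3, a2, one_smul, zero_smul, zero_sub] at h1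
    have h2 := Submodule.neg_mem _ h1
    rwa [neg_neg] at h2
  obtain ⟨u, u1, u2, u3, u4, u5⟩ := exists_ortho hs (TC (PadicAlgCl ℓ) (orth q (tate χ ρ)))
    (TC_nondeg (form_nondeg h.symm h.nondeg) Fr) hv hv' a1 a2 a3
  have hfr : finrank (PadicAlgCl ℓ) (TC (PadicAlgCl ℓ) (orth q (tate χ ρ))) =
      finrank ℚ_[ℓ] (orth q (tate χ ρ)) := finrank_TC
  let i₀ : Fin (finrank (PadicAlgCl ℓ) (TC (PadicAlgCl ℓ) (orth q (tate χ ρ))) - 2) :=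
    ⟨0, by omega⟩
  exact ⟨θ, v, v', u i₀, hv, hv', u1 i₀, a1, a2, a3, u2 i₀, u3 i₀, u5 i₀, a4, fun t ht c hc =>
    hθ _ (hst t ht).1 c (by rw [(hst t ht).2, hc])⟩

section one

variable {W : Type} [AddCommGroup W] [Module ℚ_[ℓ] W] [FiniteDimensional ℚ_[ℓ] W]
  {σ : Representation ℚ_[ℓ] (GK K) W}

/-- eigenvalues of a Frobenius element of weight one -/
theorem eig_root {p : ℕ} [hp : Fact p.Prime] {g : GK K} {Q : ℤ[X]} {j : ℤ} (hQ : Q.Monic)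
    (hQ0 : aeval ((p : ℚ_[ℓ]) ^ j • σ g⁻¹) Q = 0) (s : AlgebraicClosure ℚ →+* PadicAlgCl ℓ)
    {γ : PadicAlgCl ℓ}
    (hγ : Module.End.maxGenEigenspace ((σ g⁻¹).baseChange (PadicAlgCl ℓ)) γ ≠ ⊥) :
    ∃ x : AlgebraicClosure ℚ, aeval x Q = 0 ∧ γ = s ((p : AlgebraicClosure ℚ) ^ (-j) * x) := by
  have h3 := aeval_bc (C := PadicAlgCl ℓ) (σ g⁻¹) ((p : ℚ_[ℓ]) ^ j) hQ0
  rw [map_zpow₀, map_natCast] at h3
  have hγ' := root_of_gen h3 hγ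
  have hQ0' : Q.map (Int.castRingHom (PadicAlgCl ℓ)) ≠ 0 := (hQ.map _).ne_zero
  have h1 : (p : PadicAlgCl ℓ) ^ j * γ ∈ (Q.map (Int.castRingHom (PadicAlgCl ℓ))).roots := by
    rw [mem_roots hQ0', IsRoot.def, eval_map, ← algebraMap_int_eq]
    exact hγ'
  rw [t_ARI.1 Q (PadicAlgCl ℓ) s, Multiset.mem_map] at h1
  obtain ⟨x, hx, hsx⟩ := h1
  have hpl : (p : PadicAlgCl ℓ) ≠ 0 := Nat.cast_ne_zero.2 hp.out.ne_zero
  refine ⟨x, ?_, ?_⟩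
  · have h2 := isRoot_of_mem_roots hx
    rw [IsRoot.def, eval_map] at h2
    rw [aeval_def, Subsingleton.elim (algebraMap ℤ (AlgebraicClosure ℚ)) (Int.castRingHom _)]
    exact h2
  · rw [map_mul, map_zpow₀, map_natCast, hsx, ← mul_assoc, ← zpow_add₀ hpl, neg_add_cancel,
      zpow_zero, one_mul]

/-- the slope of an eigenvalue -/
theorem slope_eq {p : ℕ} [hp : Fact p.Prime] (π : AlgebraicClosure ℚ →+* PadicAlgCl p) (j : ℤ)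
    {x : AlgebraicClosure ℚ} (hx : x ≠ 0) :
    Real.logb p ‖π ((p : AlgebraicClosure ℚ) ^ (-j) * x)‖ = j + Real.logb p ‖π x‖ := by
  have hp1 : (1 : ℝ) < p := by exact_mod_cast hp.out.one_lt
  have hnp : ‖(p : PadicAlgCl p)‖ = (p : ℝ)⁻¹ := Pool.Agent.NH66.HY.Nwt.norm_nat p
  rw [map_mul, norm_mul, map_zpow₀, map_natCast, norm_zpow, hnp,
    Real.logb_mul (by positivity) (norm_ne_zero_iff.2 ((map_ne_zero π).2 hx)), _root_.inv_zpow,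
    ← _root_.zpow_neg, neg_neg, ← Real.rpow_intCast, Real.logb_rpow (by linarith) hp1.ne']

/-- the operator of slopes of a Clifford module of weight one -/
theorem op_formula (h : IsK3Type q S χ Pol ρ) {P : End ℚ_[ℓ] W}
    {β : (n → ℚ_[ℓ]) →ₗ[ℚ_[ℓ]] (n → ℚ_[ℓ]) →ₗ[ℚ_[ℓ]] End ℚ_[ℓ] W}
    (hcl : ClRel (form q) (orth q (tate χ ρ)) P β) {p : ℕ} [hp : Fact p.Prime] {g : GK K}
    (heq : ∀ x y, σ g⁻¹ * β x y = β (rep χ ρ g⁻¹ x) (rep χ ρ g⁻¹ y) * σ g⁻¹) {Q : ℤ[X]} {j : ℤ}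
    (hQ : Q.Monic) (hQW : ∀ z : ℂ, aeval z Q = 0 → ‖z‖ ^ 2 = p)
    (hQ0 : aeval ((p : ℚ_[ℓ]) ^ j • σ g⁻¹) Q = 0) (s : AlgebraicClosure ℚ →+* PadicAlgCl ℓ)
    (π : AlgebraicClosure ℚ →+* PadicAlgCl p) {θ : Additive (PadicAlgCl ℓ)ˣ →+ PadicAlgCl ℓ}
    {v v' u : PadicAlgCl ℓ ⊗[ℚ_[ℓ]] (n → ℚ_[ℓ])}
    (hv : v ∈ TC (PadicAlgCl ℓ) (orth q (tate χ ρ))) (hv' : v' ∈ TC (PadicAlgCl ℓ) (orth q (tate χ ρ)))
    (hu : u ∈ TC (PadicAlgCl ℓ) (orth q (tate χ ρ)))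
    (h0 : bcB (PadicAlgCl ℓ) (form q) v v = 0) (h0' : bcB (PadicAlgCl ℓ) (form q) v' v' = 0)
    (h1 : bcB (PadicAlgCl ℓ) (form q) v v' = 1) (hvu : bcB (PadicAlgCl ℓ) (form q) v u = 0)
    (hvu' : bcB (PadicAlgCl ℓ) (form q) v' u = 0) (huu : bcB (PadicAlgCl ℓ) (form q) u u ≠ 0)
    (hY : ∀ Y : End (PadicAlgCl ℓ) (PadicAlgCl ℓ ⊗[ℚ_[ℓ]] (n → ℚ_[ℓ])),
        IsOp θ ((rep χ ρ g⁻¹).baseChange (PadicAlgCl ℓ)) Y →
          Y = wdg (bcB (PadicAlgCl ℓ) (form q)) v' v)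
    (hθ : ∀ t : AlgebraicClosure ℚ, t ≠ 0 → ∀ c : ℚ, Real.logb p ‖π t‖ = c → ext0 θ (s t) = c)
    {N : End (PadicAlgCl ℓ) (PadicAlgCl ℓ ⊗[ℚ_[ℓ]] W)}
    (hN : IsOp θ ((σ g⁻¹).baseChange (PadicAlgCl ℓ)) N) :
    N * P.baseChange (PadicAlgCl ℓ) = ((j : PadicAlgCl ℓ) - 1) • P.baseChange (PadicAlgCl ℓ) +
      (2⁻¹ : PadicAlgCl ℓ) • fC (PadicAlgCl ℓ) β v v' ∧
      P.baseChange (PadicAlgCl ℓ) * N = N * P.baseChange (PadicAlgCl ℓ) := by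
  have hs := bcB_symm (C := PadicAlgCl ℓ) (form_symm h.symm)
  have e1 : σ g * σ g⁻¹ = 1 := by rw [← map_mul, mul_inv_cancel, map_one]
  have e2 : σ g⁻¹ * σ g = 1 := by rw [← map_mul, inv_mul_cancel, map_one]
  have e3 : rep χ ρ g * rep χ ρ g⁻¹ = 1 := by rw [← map_mul, mul_inv_cancel, map_one]
  have b1 : (σ g).baseChange (PadicAlgCl ℓ) * (σ g⁻¹).baseChange (PadicAlgCl ℓ) = 1 := by
    rw [← bc_mul, e1]
    exact LinearMap.baseChange_id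
  have b2 : (σ g⁻¹).baseChange (PadicAlgCl ℓ) * (σ g).baseChange (PadicAlgCl ℓ) = 1 := by
    rw [← bc_mul, e2]
    exact LinearMap.baseChange_id
  have b3 : (rep χ ρ g).baseChange (PadicAlgCl ℓ) * (rep χ ρ g⁻¹).baseChange (PadicAlgCl ℓ) = 1 := by
    rw [← bc_mul, e3]
    exact LinearMap.baseChange_id
  obtain ⟨Y, hYo⟩ := exists_op ((rep χ ρ g⁻¹).baseChange (PadicAlgCl ℓ)) (fun z => ext0 θ z)
  have hYw := hY Y hYo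
  have hYo' : IsOp θ ((rep χ ρ g⁻¹).baseChange (PadicAlgCl ℓ))
      (wdg (bcB (PadicAlgCl ℓ) (form q)) v' v) := by
    rw [← hYw]
    exact hYo
  have hbr : ∀ x y, N * fC (PadicAlgCl ℓ) β x y = fC (PadicAlgCl ℓ) β x y * N +
      (fC (PadicAlgCl ℓ) β (wdg (bcB (PadicAlgCl ℓ) (form q)) v' v x) y +
        fC (PadicAlgCl ℓ) β x (wdg (bcB (PadicAlgCl ℓ) (form q)) v' v y)) := by
    intro x y
    have h2 := op_bil (fC (PadicAlgCl ℓ) β) (fC_equi e2 heq) hYo' hYo'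
      (Pool.Agent.Y960.RM.ad (PadicAlgCl ℓ) _ θ _ _ N b2 b1 hN) (inj0 b3) (inj0 b3) x y
    rw [adE_apply] at h2
    rw [← h2]
    abel
  have hj : ∀ {c : PadicAlgCl ℓ} {z : PadicAlgCl ℓ ⊗[ℚ_[ℓ]] W}, z ≠ 0 → N z = c • z →
      ∃ w : ℚ, c = w ∧ (j : ℝ) - 1 ≤ w ∧ (w : ℝ) ≤ j := by
    intro c z hz hNz
    obtain ⟨γ, hγ, hc⟩ := eig_of (t := fun z => ext0 θ z) hN hNz hz
    obtain ⟨x, hx, hγx⟩ := eig_root hQ hQ0 s hγ
    obtain ⟨hx0, hx1, hx2⟩ := slope_one hQ hQW π hx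
    have hp0 : (p : AlgebraicClosure ℚ) ≠ 0 := Nat.cast_ne_zero.2 hp.out.ne_zero
    have hne : (p : AlgebraicClosure ℚ) ^ (-j) * x ≠ 0 := mul_ne_zero (zpow_ne_zero _ hp0) hx0
    obtain ⟨w, hw⟩ := logb_rat p (π ((p : AlgebraicClosure ℚ) ^ (-j) * x)) ((map_ne_zero π).2 hne)
    have h2 := hθ _ hne w hw
    rw [← hγx] at h2
    refine ⟨w, ?_, ?_, ?_⟩
    · rw [← hc]
      exact h2
    · rw [← hw, slope_eq π j hx0]
      linarith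
    · rw [← hw, slope_eq π j hx0]
      linarith
  refine cl_core hs hcl.bc hv hv' hu h0 h0' h1 hvu hvu' huu hbr
    (fun γ => Module.End.maxGenEigenspace ((σ g⁻¹).baseChange (PadicAlgCl ℓ)) γ)
    (fun γ => ext0 θ γ) ?_ hN ?_
  · rw [Module.End.iSup_maxGenEigenspace_eq_top]
  · intro c z z' hz hNz hz' hNz'
    obtain ⟨w, hw, hw1, hw2⟩ := hj hz hNz
    obtain ⟨w', hw', hw1', hw2'⟩ := hj hz' hNz'
    have h2 : w' = w - 1 := by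
      rw [hw] at hw'
      have h3 : ((w - 1 : ℚ) : PadicAlgCl ℓ) = (w' : PadicAlgCl ℓ) := by
        push_cast
        exact hw'
      exact_mod_cast h3.symm
    have h3 : (w : ℝ) = j := by
      rw [h2] at hw1'
      push_cast at hw1'
      linarith
    have h4 : w = j := by exact_mod_cast h3
    rw [hw, h4]
    exact Rat.cast_intCast j

end one

end Pool.Agent.H851.UK
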