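import Mathlib
import Pool.Agent.H851.UK.Frob2

/-!
# Intertwiners of Clifford modules and ordinary Frobenius elements
-/

set_option autoImplicit false
set_option linter.unusedSectionVars false
set_option linter.unusedVariables false

namespace Pool.Agent.H851.UK

open Module TensorProduct Pool.Agent.Y114.RM Pool.Agent.TH118.SG Polynomial Matrix Topology
open NumberField IsDedekindDomain
open Pool.Agent.H851.K3 Pool.Agent.H851.KT Pool.Agent.H851.TT Pool.Agent.H851.ZD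
open Pool.Agent.H851.IN Pool.Agent.H851.KS Pool.Agent.H851.KD
open Pool.Agent.NH56.HY (GK IsFrobenius tw tw_apply R chi_ne Near NonUnip t_ARI t_KRO t_NR1)

section abs

variable {C A E₁ E₂ : Type} [Field C] [AddCommGroup A] [Module C A] [AddCommGroup E₁]
  [Module C E₁] [AddCommGroup E₂] [Module C E₂]

/-- intertwiners of Clifford modules -/
def Cm (T : Submodule C A) (P₁ : End C E₁) (P₂ : End C E₂) (F₁ : A →ₗ[C] A →ₗ[C] End C E₁)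
    (F₂ : A →ₗ[C] A →ₗ[C] End C E₂) : Submodule C (E₁ →ₗ[C] E₂) where
  carrier := {L | P₂ ∘ₗ L = L ∧ L ∘ₗ P₁ = L ∧ ∀ x ∈ T, ∀ y ∈ T, F₂ x y ∘ₗ L = L ∘ₗ F₁ x y}
  zero_mem' := ⟨LinearMap.comp_zero _, LinearMap.zero_comp _, fun x _ y _ => by
    rw [LinearMap.comp_zero, LinearMap.zero_comp]⟩
  add_mem' := fun {a b} ha hb => ⟨by rw [LinearMap.comp_add, ha.1, hb.1], by
    rw [LinearMap.add_comp, ha.2.1, hb.2.1], fun x hx y hy => by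
    rw [LinearMap.comp_add, LinearMap.add_comp, ha.2.2 x hx y hy, hb.2.2 x hx y hy]⟩
  smul_mem' := fun c a ha => ⟨by rw [LinearMap.comp_smul, ha.1], by
    rw [LinearMap.smul_comp, ha.2.1], fun x hx y hy => by
    rw [LinearMap.comp_smul, LinearMap.smul_comp, ha.2.2 x hx y hy]⟩

/-- conjugation -/
def cj (S₂ : End C E₂) (S₁ : End C E₁) : End C (E₁ →ₗ[C] E₂) where
  toFun L := S₂ ∘ₗ L ∘ₗ S₁
  map_add' a b := by rw [LinearMap.add_comp, LinearMap.comp_add]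
  map_smul' c a := by rw [LinearMap.smul_comp, LinearMap.comp_smul, RingHom.id_apply]

theorem cj_apply (S₂ : End C E₂) (S₁ : End C E₁) (L : E₁ →ₗ[C] E₂) :
    cj S₂ S₁ L = S₂ ∘ₗ L ∘ₗ S₁ := rfl

/-- intertwiners commute with the operators of slopes -/
theorem cm_comm {T : Submodule C A} {P₁ : End C E₁} {P₂ : End C E₂}
    {F₁ : A →ₗ[C] A →ₗ[C] End C E₁} {F₂ : A →ₗ[C] A →ₗ[C] End C E₂} {L : E₁ →ₗ[C] E₂}
    (hL : L ∈ Cm T P₁ P₂ F₁ F₂) {N₁ : End C E₁} {N₂ : End C E₂} {e f : C} {v v' : A} (hv : v ∈ T)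
    (hv' : v' ∈ T) (h₁ : N₁ * P₁ = e • P₁ + f • F₁ v v') (h₁' : P₁ * N₁ = N₁ * P₁)
    (h₂ : N₂ * P₂ = e • P₂ + f • F₂ v v') : N₂ ∘ₗ L = L ∘ₗ N₁ := by
  obtain ⟨g1, g2, g3⟩ := hL
  have e1 : N₂ ∘ₗ L = e • L + f • (F₂ v v' ∘ₗ L) := by
    calc N₂ ∘ₗ L = (N₂ * P₂) ∘ₗ L := by
          rw [Module.End.mul_eq_comp, LinearMap.comp_assoc, g1]
      _ = _ := by rw [h₂, LinearMap.add_comp, LinearMap.smul_comp, LinearMap.smul_comp, g1]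
  have e2 : L ∘ₗ N₁ = e • L + f • (L ∘ₗ F₁ v v') := by
    calc L ∘ₗ N₁ = L ∘ₗ (P₁ * N₁) := by
          rw [Module.End.mul_eq_comp, ← LinearMap.comp_assoc, g2]
      _ = _ := by rw [h₁', h₁, LinearMap.comp_add, LinearMap.comp_smul, LinearMap.comp_smul, g2]
  rw [e1, e2, g3 v hv v' hv']

theorem gen_smul {T : End C E₁} {c γ : C} {x : E₁} (hx : x ∈ T.maxGenEigenspace γ) :
    x ∈ (c • T).maxGenEigenspace (c * γ) := by
  rw [Module.End.mem_maxGenEigenspace] at hx ⊢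
  obtain ⟨k, hk⟩ := hx
  refine ⟨k, ?_⟩
  have h1 : c • T - (c * γ) • (1 : End C E₁) = c • (T - γ • (1 : End C E₁)) := by
    rw [smul_sub, smul_smul]
  rw [h1, _root_.smul_pow, LinearMap.smul_apply, hk, smul_zero]

/-- eigenvectors of conjugation map generalized eigenspaces to generalized eigenspaces -/
theorem cj_gen {S₂ : End C E₂} {S₁ S₁' : End C E₁} (h : S₁' * S₁ = 1) {c : C} {L : E₁ →ₗ[C] E₂}
    (hL : cj S₂ S₁' L = c • L) {γ : C} {x : E₁} (hx : x ∈ S₁.maxGenEigenspace γ) :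
    L x ∈ S₂.maxGenEigenspace (c * γ) := by
  refine gen_map (T := c • S₁) (T' := S₂) (i := L) (fun x => ?_) (gen_smul hx)
  have h1 := LinearMap.congr_fun hL (S₁ x)
  rw [cj_apply, LinearMap.comp_apply, LinearMap.comp_apply, ← Module.End.mul_apply, h,
    Module.End.one_apply] at h1
  rw [h1, LinearMap.smul_apply, LinearMap.smul_apply, map_smul]

/-- operators all whose eigenvalues are one -/
theorem unip_of_eig [IsAlgClosed C] [FiniteDimensional C E₁] {T : End C E₁} (W : Submodule C E₁)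
    (hW : ∀ x ∈ W, T x ∈ W) (h : ∀ c : C, ∀ x ∈ W, x ≠ 0 → T x = c • x → c = 1) :
    ∀ x ∈ W, ((T - 1) ^ (finrank C W)) x = 0 := by
  let T' : End C W := T.restrict hW
  have h1 : ∀ c, c ≠ 1 → T'.maxGenEigenspace c = ⊥ := by
    intro c hc
    by_contra hne
    have h2 : T'.HasEigenvalue c := by
      have h3 : T'.HasUnifEigenvalue c ⊤ := hne
      exact h3.lt zero_lt_one
    obtain ⟨z, hz⟩ := h2.exists_hasEigenvector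
    refine hc (h c z.1 z.2 (fun h0 => hz.2 (Subtype.ext h0)) ?_)
    have h3 := hz.apply_eq_smul
    exact congrArg Subtype.val h3
  have h2 : T'.maxGenEigenspace 1 = ⊤ := by
    rw [eq_top_iff, ← Module.End.iSup_maxGenEigenspace_eq_top T']
    refine iSup_le fun c => ?_
    by_cases hc : c = 1
    · rw [hc]
    · rw [h1 c hc]
      exact bot_le
  intro x hx
  have h3 : (⟨x, hx⟩ : W) ∈ T'.maxGenEigenspace 1 := by rw [h2]; trivial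
  rw [Module.End.maxGenEigenspace_eq_genEigenspace_finrank, Module.End.mem_genEigenspace_nat,
    LinearMap.mem_ker, one_smul] at h3
  have h4 : ∀ (k : ℕ) (y : W), ((((T' - 1) ^ k) y : W) : E₁) = ((T - 1) ^ k) y := by
    intro k
    induction k with
    | zero => intro y; rfl
    | succ k ih =>
      intro y
      rw [pow_succ, Module.End.mul_apply, ih, pow_succ, Module.End.mul_apply]
      rfl
  have h5 := congrArg Subtype.val h3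
  rw [h4] at h5
  exact h5

end abs

section frob

variable {K : Type} [Field K] [NumberField K] {ℓ : ℕ} [hℓ : Fact ℓ.Prime] {n : Type}
    [Fintype n] [DecidableEq n] {q : Matrix n n ℚ_[ℓ]} {S : Finset ℕ} {χ : GK K →* ℚ_[ℓ]}
    {Pol : HeightOneSpectrum (𝓞 K) → ℤ[X]} {ρ : GK K →* Matrix n n ℚ_[ℓ]}
    {a : Fin (finrank ℚ_[ℓ] (orth q (tate χ ρ))) → ℚ_[ℓ]}
    {U : Matrix n (Fin (finrank ℚ_[ℓ] (orth q (tate χ ρ)))) ℚ_[ℓ]}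
    {W' : Matrix (Fin (finrank ℚ_[ℓ] (orth q (tate χ ρ)))) n ℚ_[ℓ]}
    {W₁ W₂ : Type} [AddCommGroup W₁] [Module ℚ_[ℓ] W₁] [FiniteDimensional ℚ_[ℓ] W₁]
    [AddCommGroup W₂] [Module ℚ_[ℓ] W₂] [FiniteDimensional ℚ_[ℓ] W₂]
    {σ₁ : Representation ℚ_[ℓ] (GK K) W₁} {σ₂ : Representation ℚ_[ℓ] (GK K) W₂}

/-- **The eigenvalues of an ordinary Frobenius element on intertwiners of Clifford modules.** -/
theorem lam_one (h : IsK3Type q S χ Pol ρ)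
    (Fr : Frame q (tateLie χ ρ) (orth q (tate χ ρ)) a U W')
    (hd3 : 3 ≤ finrank ℚ_[ℓ] (orth q (tate χ ρ))) {p : ℕ} [hp : Fact p.Prime] (hpS : p ∉ S)
    {v₀ : HeightOneSpectrum (𝓞 K)} (hv₀ : Ideal.absNorm v₀.asIdeal = p) {g : GK K}
    (hg : IsFrobenius v₀ g) (hord : ¬ (p : ℤ) ∣ (Pol v₀).coeff (Fintype.card n - 1))
    (hnear : g⁻¹ ∈ Near χ ρ) {P₁ : End ℚ_[ℓ] W₁} {P₂ : End ℚ_[ℓ] W₂}
    {β₁ : (n → ℚ_[ℓ]) →ₗ[ℚ_[ℓ]] (n → ℚ_[ℓ]) →ₗ[ℚ_[ℓ]] End ℚ_[ℓ] W₁}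
    {β₂ : (n → ℚ_[ℓ]) →ₗ[ℚ_[ℓ]] (n → ℚ_[ℓ]) →ₗ[ℚ_[ℓ]] End ℚ_[ℓ] W₂}
    (hcl₁ : ClRel (form q) (orth q (tate χ ρ)) P₁ β₁)
    (hcl₂ : ClRel (form q) (orth q (tate χ ρ)) P₂ β₂)
    (heq₁ : ∀ x y, σ₁ g⁻¹ * β₁ x y = β₁ (rep χ ρ g⁻¹ x) (rep χ ρ g⁻¹ y) * σ₁ g⁻¹)
    (heq₂ : ∀ x y, σ₂ g⁻¹ * β₂ x y = β₂ (rep χ ρ g⁻¹ x) (rep χ ρ g⁻¹ y) * σ₂ g⁻¹)
    {Q₁ Q₂ : ℤ[X]} {j : ℤ} (hQ₁ : Q₁.Monic) (hQW₁ : ∀ z : ℂ, aeval z Q₁ = 0 → ‖z‖ ^ 2 = p)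
    (hQ0₁ : aeval ((p : ℚ_[ℓ]) ^ j • σ₁ g⁻¹) Q₁ = 0)
    (hQ₂ : Q₂.Monic) (hQW₂ : ∀ z : ℂ, aeval z Q₂ = 0 → ‖z‖ ^ 2 = p)
    (hQ0₂ : aeval ((p : ℚ_[ℓ]) ^ j • σ₂ g⁻¹) Q₂ = 0)
    (hn₁ : ∀ γ, Module.End.maxGenEigenspace ((σ₁ g⁻¹).baseChange (PadicAlgCl ℓ)) γ ≠ ⊥ →
      ‖γ - 1‖ ≤ ((ℓ : ℝ) ^ 2)⁻¹)
    (hn₂ : ∀ γ, Module.End.maxGenEigenspace ((σ₂ g⁻¹).baseChange (PadicAlgCl ℓ)) γ ≠ ⊥ →
      ‖γ - 1‖ ≤ ((ℓ : ℝ) ^ 2)⁻¹)
    {L : (PadicAlgCl ℓ ⊗[ℚ_[ℓ]] W₁) →ₗ[PadicAlgCl ℓ] (PadicAlgCl ℓ ⊗[ℚ_[ℓ]] W₂)}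
    (hL : L ∈ Cm (TC (PadicAlgCl ℓ) (orth q (tate χ ρ))) (P₁.baseChange (PadicAlgCl ℓ))
      (P₂.baseChange (PadicAlgCl ℓ)) (fC (PadicAlgCl ℓ) β₁) (fC (PadicAlgCl ℓ) β₂))
    (hL0 : L ≠ 0) {c : PadicAlgCl ℓ}
    (hc : cj ((σ₂ g⁻¹).baseChange (PadicAlgCl ℓ)) ((σ₁ g).baseChange (PadicAlgCl ℓ)) L = c • L) :
    c = 1 := by
  obtain ⟨s⟩ := Pool.Agent.NH66.HY.Nwt.exists_hom ℚ (PadicAlgCl ℓ)
  have b1 : (σ₁ g).baseChange (PadicAlgCl ℓ) * (σ₁ g⁻¹).baseChange (PadicAlgCl ℓ) = 1 := by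
    rw [← bc_mul, ← map_mul, mul_inv_cancel, map_one]
    exact LinearMap.baseChange_id
  -- a vector which is not killed
  obtain ⟨γ, x, hx, hLx⟩ : ∃ γ, ∃ x ∈ Module.End.maxGenEigenspace
      ((σ₁ g⁻¹).baseChange (PadicAlgCl ℓ)) γ, L x ≠ 0 := by
    by_contra hcon'
    push Not at hcon'
    apply hL0
    have h3 : (⊤ : Submodule (PadicAlgCl ℓ) (PadicAlgCl ℓ ⊗[ℚ_[ℓ]] W₁)) ≤ LinearMap.ker L := by
      rw [← Module.End.iSup_maxGenEigenspace_eq_top ((σ₁ g⁻¹).baseChange (PadicAlgCl ℓ))]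
      exact iSup_le fun γ u hu => hcon' γ u hu
    exact LinearMap.ext fun u => h3 trivial
  have hx2 := cj_gen b1 hc hx
  have hγ₁ : Module.End.maxGenEigenspace ((σ₁ g⁻¹).baseChange (PadicAlgCl ℓ)) γ ≠ ⊥ := by
    intro h3
    rw [h3, Submodule.mem_bot] at hx
    rw [hx, map_zero] at hLx
    exact hLx rfl
  have hγ₂ : Module.End.maxGenEigenspace ((σ₂ g⁻¹).baseChange (PadicAlgCl ℓ)) (c * γ) ≠ ⊥ := by
    intro h3
    rw [h3, Submodule.mem_bot] at hx2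
    exact hLx hx2
  obtain ⟨y, hy, hγy⟩ := eig_root hQ₁ hQ0₁ s hγ₁
  obtain ⟨y', hy', hγy'⟩ := eig_root hQ₂ hQ0₂ s hγ₂
  obtain ⟨y0, yc, yp⟩ := t_ARI.2 Q₁ p 1 hQ₁ (fun z hz => by rw [hQW₁ z hz, pow_one]) y hy
  obtain ⟨y0', yc', yp'⟩ := t_ARI.2 Q₂ p 1 hQ₂ (fun z hz => by rw [hQW₂ z hz, pow_one]) y' hy'
  have hp0 : (p : AlgebraicClosure ℚ) ≠ 0 := Nat.cast_ne_zero.2 hp.out.ne_zero
  have hp1 : (1 : ℝ) < p := by exact_mod_cast hp.out.one_lt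
  have hne : (p : AlgebraicClosure ℚ) ^ (-j) * y ≠ 0 := mul_ne_zero (zpow_ne_zero _ hp0) y0
  have hne' : (p : AlgebraicClosure ℚ) ^ (-j) * y' ≠ 0 := mul_ne_zero (zpow_ne_zero _ hp0) y0'
  have hγ0 : γ ≠ 0 := by
    rw [hγy]
    exact (map_ne_zero s).2 hne
  have hcs : c = s (y' / y) := by
    have h1 : c = (c * γ) / γ := by field_simp
    rw [h1, hγy', hγy, ← map_div₀]
    congr 1
    field_simp
  -- the absolute values at `p`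
  have key : ∀ π : AlgebraicClosure ℚ →+* PadicAlgCl p, ‖π y'‖ = ‖π y‖ := by
    intro π
    obtain ⟨θ, v, v', u, hv, hv', hu, a1, a2, a3, a4, a5, a6, hY, hθ⟩ :=
      torus_pi h Fr hd3 hpS hv₀ hg hord hnear s π
    obtain ⟨N₁, hN₁⟩ := exists_op ((σ₁ g⁻¹).baseChange (PadicAlgCl ℓ)) (fun z => ext0 θ z)
    obtain ⟨N₂, hN₂⟩ := exists_op ((σ₂ g⁻¹).baseChange (PadicAlgCl ℓ)) (fun z => ext0 θ z)
    obtain ⟨f1, f1'⟩ := op_formula h hcl₁ heq₁ hQ₁ hQW₁ hQ0₁ s π hv hv' hu a1 a2 a3 a4 a5 a6 hY hθ hN₁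
    obtain ⟨f2, f2'⟩ := op_formula h hcl₂ heq₂ hQ₂ hQW₂ hQ0₂ s π hv hv' hu a1 a2 a3 a4 a5 a6 hY hθ hN₂
    have h1 := LinearMap.congr_fun (cm_comm hL hv hv' f1 f1' f2) x
    rw [LinearMap.comp_apply, LinearMap.comp_apply, hN₂ _ _ hx2, hN₁ _ _ hx, map_smul] at h1
    have h2 : ext0 θ (c * γ) = ext0 θ γ := smul_left_injective _ hLx h1
    obtain ⟨w, hw⟩ := logb_rat p (π ((p : AlgebraicClosure ℚ) ^ (-j) * y)) ((map_ne_zero π).2 hne)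
    obtain ⟨w', hw'⟩ := logb_rat p (π ((p : AlgebraicClosure ℚ) ^ (-j) * y'))
      ((map_ne_zero π).2 hne')
    rw [hγy', hγy, hθ _ hne w hw, hθ _ hne' w' hw'] at h2
    have h3 : w' = w := by exact_mod_cast h2
    rw [slope_eq π j y0] at hw
    rw [slope_eq π j y0', h3, ← hw] at hw'
    have h4 : Real.logb p ‖π y'‖ = Real.logb p ‖π y‖ := by linarith
    have h5 : 0 < ‖π y'‖ := norm_pos_iff.2 ((map_ne_zero π).2 y0')
    have h6 : 0 < ‖π y‖ := norm_pos_iff.2 ((map_ne_zero π).2 y0)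
    exact Real.logb_injOn_pos hp1 h5 h6 h4
  obtain ⟨k, hk0, hk⟩ : ∃ k : ℕ, 0 < k ∧ (y' / y) ^ k = 1 := by
    refine t_KRO (y' / y) (fun τ => ?_) (fun p' hp' π => ?_)
    · have h1 : ‖τ (y' / y)‖ ^ 2 = 1 := by
        rw [map_div₀, norm_div, div_pow, yc τ, yc' τ]
        exact div_self (by positivity)
      exact (pow_eq_one_iff_of_nonneg (norm_nonneg _) two_ne_zero).1 h1
    · by_cases hpe : p' = p
      · subst hpe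
        rw [map_div₀, norm_div, key π]
        exact div_self (norm_ne_zero_iff.2 ((map_ne_zero π).2 y0))
      · rw [map_div₀, norm_div, yp p' π hpe, yp' p' π hpe, div_one]
  have hnr : ‖c - 1‖ ≤ ((ℓ : ℝ) ^ 2)⁻¹ := by
    have h1 := ((t_NR1 ℓ).2.1 γ γ (hn₁ γ hγ₁) (hn₁ γ hγ₁)).2
    have h2 := ((t_NR1 ℓ).2.1 (c * γ) γ⁻¹ (hn₂ _ hγ₂) h1).1
    rwa [mul_assoc, mul_inv_cancel₀ hγ0, mul_one] at h2
  refine (t_NR1 ℓ).1 c hnr k hk0 ?_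
  rw [hcs, ← map_pow, hk, map_one]

end frob

end Pool.Agent.H851.UK
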