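import Mathlib
import Pool.Agent.H851.UK.Frob3

/-!
# Unipotent action on the intertwiners of Clifford modules
-/

set_option autoImplicit false
set_option linter.unusedSectionVars false
set_option linter.unusedVariables false

namespace Pool.Agent.H851.UK

open Module TensorProduct Pool.Agent.Y114.RM Pool.Agent.TH118.SG Polynomial Matrix Topology
open NumberField IsDedekindDomain
open Pool.Agent.H851.K3 Pool.Agent.H851.KT Pool.Agent.H851.TT Pool.Agent.H851.ZD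
open Pool.Agent.H851.IN Pool.Agent.H851.KS Pool.Agent.H851.KD
open Pool.Agent.NH56.HY (GK IsFrobenius tw tw_apply R R_near chi_ne Near NonUnip t_ARI t_KRO t_NR1
  t_ORD t_DG1)

section abs

variable {C A E₁ E₂ : Type} [Field C] [AddCommGroup A] [Module C A] [AddCommGroup E₁]
  [Module C E₁] [AddCommGroup E₂] [Module C E₂] {T : Submodule C A} {P₁ : End C E₁}
  {P₂ : End C E₂} {F₁ : A →ₗ[C] A →ₗ[C] End C E₁} {F₂ : A →ₗ[C] A →ₗ[C] End C E₂}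

/-- conjugation preserves the space of the intertwiners -/
theorem cj_mem {R R' : End C A} {S₂ : End C E₂} {S₁ : End C E₁} (hRR : ∀ x, R (R' x) = x)
    (hT : ∀ x ∈ T, R' x ∈ T) (h₂ : ∀ x y, S₂ * F₂ x y = F₂ (R x) (R y) * S₂)
    (h₁ : ∀ x y, S₁ * F₁ x y = F₁ (R' x) (R' y) * S₁) (c₂ : S₂ * P₂ = P₂ * S₂)
    (c₁ : S₁ * P₁ = P₁ * S₁) {L : E₁ →ₗ[C] E₂} (hL : L ∈ Cm T P₁ P₂ F₁ F₂) :
    cj S₂ S₁ L ∈ Cm T P₁ P₂ F₁ F₂ := by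
  obtain ⟨g1, g2, g3⟩ := hL
  have h1 : ∀ x, P₂ (L x) = L x := fun x => LinearMap.congr_fun g1 x
  have h2 : ∀ x, L (P₁ x) = L x := fun x => LinearMap.congr_fun g2 x
  have d₂ : ∀ x, S₂ (P₂ x) = P₂ (S₂ x) := fun x => LinearMap.congr_fun c₂ x
  have d₁ : ∀ x, S₁ (P₁ x) = P₁ (S₁ x) := fun x => LinearMap.congr_fun c₁ x
  refine ⟨LinearMap.ext fun x => ?_, LinearMap.ext fun x => ?_, fun x hx y hy =>
    LinearMap.ext fun z => ?_⟩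
  · change P₂ (S₂ (L (S₁ x))) = S₂ (L (S₁ x))
    rw [← d₂, h1]
  · change S₂ (L (S₁ (P₁ x))) = S₂ (L (S₁ x))
    rw [d₁, h2]
  · change F₂ x y (S₂ (L (S₁ z))) = S₂ (L (S₁ (F₁ x y z)))
    have e1 : S₁ (F₁ x y z) = F₁ (R' x) (R' y) (S₁ z) := LinearMap.congr_fun (h₁ x y) z
    have e2 : S₂ (F₂ (R' x) (R' y) (L (S₁ z))) = F₂ x y (S₂ (L (S₁ z))) := by
      have e3 := LinearMap.congr_fun (h₂ (R' x) (R' y)) (L (S₁ z))
      rw [hRR, hRR] at e3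
      exact e3
    have e3 : F₂ (R' x) (R' y) (L (S₁ z)) = L (F₁ (R' x) (R' y) (S₁ z)) :=
      LinearMap.congr_fun (g3 _ (hT x hx) _ (hT y hy)) (S₁ z)
    rw [e1, ← e3, e2]

/-- powers of conjugation minus the identity -/
def cjn (S₂ : End C E₂) (S₁ : End C E₁) : ℕ → (E₁ →ₗ[C] E₂) → (E₁ →ₗ[C] E₂)
  | 0, L => L
  | N + 1, L => cj S₂ S₁ (cjn S₂ S₁ N L) - cjn S₂ S₁ N L

theorem cjn_eq (S₂ : End C E₂) (S₁ : End C E₁) (N : ℕ) (L : E₁ →ₗ[C] E₂) :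
    cjn S₂ S₁ N L = ((cj S₂ S₁ - 1) ^ N) L := by
  induction N with
  | zero => rfl
  | succ N ih =>
    rw [pow_succ', Module.End.mul_apply, ← ih, LinearMap.sub_apply, Module.End.one_apply]
    rfl

theorem cjn_unip [IsAlgClosed C] [FiniteDimensional C E₁] [FiniteDimensional C E₂]
    {S₂ : End C E₂} {S₁ : End C E₁} (W : Submodule C (E₁ →ₗ[C] E₂))
    (hW : ∀ x ∈ W, cj S₂ S₁ x ∈ W) (h : ∀ c : C, ∀ x ∈ W, x ≠ 0 → cj S₂ S₁ x = c • x → c = 1) :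
    ∀ x ∈ W, cjn S₂ S₁ (finrank C W) x = 0 := by
  intro x hx
  rw [cjn_eq]
  exact unip_of_eig W hW h x hx

end abs

section bc

variable {k : Type} [Field k] [CharZero k] {C : Type} [Field C] [CharZero C] [Algebra k C]
  {V W₁ W₂ : Type} [AddCommGroup V] [Module k V] [AddCommGroup W₁] [Module k W₁] [AddCommGroup W₂]
  [Module k W₂]

theorem fC_equi' {F : V →ₗ[k] V →ₗ[k] End k W₁} {S S' : End k W₁} {R : End k V} (hS : S * S' = 1)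
    (hS' : S' * S = 1) (h : ∀ x y, S * F x y = F (R x) (R y) * S) (x y : C ⊗[k] V) :
    S.baseChange C * fC C F x y = fC C F (R.baseChange C x) (R.baseChange C y) * S.baseChange C := by
  rw [← fC_equi hS h, AdE_apply, mul_assoc, mul_assoc, ← bc_mul, hS']
  congr 1
  have h1 : ((1 : End k W₁).baseChange C : End C (C ⊗[k] W₁)) = 1 := LinearMap.baseChange_id
  rw [h1, mul_one]

theorem cj_bc (S₂ : End k W₂) (S₁ : End k W₁) (N : ℕ) (L : W₁ →ₗ[k] W₂) :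
    cjn (S₂.baseChange C) (S₁.baseChange C) N (L.baseChange C) =
      (cjn S₂ S₁ N L).baseChange C := by
  induction N with
  | zero => rfl
  | succ N ih =>
    rw [cjn, cjn, ih, cj_apply, cj_apply, LinearMap.baseChange_sub, LinearMap.baseChange_comp,
      LinearMap.baseChange_comp]

theorem bc_inj {L : W₁ →ₗ[k] W₂} (h : L.baseChange C = 0) : L = 0 := by
  refine LinearMap.ext fun w => Module.Flat.tensorProduct_mk_injective k W₂ C ?_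
  have h1 := LinearMap.congr_fun h ((1 : C) ⊗ₜ[k] w)
  rw [LinearMap.baseChange_tmul] at h1
  rw [LinearMap.zero_apply, map_zero]
  exact h1

end bc

section bc2

variable {k : Type} [Field k] [CharZero k] {C : Type} [Field C] [CharZero C] [Algebra k C]
  {n : Type} [Fintype n] [DecidableEq n] {T : Submodule k (n → k)}
  {W₁ W₂ : Type} [AddCommGroup W₁] [Module k W₁] [AddCommGroup W₂] [Module k W₂]
  {P₁ : End k W₁} {P₂ : End k W₂} {F₁ : (n → k) →ₗ[k] (n → k) →ₗ[k] End k W₁}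
  {F₂ : (n → k) →ₗ[k] (n → k) →ₗ[k] End k W₂}

theorem cm_bc {L : W₁ →ₗ[k] W₂} (hL : L ∈ Cm T P₁ P₂ F₁ F₂) :
    L.baseChange C ∈ Cm (TC C T) (P₁.baseChange C) (P₂.baseChange C) (fC C F₁) (fC C F₂) := by
  obtain ⟨g1, g2, g3⟩ := hL
  refine ⟨by rw [← LinearMap.baseChange_comp, g1], by rw [← LinearMap.baseChange_comp, g2], ?_⟩
  intro x hx y hy
  revert x
  refine TC_lin (f := fun x => fC C F₂ x y ∘ₗ L.baseChange C)
    (g := fun x => L.baseChange C ∘ₗ fC C F₁ x y) ?_ ?_ ?_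
  · exact ⟨fun a b => by rw [map_add, LinearMap.add_apply, LinearMap.add_comp], fun c a => by
      rw [map_smul, LinearMap.smul_apply, LinearMap.smul_comp]⟩
  · exact ⟨fun a b => by rw [map_add, LinearMap.add_apply, LinearMap.comp_add], fun c a => by
      rw [map_smul, LinearMap.smul_apply, LinearMap.comp_smul]⟩
  intro x hx
  revert y
  refine TC_lin (f := fun y => fC C F₂ (1 ⊗ₜ[k] x) y ∘ₗ L.baseChange C)
    (g := fun y => L.baseChange C ∘ₗ fC C F₁ (1 ⊗ₜ[k] x) y) ?_ ?_ ?_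
  · exact ⟨fun a b => by rw [map_add, LinearMap.add_comp], fun c a => by
      rw [map_smul, LinearMap.smul_comp]⟩
  · exact ⟨fun a b => by rw [map_add, LinearMap.comp_add], fun c a => by
      rw [map_smul, LinearMap.comp_smul]⟩
  intro y hy
  rw [fC_tmul, fC_tmul, mul_one, one_smul, one_smul, ← LinearMap.baseChange_comp,
    ← LinearMap.baseChange_comp, g3 x hx y hy]

end bc2

section frob

variable {K : Type} [Field K] [NumberField K] {ℓ : ℕ} [hℓ : Fact ℓ.Prime] {n : Type}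
    [Fintype n] [DecidableEq n] {q : Matrix n n ℚ_[ℓ]} {S : Finset ℕ} {χ : GK K →* ℚ_[ℓ]}
    {Pol : HeightOneSpectrum (𝓞 K) → ℤ[X]} {ρ : GK K →* Matrix n n ℚ_[ℓ]}
    {a : Fin (finrank ℚ_[ℓ] (orth q (tate χ ρ))) → ℚ_[ℓ]}
    {U : Matrix n (Fin (finrank ℚ_[ℓ] (orth q (tate χ ρ)))) ℚ_[ℓ]}
    {W' : Matrix (Fin (finrank ℚ_[ℓ] (orth q (tate χ ρ)))) n ℚ_[ℓ]}

section one

variable {W : Type} [AddCommGroup W] [Module ℚ_[ℓ] W] [FiniteDimensional ℚ_[ℓ] W]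
  {σ : Representation ℚ_[ℓ] (GK K) W}

/-- the projection commutes with the Galois group -/
theorem proj_comm (h : IsK3Type q S χ Pol ρ)
    (Fr : Frame q (tateLie χ ρ) (orth q (tate χ ρ)) a U W')
    (hd3 : 3 ≤ finrank ℚ_[ℓ] (orth q (tate χ ρ))) {P : End ℚ_[ℓ] W}
    {β : (n → ℚ_[ℓ]) →ₗ[ℚ_[ℓ]] (n → ℚ_[ℓ]) →ₗ[ℚ_[ℓ]] End ℚ_[ℓ] W}
    (hcl : ClRel (form q) (orth q (tate χ ρ)) P β) {g : GK K}
    (heq : ∀ x y, σ g * β x y = β (rep χ ρ g x) (rep χ ρ g y) * σ g) : σ g * P = P * σ g := by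
  obtain ⟨s, t, -⟩ := exists_two hd3
  have h1 := heq (ev U s) (ev U s)
  rw [hcl.sq (ev_mem Fr s), hcl.sq (orth_rep h g (ev_mem Fr s)), form_rep h, mul_smul_comm,
    smul_mul_assoc, ev_self Fr] at h1
  exact smul_right_injective _ (Fr.ne s) h1

end one

variable {m₁ m₂ : Type} [Fintype m₁] [DecidableEq m₁] [Fintype m₂] [DecidableEq m₂]
    {σ₁ : GK K →* Matrix m₁ m₁ ℚ_[ℓ]} {σ₂ : GK K →* Matrix m₂ m₂ ℚ_[ℓ]}

theorem near_eig {m : Type} [Fintype m] [DecidableEq m] {σ : GK K →* Matrix m m ℚ_[ℓ]} {g : GK K}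
    (hg : g ∈ Near (1 : GK K →* ℚ_[ℓ]) σ) {γ : PadicAlgCl ℓ}
    (hγ : Module.End.maxGenEigenspace ((matRep σ g).baseChange (PadicAlgCl ℓ)) γ ≠ ⊥) :
    ‖γ - 1‖ ≤ ((ℓ : ℝ) ^ 2)⁻¹ := by
  refine R_near 1 σ t_NR1 hg γ ?_
  have e1 : matRep σ g = rep (1 : GK K →* ℚ_[ℓ]) σ g := by
    rw [rep_eq, tw_apply, MonoidHom.one_apply, inv_one, one_smul]
    rfl
  rw [e1] at hγ
  rw [← charpoly_rep]
  have h1 : Module.End.HasEigenvalue ((rep (1 : GK K →* ℚ_[ℓ]) σ g).baseChange (PadicAlgCl ℓ)) γ := by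
    have h2 : Module.End.HasUnifEigenvalue
      ((rep (1 : GK K →* ℚ_[ℓ]) σ g).baseChange (PadicAlgCl ℓ)) γ ⊤ := hγ
    exact h2.lt zero_lt_one
  exact (Module.End.hasEigenvalue_iff_isRoot_charpoly _ _).1 h1

/-- conjugation of matrices -/
noncomputable def Dn (σ₁ : GK K →* Matrix m₁ m₁ ℚ_[ℓ]) (σ₂ : GK K →* Matrix m₂ m₂ ℚ_[ℓ])
    (M : Matrix m₂ m₁ ℚ_[ℓ]) : ℕ → GK K → Matrix m₂ m₁ ℚ_[ℓ]
  | 0, _ => M
  | k + 1, g => σ₂ g * Dn σ₁ σ₂ M k g * σ₁ g⁻¹ - Dn σ₁ σ₂ M k g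

theorem Dn_continuous (h₁ : Continuous σ₁) (h₂ : Continuous σ₂) (M : Matrix m₂ m₁ ℚ_[ℓ]) (k : ℕ) :
    Continuous (Dn σ₁ σ₂ M k) := by
  induction k with
  | zero => exact continuous_const
  | succ k ih =>
    change Continuous fun g => σ₂ g * Dn σ₁ σ₂ M k g * σ₁ g⁻¹ - Dn σ₁ σ₂ M k g
    exact ((h₂.matrix_mul ih).matrix_mul (h₁.comp continuous_inv)).sub ih

theorem Dn_eq (M : Matrix m₂ m₁ ℚ_[ℓ]) (k : ℕ) (g : GK K) :
    Matrix.toLin' (Dn σ₁ σ₂ M k g) =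
      cjn (matRep σ₂ g) (matRep σ₁ g⁻¹) k (Matrix.toLin' M) := by
  induction k with
  | zero => rfl
  | succ k ih =>
    rw [cjn, ← ih]
    change Matrix.toLin' (σ₂ g * Dn σ₁ σ₂ M k g * σ₁ g⁻¹ - Dn σ₁ σ₂ M k g) = _
    rw [map_sub, Matrix.toLin'_mul, Matrix.toLin'_mul, cj_apply]
    rfl

/-- **An open subgroup acts unipotently on the intertwiners of the Clifford modules.** -/
theorem unip_cm (h : IsK3Type q S χ Pol ρ) (hss : Semisimple ρ)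
    (Fr : Frame q (tateLie χ ρ) (orth q (tate χ ρ)) a U W')
    (hd3 : 3 ≤ finrank ℚ_[ℓ] (orth q (tate χ ρ))) (hσ₁ : Continuous σ₁) (hσ₂ : Continuous σ₂)
    {P₁ : End ℚ_[ℓ] (m₁ → ℚ_[ℓ])} {P₂ : End ℚ_[ℓ] (m₂ → ℚ_[ℓ])}
    {β₁ : (n → ℚ_[ℓ]) →ₗ[ℚ_[ℓ]] (n → ℚ_[ℓ]) →ₗ[ℚ_[ℓ]] End ℚ_[ℓ] (m₁ → ℚ_[ℓ])}
    {β₂ : (n → ℚ_[ℓ]) →ₗ[ℚ_[ℓ]] (n → ℚ_[ℓ]) →ₗ[ℚ_[ℓ]] End ℚ_[ℓ] (m₂ → ℚ_[ℓ])}
    (hcl₁ : ClRel (form q) (orth q (tate χ ρ)) P₁ β₁)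
    (hcl₂ : ClRel (form q) (orth q (tate χ ρ)) P₂ β₂)
    {Δ : Subgroup (GK K)} (hΔ : IsOpen (Δ : Set (GK K)))
    (heq₁ : ∀ g ∈ Δ, ∀ x y, matRep σ₁ g * β₁ x y = β₁ (rep χ ρ g x) (rep χ ρ g y) * matRep σ₁ g)
    (heq₂ : ∀ g ∈ Δ, ∀ x y, matRep σ₂ g * β₂ x y = β₂ (rep χ ρ g x) (rep χ ρ g y) * matRep σ₂ g)
    {S' : Finset ℕ} {j : ℤ}
    (hw₁ : ∀ (p : ℕ) [Fact p.Prime], p ∉ S' → ∀ v : HeightOneSpectrum (𝓞 K),
      Ideal.absNorm v.asIdeal = p → ∀ g ∈ Δ, IsFrobenius v g → ∃ Q : ℤ[X], Q.Monic ∧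
        (∀ z : ℂ, aeval z Q = 0 → ‖z‖ ^ 2 = p) ∧ aeval ((p : ℚ_[ℓ]) ^ j • matRep σ₁ g⁻¹) Q = 0)
    (hw₂ : ∀ (p : ℕ) [Fact p.Prime], p ∉ S' → ∀ v : HeightOneSpectrum (𝓞 K),
      Ideal.absNorm v.asIdeal = p → ∀ g ∈ Δ, IsFrobenius v g → ∃ Q : ℤ[X], Q.Monic ∧
        (∀ z : ℂ, aeval z Q = 0 → ‖z‖ ^ 2 = p) ∧ aeval ((p : ℚ_[ℓ]) ^ j • matRep σ₂ g⁻¹) Q = 0) :
    ∃ (D : Subgroup (GK K)) (N : ℕ), IsOpen (D : Set (GK K)) ∧ D ≤ Δ ∧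
      ∀ g ∈ D, ∀ L ∈ Cm (orth q (tate χ ρ)) P₁ P₂ β₁ β₂,
        cjn (matRep σ₂ g) (matRep σ₁ g⁻¹) N L = 0 := by
  have hT : tate χ ρ ≠ ⊤ := by
    intro hT
    have h3 := Submodule.finrank_add_eq_of_isCompl (tate_compl h hss)
    have h4 : finrank ℚ_[ℓ] (tate χ ρ) = finrank ℚ_[ℓ] (n → ℚ_[ℓ]) := by rw [hT, finrank_top]
    omega
  have hcn := h.card
  have hNU := nonUnip hss hT
  obtain ⟨U₀, hU₀, hUN₀⟩ := near_open h.continuous.1 h.continuous.2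
  obtain ⟨U₁, hU₁, hUN₁⟩ := near_open (χ := (1 : GK K →* ℚ_[ℓ])) hσ₁ continuous_const
  obtain ⟨U₂, hU₂, hUN₂⟩ := near_open (χ := (1 : GK K →* ℚ_[ℓ])) hσ₂ continuous_const
  refine ⟨U₀ ⊓ (U₁ ⊓ (U₂ ⊓ Δ)), finrank (PadicAlgCl ℓ) (Cm (TC (PadicAlgCl ℓ) (orth q (tate χ ρ)))
    (P₁.baseChange (PadicAlgCl ℓ)) (P₂.baseChange (PadicAlgCl ℓ)) (fC (PadicAlgCl ℓ) β₁)
    (fC (PadicAlgCl ℓ) β₂)), hU₀.inter (hU₁.inter (hU₂.inter hΔ)),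
    inf_le_right.trans (inf_le_right.trans inf_le_right), ?_⟩
  set N := finrank (PadicAlgCl ℓ) (Cm (TC (PadicAlgCl ℓ) (orth q (tate χ ρ)))
    (P₁.baseChange (PadicAlgCl ℓ)) (P₂.baseChange (PadicAlgCl ℓ)) (fC (PadicAlgCl ℓ) β₁)
    (fC (PadicAlgCl ℓ) β₂)) with hNdef
  by_contra hcon
  push Not at hcon
  obtain ⟨g₀, hg₀, L, hL, hLne⟩ := hcon
  have hML : Matrix.toLin' (LinearMap.toMatrix' L) = L := Matrix.toLin'_toMatrix' L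
  have hVo : IsOpen (((U₀ ⊓ (U₁ ⊓ (U₂ ⊓ Δ)) : Subgroup (GK K)) : Set (GK K)) ∩
      {g | Dn σ₁ σ₂ (LinearMap.toMatrix' L) N g ≠ 0}) := by
    refine (hU₀.inter (hU₁.inter (hU₂.inter hΔ))).inter ?_
    exact (isClosed_singleton (x := (0 : Matrix m₂ m₁ ℚ_[ℓ]))).isOpen_compl.preimage
      (Dn_continuous hσ₁ hσ₂ _ N)
  obtain ⟨p, hp, hpS, v, hv, ⟨g, hg, hgV⟩, hord⟩ := t_ORD t_NR1 t_DG1 K ℓ n (S ∪ S') χ ρ Pol
    h.continuous.2 h.continuous.1 (by omega)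
    (fun p hp hpS v hv => by
      have : Fact p.Prime := ⟨hp⟩
      have hpS' : p ∉ S := fun h' => hpS (Finset.mem_union_left _ h')
      exact ⟨(h.weil p hpS' v hv).1, (h.weil p hpS' v hv).2, h.frobenius p hpS' v hv⟩)
    hNU _ hVo ⟨g₀, hg₀, fun h0 => hLne (by rw [← hML, ← Dn_eq, h0, map_zero])⟩
    (fun g hg => hUN₀ hg.1.1)
  have hpf : Fact p.Prime := ⟨hp⟩
  have hpS1 : p ∉ S := fun h' => hpS (Finset.mem_union_left _ h')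
  have hpS2 : p ∉ S' := fun h' => hpS (Finset.mem_union_right _ h')
  have hgΔ : g ∈ Δ := by
    have h1 := Δ.inv_mem hgV.1.2.2.2
    rwa [inv_inv] at h1
  have hgΔ' : g⁻¹ ∈ Δ := hgV.1.2.2.2
  obtain ⟨Q₁, hQ₁, hQW₁, hQ0₁⟩ := hw₁ p hpS2 v hv g hgΔ hg
  obtain ⟨Q₂, hQ₂, hQW₂, hQ0₂⟩ := hw₂ p hpS2 v hv g hgΔ hg
  apply hgV.2
  have h1 : ∀ (W : Type) [AddCommGroup W] [Module ℚ_[ℓ] W] (τ : Representation ℚ_[ℓ] (GK K) W)
      (g : GK K), τ g * τ g⁻¹ = 1 := by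
    intro W _ _ τ g
    rw [← map_mul, mul_inv_cancel, map_one]
  have h1' : ∀ (W : Type) [AddCommGroup W] [Module ℚ_[ℓ] W] (τ : Representation ℚ_[ℓ] (GK K) W)
      (g : GK K), τ g⁻¹ * τ g = 1 := by
    intro W _ _ τ g
    rw [← map_mul, inv_mul_cancel, map_one]
  have hRR : ∀ x, (rep χ ρ g⁻¹).baseChange (PadicAlgCl ℓ) ((rep χ ρ g).baseChange (PadicAlgCl ℓ) x) = x := by
    intro x
    have h2 : (rep χ ρ g⁻¹).baseChange (PadicAlgCl ℓ) * (rep χ ρ g).baseChange (PadicAlgCl ℓ) = 1 := by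
      rw [← bc_mul, h1']
      exact LinearMap.baseChange_id
    exact LinearMap.congr_fun h2 x
  have hTR : ∀ x ∈ TC (PadicAlgCl ℓ) (orth q (tate χ ρ)), (rep χ ρ g).baseChange (PadicAlgCl ℓ) x ∈
      TC (PadicAlgCl ℓ) (orth q (tate χ ρ)) := by
    intro x hx
    refine TC_induction (P := fun x => (rep χ ρ g).baseChange (PadicAlgCl ℓ) x ∈
      TC (PadicAlgCl ℓ) (orth q (tate χ ρ))) ?_ ?_ ?_ hx
    · rw [map_zero]
      exact Submodule.zero_mem _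
    · intro c t ht
      rw [LinearMap.baseChange_tmul]
      exact tmul_mem_TC (orth_rep h g ht) c
    · intro x y hx hy
      rw [map_add]
      exact Submodule.add_mem _ hx hy
  have hst : ∀ M ∈ Cm (TC (PadicAlgCl ℓ) (orth q (tate χ ρ))) (P₁.baseChange (PadicAlgCl ℓ))
      (P₂.baseChange (PadicAlgCl ℓ)) (fC (PadicAlgCl ℓ) β₁) (fC (PadicAlgCl ℓ) β₂),
      cj ((matRep σ₂ g⁻¹).baseChange (PadicAlgCl ℓ)) ((matRep σ₁ g).baseChange (PadicAlgCl ℓ)) M ∈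
      Cm (TC (PadicAlgCl ℓ) (orth q (tate χ ρ))) (P₁.baseChange (PadicAlgCl ℓ))
      (P₂.baseChange (PadicAlgCl ℓ)) (fC (PadicAlgCl ℓ) β₁) (fC (PadicAlgCl ℓ) β₂) := by
    intro M hM
    refine cj_mem hRR hTR (fC_equi' (h1' _ _ _) (h1 _ _ _) (heq₂ g⁻¹ hgΔ'))
      (fC_equi' (h1 _ _ _) (h1' _ _ _) (heq₁ g hgΔ)) ?_ ?_ hM
    · rw [← bc_mul, ← bc_mul, proj_comm h Fr hd3 hcl₂ (heq₂ g⁻¹ hgΔ')]
    · rw [← bc_mul, ← bc_mul, proj_comm h Fr hd3 hcl₁ (heq₁ g hgΔ)]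
  have h2 := cjn_unip _ hst (fun c M hM hM0 hMc =>
    lam_one h Fr hd3 hpS1 hv hg hord (hUN₀ hgV.1.1) hcl₁ hcl₂ (heq₁ g⁻¹ hgΔ') (heq₂ g⁻¹ hgΔ') hQ₁ hQW₁ hQ0₁
      hQ₂ hQW₂ hQ0₂ (fun γ hγ => near_eig (hUN₁ hgV.1.2.1) hγ)
      (fun γ hγ => near_eig (hUN₂ hgV.1.2.2.1) hγ) hM hM0 hMc) _ (cm_bc (C := PadicAlgCl ℓ) hL)
  rw [cj_bc] at h2
  have h3 := bc_inj h2
  refine Matrix.toLin'.injective ?_
  rw [Dn_eq, hML, map_zero, inv_inv]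
  exact h3

end frob

end Pool.Agent.H851.UK
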