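import Mathlib
import Pool.Agent.H851.UK.Main

/-!
# Unipotent action on spaces of linear maps between semisimple representations
-/

set_option autoImplicit false
set_option linter.unusedSectionVars false
set_option linter.unusedVariables false

namespace Pool.Agent.H851.UK

open Module Pool.Agent.H851.KT
open Pool.Agent.H204R3.GP (FiniteIndexSemisimple)

section

variable {k : Type} [Field k] [CharZero k] {W₁ W₂ : Type} [AddCommGroup W₁] [Module k W₁]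
  [FiniteDimensional k W₁] [AddCommGroup W₂] [Module k W₂] [FiniteDimensional k W₂] {Γ : Type}
  [Group Γ] {σ₁ : Representation k Γ W₁} {σ₂ : Representation k Γ W₂}

/-- the trace pairing of intertwiners of semisimple representations is nondegenerate -/
theorem pairing (h₁ : FiniteIndexSemisimple σ₁) (h₂ : FiniteIndexSemisimple σ₂) {Δ : Subgroup Γ}
    (hΔ : Δ.FiniteIndex) {c : W₁ →ₗ[k] W₂} (hc : ∀ g ∈ Δ, ∀ x, σ₂ g (c x) = c (σ₁ g x))
    (hc0 : c ≠ 0) : ∃ N : W₂ →ₗ[k] W₁, (∀ g ∈ Δ, ∀ x, σ₁ g (N x) = N (σ₂ g x)) ∧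
      LinearMap.trace k W₁ (N ∘ₗ c) ≠ 0 := by
  obtain ⟨Q₁, q1, q2, q3⟩ := Pool.Agent.R913.Adj.hasProj h₁ Δ hΔ (LinearMap.ker c) (by
    intro g hg x hx
    rw [LinearMap.mem_ker] at hx ⊢
    rw [← hc g hg, hx, map_zero])
  obtain ⟨Q₂, r1, r2, r3⟩ := Pool.Agent.R913.Adj.hasProj h₂ Δ hΔ (LinearMap.range c) (by
    rintro g hg _ ⟨x, rfl⟩
    exact ⟨_, (hc g hg x).symm⟩)
  obtain ⟨s, hs⟩ := LinearMap.exists_rightInverse_of_surjective c.rangeRestrict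
    (LinearMap.range_rangeRestrict c)
  have hs' : ∀ y, c (s y) = y := fun y => congrArg Subtype.val (LinearMap.congr_fun hs y)
  let E : W₁ →ₗ[k] W₁ := LinearMap.id - Q₁
  have hE : ∀ x, E x = x - Q₁ x := fun x => rfl
  have hEk : ∀ x, c x = 0 → E x = 0 := by
    intro x hx
    rw [hE, q2 x hx, sub_self]
  have hEc : ∀ x y, c x = c y → E x = E y := by
    intro x y hxy
    have h1 := hEk (x - y) (by rw [map_sub, hxy, sub_self])
    rw [map_sub] at h1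
    exact sub_eq_zero.1 h1
  let N : W₂ →ₗ[k] W₁ := E ∘ₗ s ∘ₗ Q₂.codRestrict (LinearMap.range c) r1
  have hN : ∀ y x, Q₂ y = c x → N y = E x := by
    intro y x hyx
    refine hEc _ _ ?_
    rw [LinearMap.comp_apply, hs', LinearMap.codRestrict_apply]
    exact hyx
  have hNc : N ∘ₗ c = E := by
    refine LinearMap.ext fun x => hN _ _ (r2 _ ⟨x, rfl⟩)
  refine ⟨N, ?_, ?_⟩
  · intro g hg y
    obtain ⟨x, hx⟩ := r1 y
    rw [hN y x hx.symm, hN (σ₂ g y) (σ₁ g x) (by rw [r3 g hg, ← hx, hc g hg]), hE, hE, map_sub,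
      q3 g hg]
  · rw [hNc]
    have hQQ : ∀ x, Q₁ (Q₁ x) = Q₁ x := fun x => q2 _ (q1 x)
    have hproj : LinearMap.IsProj (LinearMap.range E) E := by
      refine ⟨fun x => ⟨x, rfl⟩, ?_⟩
      rintro _ ⟨x, rfl⟩
      rw [hE x, map_sub, hE, hE, hQQ, sub_self, sub_zero]
    rw [hproj.trace]
    intro h0
    have h1 : finrank k (LinearMap.range E) = 0 := by exact_mod_cast h0
    have h2 := Submodule.finrank_eq_zero.1 h1
    apply hc0
    refine LinearMap.ext fun x => ?_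
    have h3 : E x = 0 := by
      have h4 : E x ∈ LinearMap.range E := ⟨x, rfl⟩
      rw [h2] at h4
      exact (Submodule.mem_bot _).1 h4
    have h4 : x = Q₁ x := sub_eq_zero.1 h3
    rw [h4]
    exact q1 x

/-- conjugation as a representation -/
def cjHom (σ₁ : Representation k Γ W₁) (σ₂ : Representation k Γ W₂) (Δ : Subgroup Γ) :
    Δ →* End k (W₁ →ₗ[k] W₂) where
  toFun g := cj (σ₂ g) (σ₁ (g : Γ)⁻¹)
  map_one' := by
    refine LinearMap.ext fun L => LinearMap.ext fun x => ?_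
    rw [cj_apply]
    change σ₂ (1 : Γ) (L (σ₁ (1 : Γ)⁻¹ x)) = L x
    rw [inv_one, map_one, map_one]
    rfl
  map_mul' g g' := by
    refine LinearMap.ext fun L => LinearMap.ext fun x => ?_
    rw [Module.End.mul_apply, cj_apply, cj_apply, cj_apply]
    change σ₂ ((g : Γ) * g') (L (σ₁ ((g : Γ) * g')⁻¹ x)) =
      σ₂ g (σ₂ g' (L (σ₁ (g' : Γ)⁻¹ (σ₁ (g : Γ)⁻¹ x))))
    rw [mul_inv_rev, map_mul, map_mul]
    rfl

theorem cjHom_apply (Δ : Subgroup Γ) (g : Δ) (L : W₁ →ₗ[k] W₂) :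
    cjHom σ₁ σ₂ Δ g L = cj (σ₂ g) (σ₁ (g : Γ)⁻¹) L := rfl

/-- **A group which acts unipotently on a space of linear maps between semisimple representations acts
trivially.** -/
theorem fixed_of_unip (h₁ : FiniteIndexSemisimple σ₁) (h₂ : FiniteIndexSemisimple σ₂)
    {Δ : Subgroup Γ} (hΔ : Δ.FiniteIndex) {Φ : Submodule k (W₁ →ₗ[k] W₂)}
    (hΦ : ∀ g ∈ Δ, ∀ L ∈ Φ, cj (σ₂ g) (σ₁ g⁻¹) L ∈ Φ) {N : ℕ}
    (hN : ∀ g ∈ Δ, ∀ L ∈ Φ, cjn (σ₂ g) (σ₁ g⁻¹) N L = 0) :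
    ∀ g ∈ Δ, ∀ L ∈ Φ, ∀ x, σ₂ g (L x) = L (σ₁ g x) := by
  have hinv₁ : ∀ g x, σ₁ g⁻¹ (σ₁ g x) = x := by
    intro g x
    rw [← Module.End.mul_apply, ← map_mul, inv_mul_cancel, map_one, Module.End.one_apply]
  let Ψ : Submodule k (W₁ →ₗ[k] W₂) :=
    { carrier := {L | L ∈ Φ ∧ ∀ N : W₂ →ₗ[k] W₁, (∀ g ∈ Δ, ∀ x, σ₁ g (N x) = N (σ₂ g x)) →
        LinearMap.trace k W₁ (N ∘ₗ L) = 0}
      zero_mem' := ⟨Φ.zero_mem, fun N _ => by rw [LinearMap.comp_zero, map_zero]⟩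
      add_mem' := fun {a b} ha hb => ⟨Φ.add_mem ha.1 hb.1, fun N hN => by
        rw [LinearMap.comp_add, map_add, ha.2 N hN, hb.2 N hN, add_zero]⟩
      smul_mem' := fun c a ha => ⟨Φ.smul_mem c ha.1, fun N hN => by
        rw [LinearMap.comp_smul, map_smul, ha.2 N hN, smul_zero]⟩ }
  have htr : ∀ g ∈ Δ, ∀ N : W₂ →ₗ[k] W₁, (∀ g ∈ Δ, ∀ x, σ₁ g (N x) = N (σ₂ g x)) →
      ∀ L : W₁ →ₗ[k] W₂, LinearMap.trace k W₁ (N ∘ₗ cj (σ₂ g) (σ₁ g⁻¹) L) =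
        LinearMap.trace k W₁ (N ∘ₗ L) := by
    intro g hg N hN L
    have e1 : N ∘ₗ cj (σ₂ g) (σ₁ g⁻¹) L = σ₁ g ∘ₗ ((N ∘ₗ L) ∘ₗ σ₁ g⁻¹) := by
      refine LinearMap.ext fun x => ?_
      change N (σ₂ g (L (σ₁ g⁻¹ x))) = σ₁ g (N (L (σ₁ g⁻¹ x)))
      rw [hN g hg]
    rw [e1, LinearMap.trace_comp_comm']
    congr 1
    refine LinearMap.ext fun x => ?_
    change N (L (σ₁ g⁻¹ (σ₁ g x))) = N (L x)
    rw [hinv₁]
  have hΨ : Ψ = ⊥ := by
    by_contra hne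
    obtain ⟨c, hc, hc0, hfix⟩ := kolchin (cjHom σ₁ σ₂ Δ) Ψ (by
      intro g L hL
      refine ⟨hΦ g g.2 L hL.1, fun N hN => ?_⟩
      rw [cjHom_apply, htr g g.2 N hN, hL.2 N hN]) hne N (by
      intro g L hL
      have h1 := hN g g.2 L hL.1
      rw [cjn_eq] at h1
      exact h1)
    have hc' : ∀ g ∈ Δ, ∀ x, σ₂ g (c x) = c (σ₁ g x) := by
      intro g hg x
      have h1 := LinearMap.congr_fun (hfix ⟨g, hg⟩) (σ₁ g x)
      rw [cjHom_apply, cj_apply] at h1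
      change σ₂ g (c (σ₁ g⁻¹ (σ₁ g x))) = c (σ₁ g x) at h1
      rwa [hinv₁] at h1
    obtain ⟨N', hN', htr'⟩ := pairing h₁ h₂ hΔ hc' hc0
    exact htr' (hc.2 N' hN')
  intro g hg L hL x
  have h1 : cj (σ₂ g) (σ₁ g⁻¹) L - L ∈ Ψ := by
    refine ⟨Φ.sub_mem (hΦ g hg L hL) hL, fun N hN => ?_⟩
    rw [LinearMap.comp_sub, map_sub, htr g hg N hN, sub_self]
  rw [hΨ, Submodule.mem_bot, sub_eq_zero] at h1
  have h2 := LinearMap.congr_fun h1 (σ₁ g x)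
  change σ₂ g (L (σ₁ g⁻¹ (σ₁ g x))) = L (σ₁ g x) at h2
  rwa [hinv₁] at h2

end

end Pool.Agent.H851.UK
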