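import Mathlib
import Pool.Agent.H851.UK.Fix
import Pool.Agent.H851.UK.Emb
import Pool.Agent.H851.UK.Def

/-!
# Uniqueness of the Kuga-Satake part
-/

set_option autoImplicit false
set_option linter.unusedSectionVars false
set_option linter.unusedVariables false

namespace Pool.Agent.H851.UK

open Matrix Finset Function Module Pool.Agent.Y114.RM
open NumberField IsDedekindDomain Polynomial
open Pool.Agent.H851.K3 Pool.Agent.H851.KT Pool.Agent.H851.TT Pool.Agent.H851.ZD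
open Pool.Agent.H851.IN Pool.Agent.H851.KS Pool.Agent.H851.KD
open Pool.Agent.NH56.HY (GK IsFrobenius tw tw_apply chi_ne)
open Pool.Agent.H204R3.GP (FiniteIndexSemisimple)

variable {K : Type} [Field K] [NumberField K] {ℓ : ℕ} [hℓ : Fact ℓ.Prime] {n : Type}
    [Fintype n] [DecidableEq n] {q : Matrix n n ℚ_[ℓ]} {S : Finset ℕ} {χ : GK K →* ℚ_[ℓ]}
    {Pol : HeightOneSpectrum (𝓞 K) → ℤ[X]} {ρ : GK K →* Matrix n n ℚ_[ℓ]} {m m₁ m₂ : Type}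
    [Fintype m] [DecidableEq m] [Fintype m₁] [DecidableEq m₁] [Fintype m₂] [DecidableEq m₂]

theorem WeightOneAt.rep {j : ℤ} {σ : GK K →* Matrix m m ℚ_[ℓ]} (h : WeightOneAt j σ) :
    WeightOneRep σ := by
  obtain ⟨Δ, S', hΔ, hw⟩ := h.weight
  exact ⟨Δ, S', j, hΔ, hw⟩

theorem aeval_matRep {σ : GK K →* Matrix m m ℚ_[ℓ]} {c : ℚ_[ℓ]} {g : GK K} {P : ℤ[X]}
    (h : (aeval (c • σ g) P : Matrix m m ℚ_[ℓ]) = 0) : aeval (c • matRep σ g) P = 0 := by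
  have h4 : aeval (c • matRep σ g) P =
      Matrix.toLinAlgEquiv' (aeval (c • σ g) P : Matrix m m ℚ_[ℓ]) := by
    have h5 : c • matRep σ g = Matrix.toLinAlgEquiv' (c • σ g) := by
      rw [map_smul]
      rfl
    rw [h5, aeval_def, aeval_def]
    have h6 := Polynomial.hom_eval₂ P (algebraMap ℤ (Matrix m m ℚ_[ℓ]))
      ((Matrix.toLinAlgEquiv' : Matrix m m ℚ_[ℓ] ≃ₐ[ℚ_[ℓ]] _) :
        Matrix m m ℚ_[ℓ] →+* End ℚ_[ℓ] (m → ℚ_[ℓ])) (c • σ g)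
    rw [← RingHom.ext_int (((Matrix.toLinAlgEquiv' : Matrix m m ℚ_[ℓ] ≃ₐ[ℚ_[ℓ]] _) :
        Matrix m m ℚ_[ℓ] →+* End ℚ_[ℓ] (m → ℚ_[ℓ])).comp (algebraMap ℤ (Matrix m m ℚ_[ℓ])))
        (algebraMap ℤ (End ℚ_[ℓ] (m → ℚ_[ℓ])))]
    exact h6.symm
  rw [h4, h, map_zero]

/-- the relations, for linear maps -/
theorem rel_of (hq : qᵀ = q) {σ : GK K →* Matrix m m ℚ_[ℓ]} {Δ : Subgroup (GK K)}
    {P : Matrix m m ℚ_[ℓ]} {ψ : (n → ℚ_[ℓ]) → (n → ℚ_[ℓ]) → Matrix m m ℚ_[ℓ]}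
    (p : IsKugaSatake q χ ρ σ Δ P ψ) :
    ∃ β : (n → ℚ_[ℓ]) →ₗ[ℚ_[ℓ]] (n → ℚ_[ℓ]) →ₗ[ℚ_[ℓ]] End ℚ_[ℓ] (m → ℚ_[ℓ]),
      (∀ x y, β x y = Matrix.toLin' (ψ x y)) ∧
      ClRel (form q) (orth q (tate χ ρ)) (Matrix.toLin' P) β ∧
      ∀ g ∈ Δ, ∀ x y, matRep σ g * β x y = β (rep χ ρ g x) (rep χ ρ g y) * matRep σ g := by
  obtain ⟨f, hf⟩ := p.clifford.bilin
  have hβ : ∀ x y, (f.compr₂ (Matrix.toLin' : Matrix m m ℚ_[ℓ] ≃ₗ[ℚ_[ℓ]] _).toLinearMap) x y =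
      Matrix.toLin' (ψ x y) := by
    intro x y
    rw [hf]
    rfl
  have hmul : ∀ A B : Matrix m m ℚ_[ℓ], Matrix.toLin' A * Matrix.toLin' B =
      Matrix.toLin' (A * B) := fun A B => (Matrix.toLin'_mul A B).symm
  refine ⟨f.compr₂ (Matrix.toLin' : Matrix m m ℚ_[ℓ] ≃ₗ[ℚ_[ℓ]] _).toLinearMap, hβ, ?_, ?_⟩
  · refine ClRel.of (form_symm hq) ?_ (fun x y => ?_) (fun x y => ?_) (fun x hx => ?_)
      (fun x hx y hy z hz => ?_)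
    · rw [hmul, p.clifford.proj]
    · rw [hβ, hmul, (p.clifford.unit x y).1]
    · rw [hβ, hmul, (p.clifford.unit x y).2]
    · rw [hβ, p.clifford.sq x hx, map_smul, form_apply]
    · rw [hβ, hβ, hβ, hmul, p.clifford.mul x hx y hy z hz, map_smul, form_apply]
  · intro g hg x y
    have h1 := congrArg Matrix.toLin' (p.galois g hg x y)
    rw [← hmul, ← hmul] at h1
    rw [hβ, hβ]
    exact h1

variable {σ₁ : GK K →* Matrix m₁ m₁ ℚ_[ℓ]} {σ₂ : GK K →* Matrix m₂ m₂ ℚ_[ℓ]}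

/-- **Clifford maps are Galois maps.** -/
theorem uk_maps (h : IsK3Type q S χ Pol ρ) (hss : Semisimple ρ) (hc : ScalarEnds q χ ρ)
    (hd3 : 3 ≤ finrank ℚ_[ℓ] (orth q (tate χ ρ))) {j : ℤ} (h₁ : WeightOneAt j σ₁)
    (h₂ : WeightOneAt j σ₂) : MapsEquivariant q χ ρ σ₁ σ₂ := by
  intro Δ₁ Δ₂ P₁ ψ₁ P₂ ψ₂ hΔ₁ hΔ₂ p₁ p₂
  obtain ⟨a, U, W', Fr⟩ := exists_frame h hss hc
  obtain ⟨β₁, hβ₁, hcl₁, heq₁⟩ := rel_of h.symm p₁
  obtain ⟨β₂, hβ₂, hcl₂, heq₂⟩ := rel_of h.symm p₂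
  obtain ⟨Δ₃, S₃, hΔ₃, hw₁⟩ := h₁.weight
  obtain ⟨Δ₄, S₄, hΔ₄, hw₂⟩ := h₂.weight
  obtain ⟨D, N, hD, hDle, hDN⟩ := unip_cm (Δ := Δ₁ ⊓ (Δ₂ ⊓ (Δ₃ ⊓ Δ₄))) (S' := S₃ ∪ S₄) (j := j)
    h hss Fr hd3 h₁.continuous h₂.continuous hcl₁ hcl₂
    (hΔ₁.inter (hΔ₂.inter (hΔ₃.inter hΔ₄))) (fun g hg => heq₁ g hg.1) (fun g hg => heq₂ g hg.2.1)
    (fun p _ hp v hv g hg hgF => by
      obtain ⟨Q, hQ, hQW, hQ0⟩ := hw₁ p (fun h' => hp (Finset.mem_union_left _ h')) v hv g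
        hg.2.2.1 hgF
      exact ⟨Q, hQ, hQW, aeval_matRep hQ0⟩)
    (fun p _ hp v hv g hg hgF => by
      obtain ⟨Q, hQ, hQW, hQ0⟩ := hw₂ p (fun h' => hp (Finset.mem_union_right _ h')) v hv g
        hg.2.2.2 hgF
      exact ⟨Q, hQ, hQW, aeval_matRep hQ0⟩)
  have hcomp : CompactSpace (GK K) := inferInstance
  have hfin : Finite (GK K ⧸ D) := Subgroup.quotient_finite_of_isOpen _ hD
  have hDf : D.FiniteIndex := Subgroup.finiteIndex_of_finite_quotient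
  have hrr : ∀ g x, rep χ ρ g (rep χ ρ g⁻¹ x) = x := by
    intro g x
    rw [← Module.End.mul_apply, ← map_mul, mul_inv_cancel, map_one, Module.End.one_apply]
  have hfix := fixed_of_unip (matRep_semisimple h₁.semisimple) (matRep_semisimple h₂.semisimple)
    hDf (Φ := Cm (orth q (tate χ ρ)) (Matrix.toLin' P₁) (Matrix.toLin' P₂) β₁ β₂) (N := N)
    (fun g hg L hL => by
      have hgi : g⁻¹ ∈ D := D.inv_mem hg
      exact cj_mem (hrr g) (fun x hx => orth_rep h g⁻¹ hx) (heq₂ g (hDle hg).2.1)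
        (heq₁ g⁻¹ (hDle hgi).1) (proj_comm h Fr hd3 hcl₂ (heq₂ g (hDle hg).2.1))
        (proj_comm h Fr hd3 hcl₁ (heq₁ g⁻¹ (hDle hgi).1)) hL) hDN
  refine ⟨D, hD, fun M hM g hg => ?_⟩
  have hL : Matrix.toLin' M ∈ Cm (orth q (tate χ ρ)) (Matrix.toLin' P₁) (Matrix.toLin' P₂) β₁ β₂ := by
    refine ⟨?_, ?_, fun x hx y hy => ?_⟩
    · rw [← Matrix.toLin'_mul, hM.1]
    · rw [← Matrix.toLin'_mul, hM.2.1]
    · rw [hβ₁, hβ₂, ← Matrix.toLin'_mul, ← Matrix.toLin'_mul, hM.2.2 x hx y hy]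
  refine Matrix.toLin'.injective (LinearMap.ext fun x => ?_)
  rw [Matrix.toLin'_mul, Matrix.toLin'_mul]
  exact hfix g hg _ hL x

/-- **The Kuga-Satake part is unique.** -/
theorem uk_embeds (h : IsK3Type q S χ Pol ρ) (hss : Semisimple ρ) (hc : ScalarEnds q χ ρ)
    (hd3 : 3 ≤ finrank ℚ_[ℓ] (orth q (tate χ ρ)))
    (hodd : Odd (finrank ℚ_[ℓ] (orth q (tate χ ρ)))) {j : ℤ} (h₁ : WeightOneAt j σ₁)
    (h₂ : WeightOneAt j σ₂) (hi : ¬ Independent χ ρ σ₂) : Embeds q χ ρ σ₁ σ₂ := by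
  intro Δ₁ P₁ ψ₁ hΔ₁ p₁
  obtain ⟨P₂, ψ₂, p₂, -, -, htfae⟩ := ks_main h hss hc hd3 h₂.semisimple h₂.rep
  have hP₂ : P₂ ≠ 0 := fun h0 => hi ((htfae.out 0 1).1 h0)
  obtain ⟨Δ, hΔ, hmaps⟩ := uk_maps h hss hc hd3 h₁ h₂ Δ₁ ⊤ P₁ ψ₁ P₂ ψ₂ hΔ₁ isOpen_univ p₁ p₂
  refine ⟨Δ, hΔ, fun x hx hx0 => ?_⟩
  obtain ⟨a, U, W', Fr⟩ := exists_frame h hss hc
  obtain ⟨β₁, hβ₁, hcl₁, heq₁⟩ := rel_of h.symm p₁
  obtain ⟨β₂, hβ₂, hcl₂, heq₂⟩ := rel_of h.symm p₂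
  obtain ⟨r, hr⟩ := hodd
  have hcl : ∀ {m : Type} [Fintype m] [DecidableEq m] {P : End ℚ_[ℓ] (m → ℚ_[ℓ])}
      {β : (n → ℚ_[ℓ]) →ₗ[ℚ_[ℓ]] (n → ℚ_[ℓ]) →ₗ[ℚ_[ℓ]] End ℚ_[ℓ] (m → ℚ_[ℓ])},
      ClRel (form q) (orth q (tate χ ρ)) P β →
      IsCl (fun s : Fin (2 * r + 1) => a (Fin.cast hr.symm s)) P
        (fun s t => β (ev U (Fin.cast hr.symm s)) (ev U (Fin.cast hr.symm t))) := by
    intro m _ _ P β hcl
    refine ⟨hcl.idem, fun s t => hcl.left _ _, fun s t => hcl.right _ _, fun s => ?_,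
      fun s t hst => ?_, fun s t u => ?_⟩
    · rw [hcl.sq (ev_mem Fr _), ev_self Fr]
    · have h1 := hcl.pol _ (ev_mem Fr (Fin.cast hr.symm s)) _ (ev_mem Fr (Fin.cast hr.symm t))
      rw [ev_ne Fr (fun h' => hst (Fin.cast_injective _ h')), mul_zero, zero_smul] at h1
      exact eq_neg_of_add_eq_zero_left h1
    · have h1 := hcl.mul _ (ev_mem Fr (Fin.cast hr.symm s)) _ (ev_mem Fr (Fin.cast hr.symm t)) _
        (ev_mem Fr (Fin.cast hr.symm t)) _ (ev_mem Fr (Fin.cast hr.symm u))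
      rw [← two_smul ℚ_[ℓ], mul_smul] at h1
      have h2 := smul_right_injective _ (two_ne_zero (α := ℚ_[ℓ])) h1
      rw [h2, ev_self Fr]
  have hP₂' : Matrix.toLin' P₂ ≠ 0 := by
    intro h0
    apply hP₂
    rw [← map_zero (Matrix.toLin' : Matrix m₂ m₂ ℚ_[ℓ] ≃ₗ[ℚ_[ℓ]] _)] at h0
    exact Matrix.toLin'.injective h0
  obtain ⟨L, hLx, l1, l2, l3⟩ := emb (fun s => Fr.ne _) hP₂' (hcl hcl₁) (hcl hcl₂)
    (x := x) hx hx0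
  have l3' : ∀ s t, β₂ (ev U s) (ev U t) ∘ₗ L = L ∘ₗ β₁ (ev U s) (ev U t) := fun s t =>
    l3 (Fin.cast hr s) (Fin.cast hr t)
  refine ⟨LinearMap.toMatrix' L, hmaps _ ⟨?_, ?_, ?_⟩, ?_⟩
  · refine Matrix.toLin'.injective ?_
    rw [Matrix.toLin'_mul, Matrix.toLin'_toMatrix', l1]
  · refine Matrix.toLin'.injective ?_
    rw [Matrix.toLin'_mul, Matrix.toLin'_toMatrix', l2]
  · intro y hy z hz
    refine Matrix.toLin'.injective ?_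
    rw [Matrix.toLin'_mul, Matrix.toLin'_mul, Matrix.toLin'_toMatrix', ← hβ₁, ← hβ₂,
      ev_sum Fr hy, ev_sum Fr hz]
    refine LinearMap.ext fun w => ?_
    have l4 : ∀ s t, β₂ (ev U s) (ev U t) (L w) = L (β₁ (ev U s) (ev U t) w) := fun s t =>
      LinearMap.congr_fun (l3' s t) w
    simp only [LinearMap.comp_apply, map_sum, LinearMap.sum_apply, map_smul, LinearMap.smul_apply,
      l4]
  · rw [← Matrix.toLin'_apply, Matrix.toLin'_toMatrix']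
    exact hLx

/-- two representations which are not independent of `V(1)` have a common part -/
theorem uk_common (h : IsK3Type q S χ Pol ρ) (hss : Semisimple ρ) (hc : ScalarEnds q χ ρ)
    (hd3 : 3 ≤ finrank ℚ_[ℓ] (orth q (tate χ ρ)))
    (hodd : Odd (finrank ℚ_[ℓ] (orth q (tate χ ρ)))) {j : ℤ} (h₁ : WeightOneAt j σ₁)
    (h₂ : WeightOneAt j σ₂) (hi₁ : ¬ Independent χ ρ σ₁) (hi₂ : ¬ Independent χ ρ σ₂) :
    ∃ Δ : Subgroup (GK K), IsOpen (Δ : Set (GK K)) ∧ ∃ M, M ≠ 0 ∧ Intertwines σ₁ σ₂ Δ M := by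
  obtain ⟨P₁, ψ₁, p₁, -, -, htfae⟩ := ks_main h hss hc hd3 h₁.semisimple h₁.rep
  have hP₁ : P₁ ≠ 0 := fun h0 => hi₁ ((htfae.out 0 1).1 h0)
  obtain ⟨Δ, hΔ, hM⟩ := uk_embeds h hss hc hd3 hodd h₁ h₂ hi₂ ⊤ P₁ ψ₁ isOpen_univ p₁
  obtain ⟨y, hy⟩ : ∃ y, P₁ *ᵥ y ≠ 0 := by
    by_contra hcon
    push Not at hcon
    exact hP₁ (Matrix.mulVec_injective (funext fun y => by rw [hcon y, Matrix.zero_mulVec]))
  obtain ⟨M, hM1, hM2⟩ := hM (P₁ *ᵥ y) (by rw [Matrix.mulVec_mulVec, p₁.clifford.proj]) hy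
  refine ⟨Δ, hΔ, M, ?_, hM1⟩
  rintro rfl
  exact hM2 (Matrix.zero_mulVec _)

end Pool.Agent.H851.UK
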