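import Mathlib
import Pool.Agent.H851.UK.Pub
import Pool.Agent.H851.UK.Gen
import Pool.Agent.H851.UK.Def2

/-!
# The Lie algebra of the Kuga-Satake part
-/

set_option autoImplicit false
set_option linter.unusedSectionVars false
set_option linter.unusedVariables false

namespace Pool.Agent.H851.UK

open Matrix Finset Module Pool.Agent.Y114.RM
open NumberField IsDedekindDomain Polynomial Pool.Agent.H851
open Pool.Agent.H851.K3 Pool.Agent.H851.KT Pool.Agent.H851.TT Pool.Agent.H851.ZD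
open Pool.Agent.H851.IN Pool.Agent.H851.KS Pool.Agent.H851.KD
open Pool.Agent.NH56.HY (GK IsFrobenius tw tw_apply chi_ne)
open Pool.Agent.H204R3.GP (FiniteIndexSemisimple)

section kill

variable {k : Type} [Field k] {V W : Type} [AddCommGroup V] [Module k V] [AddCommGroup W]
  [Module k W] {Γ : Type} [Group Γ] {r : Representation k Γ V} {σ : Representation k Γ W}

/-- elements of the Lie algebra and equivariant bilinear maps -/
theorem kill_gen {β : V →ₗ[k] V →ₗ[k] End k W} {Δ : Subgroup Γ} (hΔ : Δ.FiniteIndex)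
    (hβ : ∀ g ∈ Δ, ∀ x y, σ g * β x y = β (r g x) (r g y) * σ g) {Z : End k (V × W)}
    (hZ : Z ∈ LT (r.prod σ)) (x y : V) :
    blk2 Z * β x y = β (blk Z x) y + β x (blk Z y) + β x y * blk2 Z := by
  have hT : TateTensor (r.prod σ) (ten4 β) := by
    refine ⟨Δ, hΔ, fun g hg v => ?_⟩
    rw [ten4_apply, ten4_apply]
    change (v 3).2 ((r.prod σ) g⁻¹ (0, β (r g (v 0).1.1) (r g (v 1).1.1) (σ g (v 2).1.2))) =
      (v 3).2 (0, β (v 0).1.1 (v 1).1.1 (v 2).1.2)
    have h1 := LinearMap.congr_fun (hβ g hg (v 0).1.1 (v 1).1.1) (v 2).1.2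
    rw [Module.End.mul_apply, Module.End.mul_apply] at h1
    rw [ZD.prod_apply, map_zero, ← h1, ← Module.End.mul_apply (σ g⁻¹), ← map_mul, inv_mul_cancel,
      map_one, Module.End.one_apply]
  have h1 := hZ.2 _ _ hT
  refine LinearMap.ext fun w => ?_
  rw [← sub_eq_zero, ← Module.forall_dual_apply_eq_zero_iff k]
  intro ξ
  have h2 := h1 ![((x, 0), 0), ((y, 0), 0), ((0, w), 0), (0, ξ ∘ₗ LinearMap.snd k V W)]
  rw [Fin.sum_univ_four] at h2
  have g0 : ten4 β (Function.update ![((x, 0), 0), ((y, 0), 0), ((0, w), 0),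
      (0, ξ ∘ₗ LinearMap.snd k V W)] 0 (lie Z ((x, 0), 0))) = ξ (β (blk Z x) y w) := rfl
  have g1 : ten4 β (Function.update ![((x, 0), 0), ((y, 0), 0), ((0, w), 0),
      (0, ξ ∘ₗ LinearMap.snd k V W)] 1 (lie Z ((y, 0), 0))) = ξ (β x (blk Z y) w) := rfl
  have g2 : ten4 β (Function.update ![((x, 0), 0), ((y, 0), 0), ((0, w), 0),
      (0, ξ ∘ₗ LinearMap.snd k V W)] 2 (lie Z ((0, w), 0))) = ξ (β x y (blk2 Z w)) := rfl
  have g3 : ten4 β (Function.update ![((x, 0), 0), ((y, 0), 0), ((0, w), 0),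
      (0, ξ ∘ₗ LinearMap.snd k V W)] 3 (lie Z (0, ξ ∘ₗ LinearMap.snd k V W))) =
      -ξ (blk2 Z (β x y w)) := rfl
  change ten4 β (Function.update _ 0 (lie Z ((x, 0), 0))) +
    ten4 β (Function.update _ 1 (lie Z ((y, 0), 0))) +
    ten4 β (Function.update _ 2 (lie Z ((0, w), 0))) +
    ten4 β (Function.update _ 3 (lie Z (0, ξ ∘ₗ LinearMap.snd k V W))) = 0 at h2
  rw [g0, g1, g2, g3] at h2
  rw [map_sub]
  change ξ (blk2 Z (β x y w)) - ξ (β (blk Z x) y w + β x (blk Z y) w + β x y (blk2 Z w)) = 0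
  rw [map_add, map_add]
  have h3 : ξ (blk2 Z (β x y w)) - (ξ (β (blk Z x) y w) + ξ (β x (blk Z y) w) +
      ξ (β x y (blk2 Z w))) = -(ξ (β (blk Z x) y w) + ξ (β x (blk Z y) w) +
      ξ (β x y (blk2 Z w)) + -ξ (blk2 Z (β x y w))) := by ring
  rw [h3, h2, neg_zero]

end kill

section rel

variable {C A D : Type} [Field C] [CharZero C] [AddCommGroup A] [Module C A] [Ring D] [Algebra C D]
  {B : A →ₗ[C] A →ₗ[C] C} {T : Submodule C A} {P : D} {F : A →ₗ[C] A →ₗ[C] D}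

/-- the bracket of products of two vectors -/
theorem ClRel.bracket (hs : ∀ x y, B x y = B y x) (h : ClRel B T P F) {x y u v : A} (hx : x ∈ T)
    (hy : y ∈ T) (hu : u ∈ T) (hv : v ∈ T) :
    F x y * F u v - F u v * F x y = (-2 : C) • (F (wdg B x y u) v + F u (wdg B x y v)) := by
  have e1 := h.mul x hx y hy u hu v hv
  have e2 := h.mul u hu v hv x hx y hy
  have e3 := h.pol x hx u hu
  have e4 := h.pol y hy v hv
  have f1 : F x y * F u v = (2 * B y u) • F x v - F x u * F y v := eq_sub_of_add_eq e1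
  have f2 : F u v * F x y = (2 * B v x) • F u y - F u x * F v y := eq_sub_of_add_eq e2
  have f3 : F x u = (2 * B x u) • P - F u x := eq_sub_of_add_eq e3
  have f4 : F v y = (2 * B y v) • P - F y v := by
    rw [add_comm] at e4
    exact eq_sub_of_add_eq e4
  have f5 : F u x * F v y = (2 * B y v) • F u x - F u x * F y v := by
    rw [f4, mul_sub, mul_smul_comm, h.right]
  have f6 : F x u * F y v = (2 * B x u) • F y v - F u x * F y v := by
    rw [f3, sub_mul, smul_mul_assoc, h.left]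
  rw [f1, f2, f5, f6, wdg_apply, wdg_apply, map_sub, map_smul, map_smul, LinearMap.sub_apply,
    LinearMap.smul_apply, LinearMap.smul_apply, map_sub, map_smul, map_smul, hs v x]
  module

end rel

section absl

/-- the span of the products of two vectors -/
def spanF {k V D : Type} [Field k] [AddCommGroup V] [Module k V] [AddCommGroup D] [Module k D]
    (T : Submodule k V) (F : V →ₗ[k] V →ₗ[k] D) : Submodule k D :=
  Submodule.span k {Z | ∃ x ∈ T, ∃ y ∈ T, F x y = Z}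

variable {k V W : Type} [Field k] [CharZero k] [AddCommGroup V] [Module k V] [AddCommGroup W]
  [Module k W] {B : V →ₗ[k] V →ₗ[k] k} {T : Submodule k V} {P : End k W}
  {F : V →ₗ[k] V →ₗ[k] End k W}

theorem span_left (h : ClRel B T P F) {Z : End k W} (hZ : Z ∈ spanF T F) : P * Z = Z := by
  induction hZ using Submodule.span_induction with
  | mem z hz =>
    obtain ⟨x, -, y, -, rfl⟩ := hz
    exact h.left x y
  | zero => rw [mul_zero]
  | add z w _ _ h1 h2 => rw [mul_add, h1, h2]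
  | smul c z _ h1 => rw [mul_smul_comm, h1]

theorem span_right (h : ClRel B T P F) {Z : End k W} (hZ : Z ∈ spanF T F) : Z * P = Z := by
  induction hZ using Submodule.span_induction with
  | mem z hz =>
    obtain ⟨x, -, y, -, rfl⟩ := hz
    exact h.right x y
  | zero => rw [zero_mul]
  | add z w _ _ h1 h2 => rw [add_mul, h1, h2]
  | smul c z _ h1 => rw [smul_mul_assoc, h1]

theorem span_comm {Z b : End k W} (hb : ∀ x ∈ T, ∀ y ∈ T, F x y * b = b * F x y)
    (hZ : Z ∈ spanF T F) : Z * b = b * Z := by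
  induction hZ using Submodule.span_induction with
  | mem z hz =>
    obtain ⟨x, hx, y, hy, rfl⟩ := hz
    exact hb x hx y hy
  | zero => rw [mul_zero, zero_mul]
  | add z w _ _ h1 h2 => rw [mul_add, add_mul, h1, h2]
  | smul c z _ h1 => rw [smul_mul_assoc, mul_smul_comm, h1]

/-- the products of two basis vectors satisfy the relations -/
theorem ClRel.isCl (h : ClRel B T P F) {r : ℕ} {e : Fin (2 * r + 1) → V}
    {a : Fin (2 * r + 1) → k} (he : ∀ s, e s ∈ T) (hee : ∀ s, B (e s) (e s) = a s)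
    (hne : ∀ s t, s ≠ t → B (e s) (e t) = 0) : IsCl a P (fun s t => F (e s) (e t)) := by
  refine ⟨h.idem, fun s t => h.left _ _, fun s t => h.right _ _, fun s => ?_,
    fun s t hst => ?_, fun s t u => ?_⟩
  · rw [h.sq (he s), hee]
  · have h1 := h.pol _ (he s) _ (he t)
    rw [hne s t hst, mul_zero, zero_smul] at h1
    exact eq_neg_of_add_eq_zero_left h1
  · have h1 := h.mul _ (he s) _ (he t) _ (he t) _ (he u)
    rw [← two_smul k, mul_smul] at h1
    have h2 := smul_right_injective _ (two_ne_zero (α := k)) h1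
    rw [h2, hee]

theorem lie_abs (h : ClRel B T P F) {r : ℕ} {e : Fin (2 * r + 1) → V} {a : Fin (2 * r + 1) → k}
    (he : ∀ s, e s ∈ T) (hee : ∀ s, B (e s) (e s) = a s) (hne : ∀ s t, s ≠ t → B (e s) (e t) = 0)
    (ha : ∀ s, a s ≠ 0)
    (hgen : ∀ b : End k W, (∀ s t, F (e s) (e t) * b = b * F (e s) (e t)) →
      ∀ x ∈ T, ∀ y ∈ T, F x y * b = b * F x y) {X : End k V} {Y Z : End k W}
    (hZ : Z ∈ spanF T F)
    (hZb : ∀ u ∈ T, ∀ v ∈ T, Z * F u v - F u v * Z = F (X u) v + F u (X v))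
    (hYb : ∀ u ∈ T, ∀ v ∈ T, Y * F u v = F (X u) v + F u (X v) + F u v * Y)
    (hYP : Y * P = P * Y)
    (hYc : ∀ b : End k W, P * b = b → b * P = b → (∀ x ∈ T, ∀ y ∈ T, F x y * b = b * F x y) →
      Y * b = b * Y) : Y * P ∈ spanF T F := by
  have hPZ := span_left h hZ
  have hZP := span_right h hZ
  have hcomm : ∀ u ∈ T, ∀ v ∈ T, (Y * P - Z) * F u v = F u v * (Y * P - Z) := by
    intro u hu v hv
    have e1 : Z * F u v = F (X u) v + F u (X v) + F u v * Z := by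
      rw [← hZb u hu v hv]
      abel
    rw [sub_mul, mul_sub, mul_assoc, h.left, hYb u hu v hv, e1, hYP, ← mul_assoc (F u v) P,
      h.right]
    abel
  obtain ⟨c, hc⟩ := (h.isCl he hee hne).scalar ha (c := Y * P - Z)
    (by rw [mul_sub, hPZ, ← mul_assoc, ← hYP, mul_assoc, h.idem])
    (by rw [sub_mul, hZP, mul_assoc, h.idem])
    (fun s t => hcomm _ (he s) _ (he t))
    (fun b b1 b2 b3 => by
      have hb := hgen b b3
      rw [sub_mul, mul_sub, span_comm hb hZ, mul_assoc, b1, hYc b b1 b2 hb, hYP, ← mul_assoc b P,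
        b2])
  have h1 : Y * P = Z + c • P := by rw [← hc, add_sub_cancel]
  have h2 : P ∈ spanF T F := by
    have h3 : F (e 0) (e 0) ∈ spanF T F := Submodule.subset_span ⟨_, he 0, _, he 0, rfl⟩
    rw [h.sq (he 0), hee] at h3
    have h4 := Submodule.smul_mem _ (a 0)⁻¹ h3
    rwa [smul_smul, inv_mul_cancel₀ (ha 0), one_smul] at h4
  rw [h1]
  exact Submodule.add_mem _ hZ (Submodule.smul_mem _ _ h2)

end absl

section main

variable {K : Type} [Field K] [NumberField K] {ℓ : ℕ} [hℓ : Fact ℓ.Prime] {n : Type}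
    [Fintype n] [DecidableEq n] {q : Matrix n n ℚ_[ℓ]} {S : Finset ℕ} {χ : GK K →* ℚ_[ℓ]}
    {Pol : HeightOneSpectrum (𝓞 K) → ℤ[X]} {ρ : GK K →* Matrix n n ℚ_[ℓ]} {m : Type}
    [Fintype m] [DecidableEq m] {σ : GK K →* Matrix m m ℚ_[ℓ]}
    {a : Fin (finrank ℚ_[ℓ] (orth q (tate χ ρ))) → ℚ_[ℓ]}
    {U : Matrix n (Fin (finrank ℚ_[ℓ] (orth q (tate χ ρ)))) ℚ_[ℓ]}
    {W' : Matrix (Fin (finrank ℚ_[ℓ] (orth q (tate χ ρ)))) n ℚ_[ℓ]}
    {W : Type} [AddCommGroup W] [Module ℚ_[ℓ] W] [FiniteDimensional ℚ_[ℓ] W]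

/-- the lift of an element of the Lie algebra of `V(1)` -/
theorem exists_lift (h : IsK3Type q S χ Pol ρ)
    (Fr : Frame q (tateLie χ ρ) (orth q (tate χ ρ)) a U W') {P : End ℚ_[ℓ] W}
    {β : (n → ℚ_[ℓ]) →ₗ[ℚ_[ℓ]] (n → ℚ_[ℓ]) →ₗ[ℚ_[ℓ]] End ℚ_[ℓ] W}
    (hcl : ClRel (form q) (orth q (tate χ ρ)) P β) {X : End ℚ_[ℓ] (n → ℚ_[ℓ])}
    (hX : X ∈ lieE χ ρ) : ∃ Z ∈ spanF (orth q (tate χ ρ)) β,
      ∀ u ∈ orth q (tate χ ρ), ∀ v ∈ orth q (tate χ ρ),
        Z * β u v - β u v * Z = β (X u) v + β u (X v) := by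
  let I : Submodule ℚ_[ℓ] (End ℚ_[ℓ] (n → ℚ_[ℓ])) :=
    { carrier := {X | ∃ Z ∈ spanF (orth q (tate χ ρ)) β,
        ∀ u ∈ orth q (tate χ ρ), ∀ v ∈ orth q (tate χ ρ),
          Z * β u v - β u v * Z = β (X u) v + β u (X v)}
      zero_mem' := ⟨0, Submodule.zero_mem _, fun u _ v _ => by
        rw [zero_mul, mul_zero, LinearMap.zero_apply, LinearMap.zero_apply, map_zero,
          LinearMap.zero_apply, map_zero, add_zero, sub_zero]⟩
      add_mem' := fun {X Y} hX hY => by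
        obtain ⟨Z, hZ, h1⟩ := hX
        obtain ⟨Z', hZ', h2⟩ := hY
        refine ⟨Z + Z', Submodule.add_mem _ hZ hZ', fun u hu v hv => ?_⟩
        rw [add_mul, mul_add, add_sub_add_comm, h1 u hu v hv, h2 u hu v hv, LinearMap.add_apply,
          LinearMap.add_apply, map_add, map_add, LinearMap.add_apply]
        abel
      smul_mem' := fun c X hX => by
        obtain ⟨Z, hZ, h1⟩ := hX
        refine ⟨c • Z, Submodule.smul_mem _ c hZ, fun u hu v hv => ?_⟩
        rw [smul_mul_assoc, mul_smul_comm, ← smul_sub, h1 u hu v hv, LinearMap.smul_apply,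
          LinearMap.smul_apply, map_smul, map_smul, LinearMap.smul_apply, smul_add] }
  refine lieE_span (I := I) h Fr (fun x hx y hy => ?_) hX
  refine ⟨(-2⁻¹ : ℚ_[ℓ]) • β x y, Submodule.smul_mem _ _ (Submodule.subset_span ⟨x, hx, y, hy, rfl⟩),
    fun u hu v hv => ?_⟩
  rw [smul_mul_assoc, mul_smul_comm, ← smul_sub, hcl.bracket (form_symm h.symm) hx hy hu hv,
    smul_smul]
  have h1 : (-2⁻¹ : ℚ_[ℓ]) * -2 = 1 := by norm_num
  rw [h1, one_smul]

/-- elements of the Lie algebra commute with the Tate endomorphisms -/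
theorem lie_comm (h : IsK3Type q S χ Pol ρ)
    (Fr : Frame q (tateLie χ ρ) (orth q (tate χ ρ)) a U W')
    (hd3 : 3 ≤ finrank ℚ_[ℓ] (orth q (tate χ ρ))) {τ : Representation ℚ_[ℓ] (GK K) W}
    {Δ : Subgroup (GK K)} (hΔ : Δ.FiniteIndex) {b : End ℚ_[ℓ] W}
    (hb : ∀ g ∈ Δ, τ g * b = b * τ g) {Z : End ℚ_[ℓ] ((n → ℚ_[ℓ]) × W)}
    (hZ : Z ∈ LT ((rep χ ρ).prod τ)) : blk2 Z * b = b * blk2 Z := by
  obtain ⟨s, t, -⟩ := exists_two hd3
  have hsk : Skew (form q) (blk Z) := skew_blk τ h hZ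
  have h1 := kill_gen (β := (form q).compr₂ ((LinearMap.id : ℚ_[ℓ] →ₗ[ℚ_[ℓ]] ℚ_[ℓ]).smulRight b))
    hΔ (fun g hg x y => by
      change τ g * (form q x y • b) = form q (rep χ ρ g x) (rep χ ρ g y) • b * τ g
      rw [form_rep h, mul_smul_comm, smul_mul_assoc, hb g hg]) hZ (ev U s) (ev U s)
  change blk2 Z * (form q (ev U s) (ev U s) • b) = form q (blk Z (ev U s)) (ev U s) • b +
    form q (ev U s) (blk Z (ev U s)) • b + form q (ev U s) (ev U s) • b * blk2 Z at h1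
  rw [hsk, neg_smul, neg_add_cancel, zero_add, ev_self Fr, mul_smul_comm, smul_mul_assoc] at h1
  exact smul_right_injective _ (Fr.ne s) h1

/-- **The Lie algebra acts through products of two vectors.** -/
theorem lie_clifford (h : IsK3Type q S χ Pol ρ) (hss : Semisimple ρ) (hc : ScalarEnds q χ ρ)
    (hd3 : 3 ≤ finrank ℚ_[ℓ] (orth q (tate χ ρ)))
    (hodd : Odd (finrank ℚ_[ℓ] (orth q (tate χ ρ)))) {j : ℤ} (hw : WeightOneAt j σ)
    {Δ₀ : Subgroup (GK K)} (hΔ₀ : IsOpen (Δ₀ : Set (GK K))) {P : Matrix m m ℚ_[ℓ]}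
    {ψ : (n → ℚ_[ℓ]) → (n → ℚ_[ℓ]) → Matrix m m ℚ_[ℓ]} (p : IsKugaSatake q χ ρ σ Δ₀ P ψ)
    {X : Matrix n n ℚ_[ℓ]} {Y : Matrix m m ℚ_[ℓ]} (hXY : InLie χ ρ σ X Y) :
    Y * P ∈ Submodule.span ℚ_[ℓ] {Z | ∃ x ∈ orth q (tate χ ρ), ∃ y ∈ orth q (tate χ ρ),
      ψ x y = Z} := by
  obtain ⟨a, U, W', Fr⟩ := exists_frame h hss hc
  obtain ⟨β, hβ, hcl, heq⟩ := rel_of h.symm p
  have hcomp : CompactSpace (GK K) := inferInstance
  have hfi : ∀ {Δ : Subgroup (GK K)}, IsOpen (Δ : Set (GK K)) → Δ.FiniteIndex := by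
    intro Δ hΔ
    have hfin : Finite (GK K ⧸ Δ) := Subgroup.quotient_finite_of_isOpen _ hΔ
    exact Subgroup.finiteIndex_of_finite_quotient
  have hZ : (Matrix.toLin' X).prodMap (Matrix.toLin' Y) ∈ LT ((rep χ ρ).prod (matRep σ)) := hXY
  have hX : Matrix.toLin' X ∈ lieE χ ρ := lieE_of_lt (blk_mem hZ)
  obtain ⟨Z, hZs, hZb⟩ := exists_lift h Fr hcl hX
  obtain ⟨r, hr⟩ := hodd
  have hmul : ∀ A B : Matrix m m ℚ_[ℓ], Matrix.toLin' A * Matrix.toLin' B =
      Matrix.toLin' (A * B) := fun A B => (Matrix.toLin'_mul A B).symm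
  obtain ⟨Δ, hΔ, hmaps⟩ := uk_maps h hss hc hd3 hw hw Δ₀ Δ₀ P ψ P ψ hΔ₀ hΔ₀ p p
  have key := lie_abs hcl (e := fun s => ev U (Fin.cast hr.symm s))
    (a := fun s => a (Fin.cast hr.symm s)) (fun s => ev_mem Fr _) (fun s => ev_self Fr _)
    (fun s t hst => ev_ne Fr (fun h' => hst (Fin.cast_injective _ h'))) (fun s => Fr.ne _)
    (fun b hb y hy z hz => by
      have hb' : ∀ s t, β (ev U s) (ev U t) * b = b * β (ev U s) (ev U t) := fun s t =>
        hb (Fin.cast hr s) (Fin.cast hr t)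
      rw [ev_sum Fr hy, ev_sum Fr hz]
      refine LinearMap.ext fun w => ?_
      have l4 : ∀ s t, β (ev U s) (ev U t) (b w) = b (β (ev U s) (ev U t) w) := fun s t =>
        LinearMap.congr_fun (hb' s t) w
      simp only [Module.End.mul_apply, map_sum, LinearMap.sum_apply, map_smul,
        LinearMap.smul_apply, l4]) hZs hZb
    (fun u _ v _ => kill_gen (hfi hΔ₀) heq hZ u v)
    (lie_comm h Fr hd3 (hfi hΔ₀) (fun g hg => proj_comm h Fr hd3 hcl (heq g hg)) hZ)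
    (fun b b1 b2 b3 => lie_comm h Fr hd3 (hfi hΔ) (fun g hg => by
      have h1 := hmaps (LinearMap.toMatrix' b) ⟨?_, ?_, ?_⟩ g hg
      · have h2 := congrArg Matrix.toLin' h1
        rw [← hmul, ← hmul, Matrix.toLin'_toMatrix'] at h2
        exact h2
      · refine Matrix.toLin'.injective ?_
        rw [← hmul, Matrix.toLin'_toMatrix', b1]
      · refine Matrix.toLin'.injective ?_
        rw [← hmul, Matrix.toLin'_toMatrix', b2]
      · intro x hx y hy
        refine Matrix.toLin'.injective ?_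
        rw [← hmul, ← hmul, Matrix.toLin'_toMatrix', ← hβ, b3 x hx y hy]) hZ)
  change Matrix.toLin' Y * Matrix.toLin' P ∈ spanF (orth q (tate χ ρ)) β at key
  rw [hmul] at key
  have h1 : (spanF (orth q (tate χ ρ)) β).map
      (Matrix.toLin' : Matrix m m ℚ_[ℓ] ≃ₗ[ℚ_[ℓ]] _).symm.toLinearMap ≤
      Submodule.span ℚ_[ℓ] {Z | ∃ x ∈ orth q (tate χ ρ), ∃ y ∈ orth q (tate χ ρ), ψ x y = Z} := by
    rw [spanF, Submodule.map_span, Submodule.span_le]
    rintro _ ⟨_, ⟨x, hx, y, hy, rfl⟩, rfl⟩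
    refine Submodule.subset_span ⟨x, hx, y, hy, ?_⟩
    rw [hβ]
    exact (LinearEquiv.symm_apply_apply _ _).symm
  refine h1 ⟨_, key, ?_⟩
  exact LinearEquiv.symm_apply_apply _ _

/-- **The Lie algebra of the Kuga-Satake part.** -/
theorem lie_main (h : IsK3Type q S χ Pol ρ) (hss : Semisimple ρ) (hc : ScalarEnds q χ ρ)
    (hd3 : 3 ≤ finrank ℚ_[ℓ] (orth q (tate χ ρ)))
    (hodd : Odd (finrank ℚ_[ℓ] (orth q (tate χ ρ)))) {j : ℤ} (hw : WeightOneAt j σ) :
    ∃ (P : Matrix m m ℚ_[ℓ]) (ψ : (n → ℚ_[ℓ]) → (n → ℚ_[ℓ]) → Matrix m m ℚ_[ℓ]),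
      IsKugaSatake q χ ρ σ ⊤ P ψ ∧ (P = 0 ↔ Independent χ ρ σ) ∧ LieOf q χ ρ σ P ψ ∧
        ActsThroughProducts q χ ρ σ P ψ := by
  obtain ⟨P, ψ, p, hl, -, htfae⟩ := ks_main h hss hc hd3 hw.semisimple hw.rep
  exact ⟨P, ψ, p, htfae.out 0 1, hl, fun X Y hXY =>
    lie_clifford h hss hc hd3 hodd hw (Δ₀ := ⊤) isOpen_univ p hXY⟩

end main

end Pool.Agent.H851.UK
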