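import Mathlib
import Pool.Agent.H851.UK.Lie

/-!
# The Lie algebra and equivariant linear maps to the endomorphisms
-/

set_option autoImplicit false
set_option linter.unusedSectionVars false
set_option linter.unusedVariables false

namespace Pool.Agent.H851.UK

open Matrix Finset Module Pool.Agent.Y114.RM
open NumberField IsDedekindDomain Polynomial Pool.Agent.H851
open Pool.Agent.H851.K3 Pool.Agent.H851.KT Pool.Agent.H851.TT Pool.Agent.H851.ZD
open Pool.Agent.H851.IN Pool.Agent.H851.KS Pool.Agent.H851.KD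

section ten

variable {k : Type} [Field k] {V W : Type} [AddCommGroup V] [Module k V] [AddCommGroup W]
  [Module k W]

/-- a linear map with values in the endomorphisms of `W`, as a tensor on `V ⊕ W` -/
def ten3 (β : V →ₗ[k] End k W) : Tensor k (V × W) 3 where
  toFun v := (v 2).2 (LinearMap.inr k V W (β (v 0).1.1 (v 1).1.2))
  map_update_add' := by
    intro inst v i x y
    obtain rfl : inst = instDecidableEqFin 3 := Subsingleton.elim _ _
    match i with
    | 0 =>
      change (v 2).2 (LinearMap.inr k V W (β (x.1.1 + y.1.1) (v 1).1.2)) =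
        (v 2).2 (LinearMap.inr k V W (β x.1.1 (v 1).1.2)) +
        (v 2).2 (LinearMap.inr k V W (β y.1.1 (v 1).1.2))
      rw [map_add, LinearMap.add_apply, map_add, map_add]
    | 1 =>
      change (v 2).2 (LinearMap.inr k V W (β (v 0).1.1 (x.1.2 + y.1.2))) =
        (v 2).2 (LinearMap.inr k V W (β (v 0).1.1 x.1.2)) +
        (v 2).2 (LinearMap.inr k V W (β (v 0).1.1 y.1.2))
      rw [map_add, map_add, map_add]
    | 2 => rfl
  map_update_smul' := by
    intro inst v i c x
    obtain rfl : inst = instDecidableEqFin 3 := Subsingleton.elim _ _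
    match i with
    | 0 =>
      change (v 2).2 (LinearMap.inr k V W (β (c • x.1.1) (v 1).1.2)) =
        c • (v 2).2 (LinearMap.inr k V W (β x.1.1 (v 1).1.2))
      rw [map_smul, LinearMap.smul_apply, map_smul, map_smul]
    | 1 =>
      change (v 2).2 (LinearMap.inr k V W (β (v 0).1.1 (c • x.1.2))) =
        c • (v 2).2 (LinearMap.inr k V W (β (v 0).1.1 x.1.2))
      rw [map_smul, map_smul, map_smul]
    | 2 => rfl

theorem ten3_apply (β : V →ₗ[k] End k W)
    (v : Fin 3 → (V × W) × Dual k (V × W)) :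
    ten3 β v = (v 2).2 (LinearMap.inr k V W (β (v 0).1.1 (v 1).1.2)) := rfl

variable {Γ : Type} [Group Γ] {r : Representation k Γ V} {σ : Representation k Γ W}

/-- elements of the Lie algebra and equivariant linear maps -/
theorem kill_lin {β : V →ₗ[k] End k W} {Δ : Subgroup Γ} (hΔ : Δ.FiniteIndex)
    (hβ : ∀ g ∈ Δ, ∀ x, σ g * β x = β (r g x) * σ g) {Z : End k (V × W)}
    (hZ : Z ∈ LT (r.prod σ)) (x : V) : blk2 Z * β x = β (blk Z x) + β x * blk2 Z := by
  have hT : TateTensor (r.prod σ) (ten3 β) := by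
    refine ⟨Δ, hΔ, fun g hg v => ?_⟩
    rw [ten3_apply, ten3_apply]
    change (v 2).2 ((r.prod σ) g⁻¹ (0, β (r g (v 0).1.1) (σ g (v 1).1.2))) =
      (v 2).2 (0, β (v 0).1.1 (v 1).1.2)
    have h1 := LinearMap.congr_fun (hβ g hg (v 0).1.1) (v 1).1.2
    rw [Module.End.mul_apply, Module.End.mul_apply] at h1
    rw [ZD.prod_apply, map_zero, ← h1, ← Module.End.mul_apply (σ g⁻¹), ← map_mul, inv_mul_cancel,
      map_one, Module.End.one_apply]
  have h1 := hZ.2 _ _ hT
  refine LinearMap.ext fun w => ?_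
  rw [← sub_eq_zero, ← Module.forall_dual_apply_eq_zero_iff k]
  intro ξ
  have h2 := h1 ![((x, 0), 0), ((0, w), 0), (0, ξ ∘ₗ LinearMap.snd k V W)]
  rw [Fin.sum_univ_three] at h2
  have g0 : ten3 β (Function.update ![((x, 0), 0), ((0, w), 0),
      (0, ξ ∘ₗ LinearMap.snd k V W)] 0 (lie Z ((x, 0), 0))) = ξ (β (blk Z x) w) := rfl
  have g1 : ten3 β (Function.update ![((x, 0), 0), ((0, w), 0),
      (0, ξ ∘ₗ LinearMap.snd k V W)] 1 (lie Z ((0, w), 0))) = ξ (β x (blk2 Z w)) := rfl
  have g2 : ten3 β (Function.update ![((x, 0), 0), ((0, w), 0),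
      (0, ξ ∘ₗ LinearMap.snd k V W)] 2 (lie Z (0, ξ ∘ₗ LinearMap.snd k V W))) =
      -ξ (blk2 Z (β x w)) := rfl
  change ten3 β (Function.update _ 0 (lie Z ((x, 0), 0))) +
    ten3 β (Function.update _ 1 (lie Z ((0, w), 0))) +
    ten3 β (Function.update _ 2 (lie Z (0, ξ ∘ₗ LinearMap.snd k V W))) = 0 at h2
  rw [g0, g1, g2] at h2
  rw [map_sub]
  change ξ (blk2 Z (β x w)) - ξ (β (blk Z x) w + β x (blk2 Z w)) = 0
  rw [map_add]
  have h3 : ξ (blk2 Z (β x w)) - (ξ (β (blk Z x) w) + ξ (β x (blk2 Z w))) =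
      -(ξ (β (blk Z x) w) + ξ (β x (blk2 Z w)) + -ξ (blk2 Z (β x w))) := by ring
  rw [h3, h2, neg_zero]

end ten

end Pool.Agent.H851.UK
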