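import Mathlib
import Pool.Agent.H851.UK.Cor
import Pool.Agent.H851.UK.Ten3

/-!
# The vector representation in the even Clifford algebra, in odd dimension
-/

set_option autoImplicit false
set_option linter.unusedSectionVars false
set_option linter.unusedVariables false

namespace Pool.Agent.H851.UK

open Module

section

variable {k V W : Type} [Field k] [CharZero k] [AddCommGroup V] [Module k V] [AddCommGroup W]
  [Module k W] {B : V →ₗ[k] V →ₗ[k] k} {T : Submodule k V} {P : End k W}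
  {F : V →ₗ[k] V →ₗ[k] End k W} {r : ℕ} {e : Fin (2 * r + 1) → V} {a : Fin (2 * r + 1) → k}

/-- the square root of the products of two vectors -/
theorem exists_root (h : ClRel B T P F) (he : ∀ s, e s ∈ T) (hee : ∀ s, B (e s) (e s) = a s)
    (hne : ∀ s t, s ≠ t → B (e s) (e t) = 0) (ha : ∀ s, a s ≠ 0)
    (hsp : ∀ x ∈ T, ∃ c : Fin (2 * r + 1) → k, x = ∑ s, c s • e s) :
    ∃ (θ : V →ₗ[k] End k W) (c : k), c ≠ 0 ∧ (∀ x, P * θ x = θ x ∧ θ x * P = θ x) ∧
      (∀ x ∈ T, ∀ y ∈ T, θ x * θ y = c • F x y) ∧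
      ∀ b : End k W, b * P = P * b → (∀ x ∈ T, ∀ y ∈ T, F x y * b = b * F x y) →
        ∀ x ∈ T, θ x * b = b * θ x := by
  have hCl := h.isCl he hee hne
  obtain ⟨z, δ, hδ, z1, z2, z3, -, z5, z6⟩ := hCl.prodw ha (2 * r) le_rfl
  have hz : ∀ s, z * F (e s) (e 0) = F (e 0) (e s) * z := by
    intro s
    by_cases hs : s = 0
    · subst hs
      rw [h.sq (he 0), mul_smul_comm, smul_mul_assoc, z2, z1]
    · have h1 := z5 s hs (by omega)
      rw [pow_succ, pow_mul, neg_one_sq, one_pow, one_mul, neg_one_smul] at h1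
      have h2 := hCl.anti s 0 hs
      change F (e s) (e 0) = -F (e 0) (e s) at h2
      change F (e 0) (e s) * z = -(z * F (e 0) (e s)) at h1
      rw [h2, mul_neg, h1]
  have hz' : ∀ y ∈ T, z * F y (e 0) = F (e 0) y * z := by
    intro y hy
    obtain ⟨c, rfl⟩ := hsp y hy
    simp only [map_sum, LinearMap.sum_apply, map_smul, LinearMap.smul_apply, Finset.mul_sum,
      Finset.sum_mul, mul_smul_comm, smul_mul_assoc, hz]
  let θ : V →ₗ[k] End k W := (a 0)⁻¹ • ((LinearMap.mulRight k z) ∘ₗ (F.flip (e 0)))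
  have hθ : ∀ x, θ x = (a 0)⁻¹ • (F x (e 0) * z) := fun x => rfl
  refine ⟨θ, (a 0)⁻¹ * δ, mul_ne_zero (inv_ne_zero (ha 0)) hδ, fun x => ⟨?_, ?_⟩,
    fun x hx y hy => ?_, fun b hb1 hb2 x hx => ?_⟩
  · rw [hθ, mul_smul_comm, ← mul_assoc, h.left]
  · rw [hθ, smul_mul_assoc, mul_assoc, z2]
  · have h1 := h.mul x hx (e 0) (he 0) (e 0) (he 0) y hy
    rw [← two_smul k, mul_smul] at h1
    have h2 := smul_right_injective _ (two_ne_zero (α := k)) h1
    have e1 : F x (e 0) * z * (F y (e 0) * z) = (a 0 * δ) • F x y := by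
      calc F x (e 0) * z * (F y (e 0) * z) = F x (e 0) * (z * F y (e 0)) * z := by
            simp only [mul_assoc]
        _ = F x (e 0) * F (e 0) y * (z * z) := by rw [hz' y hy]; simp only [mul_assoc]
        _ = _ := by
            rw [z3]
            change F x (e 0) * F (e 0) y = B (e 0) (e 0) • F x y at h2
            rw [h2, hee, smul_mul_assoc, mul_smul_comm, h.right, smul_smul]
    rw [hθ, hθ, smul_mul_assoc, mul_smul_comm, e1, smul_smul, smul_smul]
    congr 1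
    have := ha 0
    field_simp
  · have h1 := z6 b hb1 fun s t => (hb2 _ (he s) _ (he t)).symm
    rw [hθ, smul_mul_assoc, mul_smul_comm, mul_assoc, ← h1, ← mul_assoc, hb2 x hx _ (he 0),
      mul_assoc]

/-- two maps which are square roots of the same products differ by an element of the commutant -/
theorem root_mult (h : ClRel B T P F) (hs : ∀ x y, B x y = B y x) (he : ∀ s, e s ∈ T)
    (hee : ∀ s, B (e s) (e s) = a s) (hne : ∀ s t, s ≠ t → B (e s) (e t) = 0)
    (ha : ∀ s, a s ≠ 0) (hsp : ∀ x ∈ T, ∃ c : Fin (2 * r + 1) → k, x = ∑ s, c s • e s)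
    (hr : 1 ≤ r) {θ : V →ₗ[k] End k W} {c : k} (hc : c ≠ 0)
    (hP : ∀ x ∈ T, P * θ x = θ x ∧ θ x * P = θ x)
    (hθ : ∀ x ∈ T, ∀ y ∈ T, θ x * θ y = c • F x y) {φ : V →ₗ[k] End k W}
    (hφ : Eqv a (fun s t => F (e s) (e t)) (fun s => φ (e s))) :
    ∃ M : End k W, P * M = M ∧ M * P = M ∧ (∀ x ∈ T, ∀ y ∈ T, F x y * M = M * F x y) ∧
      ∀ x ∈ T, φ x = M * θ x := by
  have hCl := h.isCl he hee hne
  have hT := (teqv_of_sq h hs hc hθ hP).eqv he hee hne
  have h0 : θ (e 0) * θ (e 0) = (c * a 0) • P := by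
    rw [hθ _ (he 0) _ (he 0), h.sq (he 0), hee, smul_smul]
  obtain ⟨M, m1, m2, m3, m4⟩ := hφ.mult hT hCl ha hr (mul_ne_zero hc (ha 0)) h0
  refine ⟨M, m1, m2, fun x hx y hy => ?_, fun x hx => ?_⟩
  · obtain ⟨c, rfl⟩ := hsp x hx
    obtain ⟨c', rfl⟩ := hsp y hy
    simp only [map_sum, LinearMap.sum_apply, map_smul, LinearMap.smul_apply, Finset.mul_sum,
      Finset.sum_mul, mul_smul_comm, smul_mul_assoc, m3]
  · obtain ⟨c, rfl⟩ := hsp x hx
    simp only [map_sum, map_smul, Finset.mul_sum, mul_smul_comm, m4]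

/-- **The sign.** -/
theorem root_sign (h : ClRel B T P F) (hs : ∀ x y, B x y = B y x) (he : ∀ s, e s ∈ T)
    (hee : ∀ s, B (e s) (e s) = a s) (hne : ∀ s t, s ≠ t → B (e s) (e t) = 0)
    (ha : ∀ s, a s ≠ 0) (hsp : ∀ x ∈ T, ∃ c : Fin (2 * r + 1) → k, x = ∑ s, c s • e s)
    (hr : 1 ≤ r) {θ : V →ₗ[k] End k W} {c : k} (hc : c ≠ 0)
    (hP : ∀ x, P * θ x = θ x ∧ θ x * P = θ x)
    (hθ : ∀ x ∈ T, ∀ y ∈ T, θ x * θ y = c • F x y)
    (hθc : ∀ b : End k W, b * P = P * b → (∀ x ∈ T, ∀ y ∈ T, F x y * b = b * F x y) →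
        ∀ x ∈ T, θ x * b = b * θ x) {S S' : End k W} (hS : S * S' = 1) (hS' : S' * S = 1)
    (hSP : S * P = P * S) {R : V →ₗ[k] V} (hR : ∀ x ∈ T, R x ∈ T)
    (hF : ∀ x ∈ T, ∀ y ∈ T, S * F (R x) (R y) = F x y * S)
    (hN : ∀ N : End k W, P * N = N → N * P = N → (∀ x ∈ T, ∀ y ∈ T, F x y * N = N * F x y) →
      S * N = N * S) :
    (∀ x ∈ T, S * θ (R x) = θ x * S) ∨ ∀ x ∈ T, S * θ (R x) = -(θ x * S) := by
  by_cases hP0 : P = 0
  · left
    intro x _
    rw [← (hP (R x)).1, ← (hP x).1, hP0, zero_mul, zero_mul, mul_zero, zero_mul]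
  let φ : V →ₗ[k] End k W := LinearMap.mulLeft k S ∘ₗ LinearMap.mulRight k S' ∘ₗ θ ∘ₗ R
  have hφ : ∀ x, φ x = S * (θ (R x) * S') := fun x => rfl
  have hS'P : S' * P = P * S' := by
    calc S' * P = S' * (P * S) * S' := by rw [mul_assoc, mul_assoc, hS, mul_one]
      _ = P * S' := by rw [← hSP, ← mul_assoc, hS', one_mul]
  have hφP : ∀ x ∈ T, P * φ x = φ x ∧ φ x * P = φ x := by
    intro x _
    constructor
    · rw [hφ, ← mul_assoc, ← hSP, mul_assoc, ← mul_assoc P, (hP _).1]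
    · rw [hφ, mul_assoc, mul_assoc, hS'P, ← mul_assoc (θ (R x)), (hP _).2]
  have hφφ : ∀ x ∈ T, ∀ y ∈ T, φ x * φ y = c • F x y := by
    intro x hx y hy
    calc φ x * φ y = S * (θ (R x) * (S' * S) * θ (R y)) * S' := by
          rw [hφ, hφ]
          simp only [mul_assoc]
      _ = c • (F x y * (S * S')) := by
          rw [hS', mul_one, hθ _ (hR x hx) _ (hR y hy), mul_smul_comm, hF x hx y hy,
            smul_mul_assoc, mul_assoc]
      _ = _ := by rw [hS, mul_one]
  have hφE := (teqv_of_sq h hs hc hφφ hφP).eqv he hee hne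
  obtain ⟨M, m1, m2, m3, m4⟩ := root_mult h hs he hee hne ha hsp hr hc (fun x _ => hP x) hθ hφE
  have hMθ : ∀ x ∈ T, θ x * M = M * θ x := hθc M (by rw [m1, m2]) m3
  have hθ0 : θ (e 0) * θ (e 0) = (c * a 0) • P := by
    rw [hθ _ (he 0) _ (he 0), h.sq (he 0), hee, smul_smul]
  have hca : c * a 0 ≠ 0 := mul_ne_zero hc (ha 0)
  have hMM : M * M = P := by
    have e1 := hφφ _ (he 0) _ (he 0)
    rw [m4 _ (he 0), h.sq (he 0), hee, smul_smul] at e1
    have e2 : M * θ (e 0) * (M * θ (e 0)) = (c * a 0) • (M * M) := by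
      calc M * θ (e 0) * (M * θ (e 0)) = M * (θ (e 0) * M) * θ (e 0) := by simp only [mul_assoc]
        _ = M * M * (θ (e 0) * θ (e 0)) := by rw [hMθ _ (he 0)]; simp only [mul_assoc]
        _ = _ := by rw [hθ0, mul_smul_comm, mul_assoc, m2]
    rw [e2] at e1
    exact smul_right_injective _ hca e1
  -- `M` is in the centre
  have hMN : ∀ N : End k W, P * N = N → N * P = N →
      (∀ x ∈ T, ∀ y ∈ T, F x y * N = N * F x y) → M * N = N * M := by
    intro N n1 n2 n3
    have hNP : N * P = P * N := by rw [n1, n2]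
    have hNS := hN N n1 n2 n3
    have hNS' : S' * N = N * S' := by
      calc S' * N = S' * (N * S) * S' := by rw [mul_assoc, mul_assoc, hS, mul_one]
        _ = N * S' := by rw [← hNS, ← mul_assoc, hS', one_mul]
    have e1 : φ (e 0) * N = N * φ (e 0) := by
      rw [hφ]
      calc S * (θ (R (e 0)) * S') * N = S * (θ (R (e 0)) * (S' * N)) := by simp only [mul_assoc]
        _ = S * ((θ (R (e 0)) * N) * S') := by rw [hNS']; simp only [mul_assoc]
        _ = (S * N) * (θ (R (e 0)) * S') := by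
            rw [hθc N hNP n3 _ (hR _ (he 0))]
            simp only [mul_assoc]
        _ = N * (S * (θ (R (e 0)) * S')) := by rw [hNS, mul_assoc]
    rw [m4 _ (he 0), mul_assoc, hθc N hNP n3 _ (he 0)] at e1
    have e2 : (M * N) * (θ (e 0) * θ (e 0)) = (N * M) * (θ (e 0) * θ (e 0)) := by
      calc (M * N) * (θ (e 0) * θ (e 0)) = M * (N * θ (e 0)) * θ (e 0) := by simp only [mul_assoc]
        _ = (N * M) * (θ (e 0) * θ (e 0)) := by rw [e1]; simp only [mul_assoc]
    rw [hθ0, mul_smul_comm, mul_smul_comm, mul_assoc, n2, mul_assoc, m2] at e2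
    exact smul_right_injective _ hca e2
  obtain ⟨ε, hε⟩ := (h.isCl he hee hne).scalar ha m1 m2 (fun s t => (m3 _ (he s) _ (he t)).symm)
    fun b b1 b2 b3 => hMN b b1 b2 fun x hx y hy => by
      obtain ⟨c, rfl⟩ := hsp x hx
      obtain ⟨c', rfl⟩ := hsp y hy
      simp only [map_sum, LinearMap.sum_apply, map_smul, LinearMap.smul_apply, Finset.mul_sum,
        Finset.sum_mul, mul_smul_comm, smul_mul_assoc, b3]
  have hεε : ε * ε = 1 := by
    rw [hε, smul_mul_assoc, mul_smul_comm, h.idem, smul_smul] at hMM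
    have e1 : (ε * ε - 1) • P = 0 := by rw [sub_smul, one_smul, hMM, sub_self]
    exact sub_eq_zero.1 ((smul_eq_zero.1 e1).resolve_right hP0)
  have hfin : ∀ x ∈ T, S * θ (R x) = ε • (θ x * S) := by
    intro x hx
    have e1 : φ x * S = ε • (θ x * S) := by
      rw [m4 x hx, hε, smul_mul_assoc, smul_mul_assoc, (hP x).1]
    rw [hφ, mul_assoc, mul_assoc, hS', mul_one] at e1
    exact e1
  rcases mul_self_eq_one_iff.1 hεε with h1 | h1
  · left
    intro x hx
    rw [hfin x hx, h1, one_smul]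
  · right
    intro x hx
    rw [hfin x hx, h1, neg_one_smul]

end

end Pool.Agent.H851.UK
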