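import Pool.Agent.H851.UK.Gen

/-!
# The dimension of the commutant of the even Clifford algebra in odd dimension
-/

set_option autoImplicit false

namespace Pool.Agent.H851.UK

open Module

section

variable {k W : Type} [Field k] [CharZero k] [AddCommGroup W] [Module k W] {r : ℕ}
  {a : Fin (2 * r + 1) → k} {P : End k W} {Ψ : Fin (2 * r + 1) → Fin (2 * r + 1) → End k W}

/-- the square of the product of the first generators -/
theorem IsCl.prods (h : IsCl a P Ψ) (ha : ∀ s, a s ≠ 0) (j : ℕ) (hj : j ≤ 2 * r) :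
    ∃ (z : End k W) (d : k), d ≠ 0 ∧ P * z = z ∧ z * P = z ∧ z * z = d • P ∧
      (∀ i : Fin (2 * r + 1), i ≠ 0 → j < (i : ℕ) → Ψ 0 i * z = ((-1 : k) ^ j) • (z * Ψ 0 i)) ∧
      (∀ i : Fin (2 * r + 1), i ≠ 0 → (i : ℕ) ≤ j →
        Ψ 0 i * z = ((-1 : k) ^ (j + 1)) • (z * Ψ 0 i)) := by
  induction j with
  | zero =>
    refine ⟨P, 1, one_ne_zero, h.idem, h.idem, by rw [h.idem, one_smul],
      fun i _ _ => ?_, fun i hi hi' => absurd (Fin.ext (by simpa using hi')) hi⟩
    rw [pow_zero, one_smul, h.left, h.right]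
  | succ j ih =>
    obtain ⟨z, d, hd, g1, g2, g3, g4, g5⟩ := ih (by omega)
    let i₀ : Fin (2 * r + 1) := ⟨j + 1, by omega⟩
    have hi₀ : i₀ ≠ 0 := fun h' => absurd (congrArg Fin.val h') (by simp [i₀])
    have hm1 : ((-1 : k)) ^ j ≠ 0 := pow_ne_zero _ (neg_ne_zero.2 one_ne_zero)
    refine ⟨z * Ψ 0 i₀, (-1 : k) ^ j * (-(a 0 * a i₀) * d), mul_ne_zero hm1 (mul_ne_zero
      (neg_ne_zero.2 (mul_ne_zero (ha _) (ha _))) hd), ?_, ?_, ?_, fun i hi hij => ?_,
      fun i hi hij => ?_⟩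
    · rw [← mul_assoc, g1]
    · rw [mul_assoc, h.right]
    · calc z * Ψ 0 i₀ * (z * Ψ 0 i₀) = z * (Ψ 0 i₀ * z) * Ψ 0 i₀ := by simp only [mul_assoc]
        _ = ((-1 : k) ^ j) • (z * z * (Ψ 0 i₀ * Ψ 0 i₀)) := by
            rw [g4 i₀ hi₀ (by simp [i₀]), mul_smul_comm, smul_mul_assoc]
            simp only [mul_assoc]
        _ = _ := by
            rw [h.gen_sq hi₀, g3, mul_smul_comm, smul_mul_assoc, h.idem, smul_smul, smul_smul,
              mul_assoc]
    · have hne : i ≠ i₀ := fun h' => by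
        rw [h'] at hij
        simp [i₀] at hij
      rw [← mul_assoc, g4 i hi (by omega), smul_mul_assoc, mul_assoc, h.gen_anti hi hi₀ hne,
        mul_neg, pow_succ, mul_neg_one, neg_smul, smul_neg, mul_assoc]
    · by_cases hne : i = i₀
      · subst hne
        rw [← mul_assoc, g4 i₀ hi₀ (by simp [i₀]), smul_mul_assoc, pow_succ, pow_succ, mul_neg_one,
          mul_neg_one, neg_neg]
      · have hlt : (i : ℕ) ≤ j := by
          have h1 : (i : ℕ) ≠ j + 1 := fun h' => hne (Fin.ext h')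
          omega
        rw [← mul_assoc, g5 i hi hlt, smul_mul_assoc, mul_assoc, h.gen_anti hi hi₀ hne, mul_neg,
          pow_succ _ (j + 1), mul_neg_one, neg_smul, smul_neg, mul_assoc]

/-- the endomorphisms of `P W` which commute with the first generators -/
def comS (P : End k W) (Ψ : Fin (2 * r + 1) → Fin (2 * r + 1) → End k W) (j : ℕ) :
    Submodule k (End k W) where
  carrier := {X | P * X = X ∧ X * P = X ∧
    ∀ i : Fin (2 * r + 1), i ≠ 0 → (i : ℕ) ≤ j → Ψ 0 i * X = X * Ψ 0 i}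
  zero_mem' := ⟨mul_zero _, zero_mul _, fun i _ _ => by rw [mul_zero, zero_mul]⟩
  add_mem' := fun {x y} hx hy => ⟨by rw [mul_add, hx.1, hy.1], by rw [add_mul, hx.2.1, hy.2.1],
    fun i hi hij => by rw [mul_add, add_mul, hx.2.2 i hi hij, hy.2.2 i hi hij]⟩
  smul_mem' := fun c x hx => ⟨by rw [mul_smul_comm, hx.1], by rw [smul_mul_assoc, hx.2.1],
    fun i hi hij => by rw [mul_smul_comm, smul_mul_assoc, hx.2.2 i hi hij]⟩

theorem comS_step [FiniteDimensional k W] (h : IsCl a P Ψ) (ha : ∀ s, a s ≠ 0) {j : ℕ}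
    (hj : j + 1 ≤ 2 * r) :
    finrank k (comS (r := r) P Ψ j) = 2 * finrank k (comS (r := r) P Ψ (j + 1)) := by
  obtain ⟨z, d, hd, g1, g2, g3, -, g5⟩ := h.prods ha (2 * r) le_rfl
  have hz : ∀ i : Fin (2 * r + 1), i ≠ 0 → Ψ 0 i * z = -(z * Ψ 0 i) := by
    intro i hi
    rw [g5 i hi (by omega), pow_succ, pow_mul, neg_one_sq, one_pow, one_mul, neg_one_smul]
  let i₀ : Fin (2 * r + 1) := ⟨j + 1, by omega⟩
  have hi₀ : i₀ ≠ 0 := fun h' => absurd (congrArg Fin.val h') (by simp [i₀])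
  have hc0 : -(a 0 * a i₀) ≠ 0 := neg_ne_zero.2 (mul_ne_zero (ha _) (ha _))
  set γ : End k W := Ψ 0 i₀ with hγ
  have hγγ : γ * γ = -(a 0 * a i₀) • P := h.gen_sq hi₀
  have hγP : γ * P = γ := h.right 0 i₀
  have hPγ : P * γ = γ := h.left 0 i₀
  have hzγ : γ * z = -(z * γ) := hz i₀ hi₀
  have hww0 : z * γ * (z * γ) = (-(-(a 0 * a i₀) * d)) • P := by
    calc z * γ * (z * γ) = z * (γ * z) * γ := by simp only [mul_assoc]
      _ = -((z * z) * (γ * γ)) := by rw [hzγ]; simp only [mul_assoc, mul_neg, neg_mul]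
      _ = _ := by rw [g3, hγγ, mul_smul_comm, smul_mul_assoc, h.idem, smul_smul, neg_smul]
  obtain ⟨w, hw⟩ : ∃ w, w = z * γ := ⟨_, rfl⟩
  have hww : w * w = (-(-(a 0 * a i₀) * d)) • P := by rw [hw, hww0]
  have hPw : P * w = w := by rw [hw, ← mul_assoc, g1]
  have hwP : w * P = w := by rw [hw, mul_assoc, hγP]
  have hγw : γ * w = -(w * γ) := by rw [hw, ← mul_assoc, hzγ, neg_mul]
  have hiw : ∀ i : Fin (2 * r + 1), i ≠ 0 → i ≠ i₀ → Ψ 0 i * w = w * Ψ 0 i := by
    intro i hi hne
    have e0 := h.gen_anti hi hi₀ hne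
    rw [← hγ] at e0
    rw [hw]
    calc Ψ 0 i * (z * γ) = (Ψ 0 i * z) * γ := by rw [mul_assoc]
      _ = -(z * (Ψ 0 i * γ)) := by rw [hz i hi, neg_mul, mul_assoc]
      _ = z * γ * Ψ 0 i := by rw [e0, mul_neg, neg_neg, mul_assoc]
  have he0 : -(-(a 0 * a i₀) * d) ≠ 0 := neg_ne_zero.2 (mul_ne_zero hc0 hd)
  set e : k := -(-(a 0 * a i₀) * d) with he
  -- conjugation
  have conj : ∀ M : End k W, P * M = M → M * P = M →
      γ * ((-(a 0 * a i₀))⁻¹ • (γ * M * γ)) = M * γ ∧
      ((-(a 0 * a i₀))⁻¹ • (γ * M * γ)) * γ = γ * M := by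
    intro M m1 m2
    constructor
    · rw [mul_smul_comm]
      calc (-(a 0 * a i₀))⁻¹ • (γ * (γ * M * γ)) = (-(a 0 * a i₀))⁻¹ • ((γ * γ) * M * γ) := by
            simp only [mul_assoc]
        _ = M * γ := by
            rw [hγγ, smul_mul_assoc, smul_mul_assoc, m1, smul_smul, inv_mul_cancel₀ hc0, one_smul]
    · rw [smul_mul_assoc]
      calc (-(a 0 * a i₀))⁻¹ • (γ * M * γ * γ) = (-(a 0 * a i₀))⁻¹ • (γ * M * (γ * γ)) := by
            simp only [mul_assoc]
        _ = γ * M := by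
            rw [hγγ, mul_smul_comm, mul_assoc, m2, smul_smul, inv_mul_cancel₀ hc0, one_smul]
  let f : (comS (r := r) P Ψ (j + 1) × comS (r := r) P Ψ (j + 1)) →ₗ[k] comS (r := r) P Ψ j :=
    { toFun := fun p => ⟨p.1.1 + p.2.1 * w, by
        obtain ⟨⟨X, x1, x2, x3⟩, ⟨Y, y1, y2, y3⟩⟩ := p
        refine ⟨?_, ?_, fun i hi hij => ?_⟩
        · change P * (X + Y * w) = X + Y * w
          rw [mul_add, x1, ← mul_assoc, y1]
        · change (X + Y * w) * P = X + Y * w
          rw [add_mul, x2, mul_assoc, hwP]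
        · change Ψ 0 i * (X + Y * w) = (X + Y * w) * Ψ 0 i
          have hne : i ≠ i₀ := fun h' => by
            rw [h'] at hij
            simp [i₀] at hij
          rw [mul_add, add_mul, x3 i hi (by omega), ← mul_assoc, y3 i hi (by omega), mul_assoc,
            hiw i hi hne, mul_assoc]⟩
      map_add' := fun p p' => Subtype.ext (by
        change (p.1.1 + p'.1.1) + (p.2.1 + p'.2.1) * w =
          (p.1.1 + p.2.1 * w) + (p'.1.1 + p'.2.1 * w)
        rw [add_mul]
        abel)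
      map_smul' := fun c p => Subtype.ext (by
        change c • p.1.1 + (c • p.2.1) * w = c • (p.1.1 + p.2.1 * w)
        rw [smul_mul_assoc, smul_add]) }
  have hf : ∀ p, ((f p : comS (r := r) P Ψ j) : End k W) = p.1.1 + p.2.1 * w := fun p => rfl
  have hinj : Function.Injective f := by
    rw [injective_iff_map_eq_zero]
    rintro ⟨⟨X, x1, x2, x3⟩, ⟨Y, y1, y2, y3⟩⟩ hp
    have h1 : X + Y * w = 0 := congrArg Subtype.val hp
    have hX : γ * X = X * γ := x3 i₀ hi₀ le_rfl
    have hY : γ * Y = Y * γ := y3 i₀ hi₀ le_rfl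
    have h2 : (X - Y * w) * γ = 0 := by
      have e1 : γ * (X + Y * w) = (X - Y * w) * γ := by
        rw [mul_add, sub_mul, hX, ← mul_assoc, hY, mul_assoc, hγw, mul_neg, mul_assoc,
          sub_eq_add_neg]
      rw [← e1, h1, mul_zero]
    have h3 : X - Y * w = 0 := by
      have e1 : (X - Y * w) * γ * γ = -(a 0 * a i₀) • (X - Y * w) := by
        rw [mul_assoc, hγγ, mul_smul_comm, sub_mul, x2, mul_assoc, hwP]
      rw [h2, zero_mul] at e1
      exact (smul_eq_zero.1 e1.symm).resolve_left hc0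
    have h4 : X = 0 := by
      have e1 : (2 : k) • X = 0 := by
        have e2 : (2 : k) • X = (X + Y * w) + (X - Y * w) := by
          rw [two_smul]
          abel
        rw [e2, h1, h3, add_zero]
      exact (smul_eq_zero.1 e1).resolve_left two_ne_zero
    have h5 : Y = 0 := by
      have e1 : Y * w = 0 := by rw [h4, zero_add] at h1; exact h1
      have e2 : Y * w * w = e • Y := by rw [mul_assoc, hww, mul_smul_comm, y2]
      rw [e1, zero_mul] at e2
      exact (smul_eq_zero.1 e2.symm).resolve_left he0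
    subst h4
    subst h5
    rfl
  have hsurj : Function.Surjective f := by
    rintro ⟨M, m1, m2, m3⟩
    obtain ⟨c1, c2⟩ := conj M m1 m2
    set M' : End k W := (-(a 0 * a i₀))⁻¹ • (γ * M * γ) with hM'
    have hPM' : P * M' = M' := by rw [hM', mul_smul_comm, ← mul_assoc, ← mul_assoc, hPγ]
    have hM'P : M' * P = M' := by rw [hM', smul_mul_assoc, mul_assoc, hγP]
    have hM'i : ∀ i : Fin (2 * r + 1), i ≠ 0 → (i : ℕ) ≤ j → Ψ 0 i * M' = M' * Ψ 0 i := by
      intro i hi hij
      have hne : i ≠ i₀ := fun h' => by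
        rw [h'] at hij
        simp [i₀] at hij
      have e0 := h.gen_anti hi hi₀ hne
      rw [← hγ] at e0
      rw [hM', mul_smul_comm, smul_mul_assoc]
      congr 1
      calc Ψ 0 i * (γ * M * γ) = (Ψ 0 i * γ) * M * γ := by simp only [mul_assoc]
        _ = -(γ * (Ψ 0 i * M) * γ) := by rw [e0]; simp only [mul_assoc, neg_mul]
        _ = -(γ * M * (Ψ 0 i * γ)) := by rw [m3 i hi hij]; simp only [mul_assoc]
        _ = γ * M * γ * Ψ 0 i := by rw [e0]; simp only [mul_assoc, mul_neg, neg_neg]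
    have hlast : ∀ i : Fin (2 * r + 1), (i : ℕ) ≤ j + 1 → i ≠ i₀ → (i : ℕ) ≤ j := by
      intro i hij hne
      have h1 : (i : ℕ) ≠ j + 1 := fun h' => hne (Fin.ext h')
      omega
    refine ⟨(⟨(2⁻¹ : k) • (M + M'), ?_, ?_, fun i hi hij => ?_⟩,
      ⟨(2⁻¹ * e⁻¹ : k) • ((M - M') * w), ?_, ?_, fun i hi hij => ?_⟩), Subtype.ext ?_⟩
    · rw [mul_smul_comm, mul_add, m1, hPM']
    · rw [smul_mul_assoc, add_mul, m2, hM'P]
    · rw [mul_smul_comm, smul_mul_assoc]
      congr 1
      by_cases hne : i = i₀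
      · subst hne
        rw [← hγ, mul_add, add_mul, c1, c2, add_comm]
      · rw [mul_add, add_mul, m3 i hi (hlast i hij hne), hM'i i hi (hlast i hij hne)]
    · rw [mul_smul_comm, ← mul_assoc, mul_sub, m1, hPM']
    · rw [smul_mul_assoc, mul_assoc, hwP]
    · rw [mul_smul_comm, smul_mul_assoc]
      congr 1
      by_cases hne : i = i₀
      · subst hne
        rw [← hγ]
        have e1 : γ * (M - M') = -((M - M') * γ) := by rw [mul_sub, sub_mul, c1, c2, neg_sub]
        calc γ * ((M - M') * w) = (γ * (M - M')) * w := by rw [mul_assoc]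
          _ = -((M - M') * (γ * w)) := by rw [e1, neg_mul, mul_assoc]
          _ = (M - M') * w * γ := by rw [hγw, mul_neg, neg_neg, mul_assoc]
      · have e1 : Ψ 0 i * (M - M') = (M - M') * Ψ 0 i := by
          rw [mul_sub, sub_mul, m3 i hi (hlast i hij hne), hM'i i hi (hlast i hij hne)]
        rw [← mul_assoc, e1, mul_assoc, hiw i hi hne, mul_assoc]
    · rw [hf]
      change (2⁻¹ : k) • (M + M') + ((2⁻¹ * e⁻¹ : k) • ((M - M') * w)) * w = M
      have e1 : (M - M') * w * w = e • (M - M') := by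
        rw [mul_assoc, hww, mul_smul_comm, sub_mul, m2, hM'P]
      rw [smul_mul_assoc, e1, smul_smul, mul_assoc, inv_mul_cancel₀ he0, mul_one, ← smul_add]
      have e2 : M + M' + (M - M') = (2 : k) • M := by
        rw [two_smul]
        abel
      rw [e2, smul_smul, inv_mul_cancel₀ two_ne_zero, one_smul]
  have h1 := LinearEquiv.finrank_eq (LinearEquiv.ofBijective f ⟨hinj, hsurj⟩)
  rw [Module.finrank_prod] at h1
  omega

theorem comS_zero [FiniteDimensional k W] (hP : P * P = P) :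
    finrank k (comS (r := r) P Ψ 0) = finrank k (LinearMap.range P) ^ 2 := by
  have hPr : ∀ x ∈ LinearMap.range P, P x = x := by
    rintro _ ⟨x, rfl⟩
    exact LinearMap.congr_fun hP x
  let f : comS (r := r) P Ψ 0 →ₗ[k] (LinearMap.range P →ₗ[k] LinearMap.range P) :=
    { toFun := fun X => (X.1 ∘ₗ (LinearMap.range P).subtype).codRestrict (LinearMap.range P)
        (fun x => ⟨X.1 x, LinearMap.congr_fun X.2.1 x⟩)
      map_add' := fun X Y => rfl
      map_smul' := fun c X => rfl }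
  have hf : ∀ X x, ((f X x : LinearMap.range P) : W) = X.1 x := fun X x => rfl
  have hinj : Function.Injective f := by
    rw [injective_iff_map_eq_zero]
    intro X hX
    refine Subtype.ext (LinearMap.ext fun x => ?_)
    have h1 := congrArg Subtype.val (LinearMap.congr_fun hX ⟨P x, x, rfl⟩)
    rw [hf] at h1
    have h2 : X.1 (P x) = X.1 x := LinearMap.congr_fun X.2.2.1 x
    rw [← h2]
    exact h1
  have hsurj : Function.Surjective f := by
    intro g
    refine ⟨⟨(LinearMap.range P).subtype ∘ₗ g ∘ₗ P.rangeRestrict, ?_, ?_,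
      fun i hi hi' => absurd (Fin.ext (by simpa using hi')) hi⟩, ?_⟩
    · refine LinearMap.ext fun x => ?_
      exact hPr _ (g (P.rangeRestrict x)).2
    · refine LinearMap.ext fun x => ?_
      change ((g (P.rangeRestrict (P x)) : LinearMap.range P) : W) = (g (P.rangeRestrict x) : _)
      congr 2
      exact Subtype.ext (LinearMap.congr_fun hP x)
    · refine LinearMap.ext fun x => Subtype.ext ?_
      change ((g (P.rangeRestrict x) : LinearMap.range P) : W) = g x
      congr 2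
      exact Subtype.ext (hPr x x.2)
  have h1 := LinearEquiv.finrank_eq (LinearEquiv.ofBijective f ⟨hinj, hsurj⟩)
  rw [Module.finrank_linearMap, ← sq] at h1
  exact h1

/-- **The dimension of the commutant.** -/
theorem comS_finrank [FiniteDimensional k W] (h : IsCl a P Ψ) (ha : ∀ s, a s ≠ 0) (j : ℕ)
    (hj : j ≤ 2 * r) :
    finrank k (comS (r := r) P Ψ j) * 2 ^ j = finrank k (LinearMap.range P) ^ 2 := by
  induction j with
  | zero => rw [pow_zero, mul_one, comS_zero h.idem]
  | succ j ih =>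
    rw [← ih (by omega), comS_step h ha hj, pow_succ]
    ring

end

end Pool.Agent.H851.UK
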