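import Mathlib
import Pool.Agent.H851.UK.Lie
import Pool.Agent.H851.UK.Dim
import Pool.Agent.H851.UK.Def3

/-!
# The Tate endomorphisms of the Kuga-Satake part
-/

set_option autoImplicit false
set_option linter.unusedSectionVars false
set_option linter.unusedVariables false

namespace Pool.Agent.H851.UK

open Matrix Finset Module Pool.Agent.Y114.RM
open NumberField IsDedekindDomain Polynomial Pool.Agent.H851
open Pool.Agent.H851.K3 Pool.Agent.H851.KT Pool.Agent.H851.TT Pool.Agent.H851.ZD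
open Pool.Agent.H851.IN Pool.Agent.H851.KS Pool.Agent.H851.KD
open Pool.Agent.NH56.HY (GK IsFrobenius tw tw_apply chi_ne)
open Pool.Agent.H204R3.GP (FiniteIndexSemisimple)

variable {K : Type} [Field K] [NumberField K] {ℓ : ℕ} [hℓ : Fact ℓ.Prime] {n : Type}
    [Fintype n] [DecidableEq n] {q : Matrix n n ℚ_[ℓ]} {S : Finset ℕ} {χ : GK K →* ℚ_[ℓ]}
    {Pol : HeightOneSpectrum (𝓞 K) → ℤ[X]} {ρ : GK K →* Matrix n n ℚ_[ℓ]} {m : Type}
    [Fintype m] [DecidableEq m] {σ : GK K →* Matrix m m ℚ_[ℓ]}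

/-- **Tate endomorphisms commute with the even Clifford algebra, and conversely.** -/
theorem tate_iff (h : IsK3Type q S χ Pol ρ) (hss : Semisimple ρ) (hc : ScalarEnds q χ ρ)
    (hd3 : 3 ≤ finrank ℚ_[ℓ] (orth q (tate χ ρ))) {j : ℤ} (hw : WeightOneAt j σ)
    {P : Matrix m m ℚ_[ℓ]} {ψ : (n → ℚ_[ℓ]) → (n → ℚ_[ℓ]) → Matrix m m ℚ_[ℓ]}
    (p : IsKugaSatake q χ ρ σ ⊤ P ψ) (hl : LieOf q χ ρ σ P ψ) (M : Matrix m m ℚ_[ℓ]) :
    M ∈ TateEnd σ P ↔ CommutesWithClifford (orth q (tate χ ρ)) P ψ M := by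
  constructor
  · rintro ⟨m1, m2, Δ, hΔ, m3⟩
    refine ⟨m1, m2, fun x hx y hy => ?_⟩
    obtain ⟨a, U, W', Fr⟩ := exists_frame h hss hc
    have hcomp : CompactSpace (GK K) := inferInstance
    have hfin : Finite (GK K ⧸ Δ) := Subgroup.quotient_finite_of_isOpen _ hΔ
    have hfi : Δ.FiniteIndex := Subgroup.finiteIndex_of_finite_quotient
    have hmul : ∀ A B : Matrix m m ℚ_[ℓ], Matrix.toLin' A * Matrix.toLin' B =
      Matrix.toLin' (A * B) := fun A B => (Matrix.toLin'_mul A B).symm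
    have h1 := lie_comm (τ := matRep σ) (b := Matrix.toLin' M) h Fr hd3 hfi (fun g hg => by
      change Matrix.toLin' (σ g) * Matrix.toLin' M = Matrix.toLin' M * Matrix.toLin' (σ g)
      rw [hmul, hmul, m3 g hg]) (hl x hx y hy)
    change Matrix.toLin' ((2⁻¹ : ℚ_[ℓ]) • ((x ⬝ᵥ q *ᵥ y) • P - ψ x y)) * Matrix.toLin' M =
      Matrix.toLin' M * Matrix.toLin' ((2⁻¹ : ℚ_[ℓ]) • ((x ⬝ᵥ q *ᵥ y) • P - ψ x y)) at h1
    rw [hmul, hmul] at h1
    have h2 := Matrix.toLin'.injective h1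
    rw [smul_mul_assoc, mul_smul_comm] at h2
    have h3 := smul_right_injective _ (inv_ne_zero (two_ne_zero (α := ℚ_[ℓ]))) h2
    rw [sub_mul, mul_sub, smul_mul_assoc, mul_smul_comm, m1, m2] at h3
    exact sub_right_injective h3
  · rintro ⟨m1, m2, m3⟩
    obtain ⟨Δ, hΔ, hM⟩ := uk_maps h hss hc hd3 hw hw ⊤ ⊤ P ψ P ψ isOpen_univ isOpen_univ p p
    exact ⟨m1, m2, Δ, hΔ, hM M ⟨m1, m2, m3⟩⟩

/-- **The Tate endomorphisms of the Kuga-Satake part.** -/
theorem tate_main (h : IsK3Type q S χ Pol ρ) (hss : Semisimple ρ) (hc : ScalarEnds q χ ρ)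
    (hd3 : 3 ≤ finrank ℚ_[ℓ] (orth q (tate χ ρ)))
    (hodd : Odd (finrank ℚ_[ℓ] (orth q (tate χ ρ)))) {j : ℤ} (hw : WeightOneAt j σ) :
    ∃ (P : Matrix m m ℚ_[ℓ]) (ψ : (n → ℚ_[ℓ]) → (n → ℚ_[ℓ]) → Matrix m m ℚ_[ℓ]),
      IsKugaSatake q χ ρ σ ⊤ P ψ ∧ (P = 0 ↔ Independent χ ρ σ) ∧
      (∀ M, M ∈ TateEnd σ P ↔ CommutesWithClifford (orth q (tate χ ρ)) P ψ M) ∧
      finrank ℚ_[ℓ] (TateEnd σ P) * 2 ^ (finrank ℚ_[ℓ] (orth q (tate χ ρ)) - 1) = P.rank ^ 2 ∧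
      ∀ c ∈ TateEnd σ P, (∀ b ∈ TateEnd σ P, c * b = b * c) → ∃ e : ℚ_[ℓ], c = e • P := by
  obtain ⟨P, ψ, p, hl, -, htfae⟩ := ks_main h hss hc hd3 hw.semisimple hw.rep
  have hE := fun M => tate_iff h hss hc hd3 hw p hl M
  obtain ⟨a, U, W', Fr⟩ := exists_frame h hss hc
  obtain ⟨β, hβ, hcl, heq⟩ := rel_of h.symm p
  obtain ⟨r, hr⟩ := hodd
  have hmul : ∀ A B : Matrix m m ℚ_[ℓ], Matrix.toLin' A * Matrix.toLin' B =
      Matrix.toLin' (A * B) := fun A B => (Matrix.toLin'_mul A B).symm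
  have hCl := hcl.isCl (e := fun s => ev U (Fin.cast hr.symm s))
    (a := fun s => a (Fin.cast hr.symm s)) (fun s => ev_mem Fr _) (fun s => ev_self Fr _)
    (fun s t hst => ev_ne Fr (fun h' => hst (Fin.cast_injective _ h')))
  have hne : ∀ s : Fin (2 * r + 1), a (Fin.cast hr.symm s) ≠ 0 := fun s => Fr.ne _
  -- commuting with the products of the basis vectors suffices
  have hext : ∀ b : End ℚ_[ℓ] (m → ℚ_[ℓ]), (∀ s t : Fin (2 * r + 1),
      β (ev U (Fin.cast hr.symm s)) (ev U (Fin.cast hr.symm t)) * b =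
        b * β (ev U (Fin.cast hr.symm s)) (ev U (Fin.cast hr.symm t))) →
      ∀ y ∈ orth q (tate χ ρ), ∀ z ∈ orth q (tate χ ρ), β y z * b = b * β y z := by
    intro b hb y hy z hz
    have hb' : ∀ s t, β (ev U s) (ev U t) * b = b * β (ev U s) (ev U t) := fun s t =>
      hb (Fin.cast hr s) (Fin.cast hr t)
    rw [ev_sum Fr hy, ev_sum Fr hz]
    refine LinearMap.ext fun w => ?_
    have l4 : ∀ s t, β (ev U s) (ev U t) (b w) = b (β (ev U s) (ev U t) w) := fun s t =>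
      LinearMap.congr_fun (hb' s t) w
    simp only [Module.End.mul_apply, map_sum, LinearMap.sum_apply, map_smul,
      LinearMap.smul_apply, l4]
  have hmem : ∀ b : End ℚ_[ℓ] (m → ℚ_[ℓ]), Matrix.toLin' P * b = b → b * Matrix.toLin' P = b →
      (∀ s t : Fin (2 * r + 1), β (ev U (Fin.cast hr.symm s)) (ev U (Fin.cast hr.symm t)) * b =
        b * β (ev U (Fin.cast hr.symm s)) (ev U (Fin.cast hr.symm t))) →
      LinearMap.toMatrix' b ∈ TateEnd σ P := by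
    intro b b1 b2 b3
    refine (hE _).2 ⟨?_, ?_, fun x hx y hy => ?_⟩
    · refine Matrix.toLin'.injective ?_
      rw [← hmul, Matrix.toLin'_toMatrix', b1]
    · refine Matrix.toLin'.injective ?_
      rw [← hmul, Matrix.toLin'_toMatrix', b2]
    · refine Matrix.toLin'.injective ?_
      rw [← hmul, ← hmul, Matrix.toLin'_toMatrix', ← hβ, hext b b3 x hx y hy]
  have hcom : ∀ M ∈ TateEnd σ P, ∀ x ∈ orth q (tate χ ρ), ∀ y ∈ orth q (tate χ ρ),
      β x y * Matrix.toLin' M = Matrix.toLin' M * β x y := by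
    intro M hM x hx y hy
    rw [hβ, hmul, hmul, ((hE M).1 hM).2.2 x hx y hy]
  refine ⟨P, ψ, p, htfae.out 0 1, hE, ?_, fun c hcE hcc => ?_⟩
  · have h1 := comS_finrank hCl hne (2 * r) le_rfl
    have h2 : (TateEnd σ P).map (Matrix.toLin' : Matrix m m ℚ_[ℓ] ≃ₗ[ℚ_[ℓ]] _).toLinearMap =
        comS (r := r) (Matrix.toLin' P) (fun s t => β (ev U (Fin.cast hr.symm s))
          (ev U (Fin.cast hr.symm t))) (2 * r) := by
      ext b
      constructor
      · rintro ⟨M, hM, rfl⟩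
        change Matrix.toLin' M ∈ _
        refine ⟨?_, ?_, fun i _ _ => hcom M hM _ (ev_mem Fr _) _ (ev_mem Fr _)⟩
        · rw [hmul, hM.1]
        · rw [hmul, hM.2.1]
      · rintro ⟨b1, b2, b3⟩
        refine ⟨LinearMap.toMatrix' b, hmem b b1 b2 ?_, ?_⟩
        · exact hCl.comm_all hne b1 b2 fun i hi => b3 i hi (by omega)
        · change Matrix.toLin' (LinearMap.toMatrix' b) = b
          rw [Matrix.toLin'_toMatrix']
    rw [← h2] at h1
    have h3 := LinearEquiv.finrank_map_eq (Matrix.toLin' : Matrix m m ℚ_[ℓ] ≃ₗ[ℚ_[ℓ]] _)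
      (TateEnd σ P)
    have h4 : finrank ℚ_[ℓ] (orth q (tate χ ρ)) - 1 = 2 * r := by omega
    rw [h4, ← h3, Matrix.rank, ← Matrix.toLin'_apply']
    exact h1
  · obtain ⟨e, he⟩ := hCl.scalar hne (c := Matrix.toLin' c)
      (by rw [hmul, hcE.1]) (by rw [hmul, hcE.2.1])
      (fun s t => (hcom c hcE _ (ev_mem Fr _) _ (ev_mem Fr _)).symm)
      (fun b b1 b2 b3 => by
        have h1 := hcc _ (hmem b b1 b2 b3)
        have h2 := congrArg Matrix.toLin' h1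
        rw [← hmul, ← hmul, Matrix.toLin'_toMatrix'] at h2
        exact h2)
    refine ⟨e, Matrix.toLin'.injective ?_⟩
    rw [he, map_smul]

end Pool.Agent.H851.UK
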