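import Mathlib
import Pool.Agent.H851.UK.Tate
import Pool.Agent.H851.UK.Root
import Pool.Agent.H851.UK.Def4

/-!
# Equivariant maps from the transcendental part to the endomorphisms
-/

set_option autoImplicit false
set_option linter.unusedSectionVars false
set_option linter.unusedVariables false

namespace Pool.Agent.H851.UK

open Matrix Finset Module Pool.Agent.Y114.RM
open NumberField IsDedekindDomain Polynomial Pool.Agent.H851
open Pool.Agent.H851.K3 Pool.Agent.H851.KT Pool.Agent.H851.TT Pool.Agent.H851.ZD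
open Pool.Agent.H851.IN Pool.Agent.H851.KS Pool.Agent.H851.KD
open Pool.Agent.NH56.HY (GK IsFrobenius tw tw_apply chi_ne)
open Pool.Agent.H204R3.GP (FiniteIndexSemisimple)

variable {K : Type} [Field K] [NumberField K] {ℓ : ℕ} [hℓ : Fact ℓ.Prime] {n : Type}
    [Fintype n] [DecidableEq n] {q : Matrix n n ℚ_[ℓ]} {S : Finset ℕ} {χ : GK K →* ℚ_[ℓ]}
    {Pol : HeightOneSpectrum (𝓞 K) → ℤ[X]} {ρ : GK K →* Matrix n n ℚ_[ℓ]} {m : Type}
    [Fintype m] [DecidableEq m] {σ : GK K →* Matrix m m ℚ_[ℓ]}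

/-- equivariant linear maps satisfy the relations -/
theorem eqv_of_gal (h : IsK3Type q S χ Pol ρ) {P : Matrix m m ℚ_[ℓ]}
    {ψ : (n → ℚ_[ℓ]) → (n → ℚ_[ℓ]) → Matrix m m ℚ_[ℓ]} (hl : LieOf q χ ρ σ P ψ)
    {β : (n → ℚ_[ℓ]) →ₗ[ℚ_[ℓ]] (n → ℚ_[ℓ]) →ₗ[ℚ_[ℓ]] End ℚ_[ℓ] (m → ℚ_[ℓ])}
    (hβ : ∀ x y, β x y = Matrix.toLin' (ψ x y)) {r : ℕ} {e : Fin (2 * r + 1) → n → ℚ_[ℓ]}
    {a : Fin (2 * r + 1) → ℚ_[ℓ]} (he : ∀ s, e s ∈ orth q (tate χ ρ))
    (hee : ∀ s, form q (e s) (e s) = a s) (hne : ∀ s t, s ≠ t → form q (e s) (e t) = 0)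
    {Δ : Subgroup (GK K)} (hΔ : Δ.FiniteIndex)
    {φ : (n → ℚ_[ℓ]) →ₗ[ℚ_[ℓ]] End ℚ_[ℓ] (m → ℚ_[ℓ])}
    (hφ : ∀ g ∈ Δ, ∀ x, matRep σ g * φ x = φ (rep χ ρ g x) * matRep σ g) :
    Eqv a (fun s t => β (e s) (e t)) (fun s => φ (e s)) := by
  have key : ∀ x ∈ orth q (tate χ ρ), ∀ y ∈ orth q (tate χ ρ), form q x y = 0 → ∀ u,
      β x y * φ u - φ u * β x y = (2 * form q y u) • φ x - (2 * form q x u) • φ y := by
    intro x hx y hy hxy u
    have h1 := kill_lin hΔ hφ (hl x hx y hy) u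
    change Matrix.toLin' ((2⁻¹ : ℚ_[ℓ]) • ((x ⬝ᵥ q *ᵥ y) • P - ψ x y)) * φ u =
      φ (Matrix.toLin' (skewM q x y) u) +
        φ u * Matrix.toLin' ((2⁻¹ : ℚ_[ℓ]) • ((x ⬝ᵥ q *ᵥ y) • P - ψ x y)) at h1
    have hA : Matrix.toLin' ((2⁻¹ : ℚ_[ℓ]) • ((x ⬝ᵥ q *ᵥ y) • P - ψ x y)) =
        (-2⁻¹ : ℚ_[ℓ]) • β x y := by
      rw [← form_apply, hxy, zero_smul, zero_sub, hβ, map_smul, map_neg]
      module
    rw [hA, toLin_skewM h, wdg_apply, map_sub, map_smul, map_smul, smul_mul_assoc,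
      mul_smul_comm] at h1
    have h2 : (-2⁻¹ : ℚ_[ℓ]) • (β x y * φ u - φ u * β x y) =
        (-2⁻¹ : ℚ_[ℓ]) • ((2 * form q y u) • φ x - (2 * form q x u) • φ y) := by
      rw [smul_sub, h1, add_sub_cancel_right]
      module
    exact smul_right_injective _ (neg_ne_zero.2 (inv_ne_zero two_ne_zero)) h2
  refine ⟨fun i j l hij hi hj => ?_, fun i j hij => ?_⟩
  · have h1 := key _ (he i) _ (he j) (hne i j hij) (e l)
    rw [hne j l (Ne.symm hj), hne i l (Ne.symm hi), mul_zero, zero_smul, zero_smul,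
      sub_zero] at h1
    exact sub_eq_zero.1 h1
  · have h1 := key _ (he i) _ (he j) (hne i j hij) (e j)
    rw [hee, hne i j hij, mul_zero, zero_smul, sub_zero] at h1
    exact h1

theorem tw_cont (h : IsK3Type q S χ Pol ρ) : Continuous (fun g => tw χ ρ g) := by
  have h1 : (fun g => tw χ ρ g) = fun g => (χ g)⁻¹ • ρ g := funext fun g => tw_apply χ ρ g
  rw [h1]
  exact (h.continuous.2.inv₀ (chi_ne χ)).smul h.continuous.1

/-- the subgroup where the sign is one -/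
theorem sign_open (h : IsK3Type q S χ Pol ρ) (hσ : Continuous σ)
    {Θ : (n → ℚ_[ℓ]) →ₗ[ℚ_[ℓ]] Matrix m m ℚ_[ℓ]} {Δ : Subgroup (GK K)}
    (hΔ : IsOpen (Δ : Set (GK K)))
    (hs : ∀ g ∈ Δ, (∀ x, σ g * Θ x = Θ (tw χ ρ g *ᵥ x) * σ g) ∨
      ∀ x, σ g * Θ x = -(Θ (tw χ ρ g *ᵥ x) * σ g)) : IsTateMap χ ρ σ Θ := by
  by_cases hΘ : ∀ x, Θ x = 0
  · exact ⟨⊤, isOpen_univ, fun g _ x => by rw [hΘ, hΘ, mul_zero, zero_mul]⟩
  push Not at hΘ
  obtain ⟨x₀, hx₀⟩ := hΘ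
  let Δ' : Subgroup (GK K) :=
    { carrier := {g | g ∈ Δ ∧ ∀ x, σ g * Θ x = Θ (tw χ ρ g *ᵥ x) * σ g}
      one_mem' := ⟨Δ.one_mem, fun x => by
        rw [map_one, map_one, one_mul, mul_one, Matrix.one_mulVec]⟩
      mul_mem' := fun {g g'} hg hg' => ⟨Δ.mul_mem hg.1 hg'.1, fun x => by
        rw [map_mul, map_mul, mul_assoc, hg'.2, ← mul_assoc, hg.2, Matrix.mulVec_mulVec,
          mul_assoc]⟩
      inv_mem' := fun {g} hg => ⟨Δ.inv_mem hg.1, fun x => by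
        have h1 := hg.2 (tw χ ρ g⁻¹ *ᵥ x)
        rw [Matrix.mulVec_mulVec, ← map_mul, mul_inv_cancel, map_one, Matrix.one_mulVec] at h1
        calc σ g⁻¹ * Θ x = σ g⁻¹ * (Θ x * σ g) * σ g⁻¹ := by
              rw [mul_assoc, mul_assoc, ← map_mul, mul_inv_cancel, map_one, mul_one]
          _ = Θ (tw χ ρ g⁻¹ *ᵥ x) * σ g⁻¹ := by
              rw [← h1, ← mul_assoc, ← map_mul, inv_mul_cancel, map_one, one_mul]⟩ }
  refine ⟨Δ', ?_, fun g hg => hg.2⟩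
  have hcl : IsClosed {g : GK K | σ g * Θ x₀ + Θ (tw χ ρ g *ᵥ x₀) * σ g = 0} := by
    refine isClosed_eq ?_ continuous_const
    have h1 : Continuous (fun g => Θ (tw χ ρ g *ᵥ x₀)) :=
      (LinearMap.continuous_of_finiteDimensional Θ).comp
        ((tw_cont h).matrix_mulVec continuous_const)
    exact (hσ.mul continuous_const).add (h1.mul hσ)
  have heq : (Δ' : Set (GK K)) =
      (Δ : Set (GK K)) ∩ {g : GK K | σ g * Θ x₀ + Θ (tw χ ρ g *ᵥ x₀) * σ g = 0}ᶜ := by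
    ext g
    constructor
    · rintro ⟨hg, hg'⟩
      refine ⟨hg, fun h0 => hx₀ ?_⟩
      change σ g * Θ x₀ + Θ (tw χ ρ g *ᵥ x₀) * σ g = 0 at h0
      rw [← hg' x₀, ← two_smul ℚ_[ℓ]] at h0
      have h1 := (smul_eq_zero.1 h0).resolve_left two_ne_zero
      calc Θ x₀ = σ g⁻¹ * (σ g * Θ x₀) := by
            rw [← mul_assoc, ← map_mul, inv_mul_cancel, map_one, one_mul]
        _ = 0 := by rw [h1, mul_zero]
    · rintro ⟨hg, hg'⟩
      refine ⟨hg, (hs g hg).resolve_right fun h1 => hg' ?_⟩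
      change σ g * Θ x₀ + Θ (tw χ ρ g *ᵥ x₀) * σ g = 0
      rw [h1 x₀, neg_add_cancel]
  rw [heq]
  exact hΔ.inter hcl.isOpen_compl

/-- **The Kuga-Satake class**, and the classification of the Tate classes -/
theorem cls_core (h : IsK3Type q S χ Pol ρ) (hss : Semisimple ρ) (hc : ScalarEnds q χ ρ)
    (hd3 : 3 ≤ finrank ℚ_[ℓ] (orth q (tate χ ρ)))
    (hodd : Odd (finrank ℚ_[ℓ] (orth q (tate χ ρ)))) {j : ℤ} (hw : WeightOneAt j σ)
    {P : Matrix m m ℚ_[ℓ]} {ψ : (n → ℚ_[ℓ]) → (n → ℚ_[ℓ]) → Matrix m m ℚ_[ℓ]}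
    (p : IsKugaSatake q χ ρ σ ⊤ P ψ) (hl : LieOf q χ ρ σ P ψ) :
    ∃ θ : (n → ℚ_[ℓ]) →ₗ[ℚ_[ℓ]] Matrix m m ℚ_[ℓ], IsTateMap χ ρ σ θ ∧
      IsKSClass (orth q (tate χ ρ)) P ψ θ ∧
      (∀ M ∈ TateEnd σ P, ∀ x ∈ orth q (tate χ ρ), θ x * M = M * θ x) ∧
      ∀ φ, IsTateMap χ ρ σ φ → ∃ M ∈ TateEnd σ P, ∀ x ∈ orth q (tate χ ρ), φ x = M * θ x := by
  have hE := fun M => tate_iff h hss hc hd3 hw p hl M
  obtain ⟨a, U, W', Fr⟩ := exists_frame h hss hc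
  obtain ⟨β, hβ, hcl, heq⟩ := rel_of h.symm p
  obtain ⟨r, hr⟩ := hodd
  have hmul : ∀ A B : Matrix m m ℚ_[ℓ], Matrix.toLin' A * Matrix.toLin' B =
      Matrix.toLin' (A * B) := fun A B => (Matrix.toLin'_mul A B).symm
  have hmul' : ∀ A B : End ℚ_[ℓ] (m → ℚ_[ℓ]), LinearMap.toMatrix' A * LinearMap.toMatrix' B =
      LinearMap.toMatrix' (A * B) := fun A B => (LinearMap.toMatrix'_mul A B).symm
  have he : ∀ s : Fin (2 * r + 1), ev U (Fin.cast hr.symm s) ∈ orth q (tate χ ρ) :=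
    fun s => ev_mem Fr _
  have hee : ∀ s : Fin (2 * r + 1), form q (ev U (Fin.cast hr.symm s))
      (ev U (Fin.cast hr.symm s)) = a (Fin.cast hr.symm s) := fun s => ev_self Fr _
  have hne : ∀ s t : Fin (2 * r + 1), s ≠ t → form q (ev U (Fin.cast hr.symm s))
      (ev U (Fin.cast hr.symm t)) = 0 := fun s t hst =>
    ev_ne Fr (fun h' => hst (Fin.cast_injective _ h'))
  have ha : ∀ s : Fin (2 * r + 1), a (Fin.cast hr.symm s) ≠ 0 := fun s => Fr.ne _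
  have hsp : ∀ x ∈ orth q (tate χ ρ), ∃ c : Fin (2 * r + 1) → ℚ_[ℓ],
      x = ∑ s, c s • ev U (Fin.cast hr.symm s) := by
    intro x hx
    refine ⟨fun s => (W' *ᵥ x) (Fin.cast hr.symm s), ?_⟩
    conv_lhs => rw [ev_sum Fr hx]
    exact Fintype.sum_equiv (finCongr hr) _ _ fun s => rfl
  have hr1 : 1 ≤ r := by omega
  obtain ⟨θ₀, c, hc0, hP₀, hθ₀, hθc₀⟩ := exists_root (k := ℚ_[ℓ]) hcl
    (e := fun s => ev U (Fin.cast hr.symm s)) (a := fun s => a (Fin.cast hr.symm s))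
    he hee hne ha hsp
  obtain ⟨π, π1, π2, π3⟩ := exists_pi h hss
  let πL : (n → ℚ_[ℓ]) →ₗ[ℚ_[ℓ]] (n → ℚ_[ℓ]) := (orth q (tate χ ρ)).subtype ∘ₗ π
  have hπ : ∀ x, πL x = π x := fun x => rfl
  have hπT : ∀ x ∈ orth q (tate χ ρ), πL x = x := fun x hx => by rw [hπ, π1 ⟨x, hx⟩]
  have hπm : ∀ x, πL x ∈ orth q (tate χ ρ) := fun x => (π x).2
  have hπg : ∀ g x, πL (rep χ ρ g x) = rep χ ρ g (πL x) := fun g x => π3 g x
  let θ : (n → ℚ_[ℓ]) →ₗ[ℚ_[ℓ]] End ℚ_[ℓ] (m → ℚ_[ℓ]) := θ₀ ∘ₗ πL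
  have hθ0 : ∀ x, θ x = θ₀ (πL x) := fun x => rfl
  have hP : ∀ x, Matrix.toLin' P * θ x = θ x ∧ θ x * Matrix.toLin' P = θ x := fun x => hP₀ _
  have hθ : ∀ x ∈ orth q (tate χ ρ), ∀ y ∈ orth q (tate χ ρ), θ x * θ y = c • β x y := by
    intro x hx y hy
    rw [hθ0, hθ0, hπT x hx, hπT y hy, hθ₀ x hx y hy]
  have hθc : ∀ b : End ℚ_[ℓ] (m → ℚ_[ℓ]), b * Matrix.toLin' P = Matrix.toLin' P * b →
      (∀ x ∈ orth q (tate χ ρ), ∀ y ∈ orth q (tate χ ρ), β x y * b = b * β x y) →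
      ∀ x ∈ orth q (tate χ ρ), θ x * b = b * θ x := by
    intro b hb1 hb2 x hx
    rw [hθ0, hπT x hx]
    exact hθc₀ b hb1 hb2 x hx
  obtain ⟨Δ, hΔ, hmaps⟩ := uk_maps h hss hc hd3 hw hw ⊤ ⊤ P ψ P ψ isOpen_univ isOpen_univ p p
  have hmem : ∀ N : End ℚ_[ℓ] (m → ℚ_[ℓ]), Matrix.toLin' P * N = N → N * Matrix.toLin' P = N →
      (∀ x ∈ orth q (tate χ ρ), ∀ y ∈ orth q (tate χ ρ), β x y * N = N * β x y) →
      CommutesWithClifford (orth q (tate χ ρ)) P ψ (LinearMap.toMatrix' N) := by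
    intro N n1 n2 n3
    refine ⟨?_, ?_, fun x hx y hy => ?_⟩
    · refine Matrix.toLin'.injective ?_
      rw [← hmul, Matrix.toLin'_toMatrix', n1]
    · refine Matrix.toLin'.injective ?_
      rw [← hmul, Matrix.toLin'_toMatrix', n2]
    · refine Matrix.toLin'.injective ?_
      rw [← hmul, ← hmul, Matrix.toLin'_toMatrix', ← hβ, n3 x hx y hy]
  have hrr : ∀ g x, rep χ ρ g (rep χ ρ g⁻¹ x) = x := by
    intro g x
    rw [← Module.End.mul_apply, ← map_mul, mul_inv_cancel, map_one, Module.End.one_apply]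
  have hrr' : ∀ g x, rep χ ρ g⁻¹ (rep χ ρ g x) = x := by
    intro g x
    rw [← Module.End.mul_apply, ← map_mul, inv_mul_cancel, map_one, Module.End.one_apply]
  let Θ : (n → ℚ_[ℓ]) →ₗ[ℚ_[ℓ]] Matrix m m ℚ_[ℓ] :=
    (LinearMap.toMatrix' : _ ≃ₗ[ℚ_[ℓ]] Matrix m m ℚ_[ℓ]).toLinearMap ∘ₗ θ
  have hΘ : ∀ x, Matrix.toLin' (Θ x) = θ x := fun x => Matrix.toLin'_toMatrix' _
  refine ⟨Θ, sign_open h hw.continuous hΔ fun g hg => ?_, ⟨fun x => ⟨?_, ?_⟩, c, hc0,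
    fun x hx y hy => ?_⟩, fun M hM x hx => ?_, ?_⟩
  · have key := root_sign (k := ℚ_[ℓ]) hcl (form_symm h.symm)
      (e := fun s => ev U (Fin.cast hr.symm s)) (a := fun s => a (Fin.cast hr.symm s))
      he hee hne ha hsp hr1 hc0 hP hθ hθc
      (S := matRep σ g) (S' := matRep σ g⁻¹)
      (by rw [← map_mul, mul_inv_cancel, map_one]) (by rw [← map_mul, inv_mul_cancel, map_one])
      (proj_comm h Fr hd3 hcl (heq g trivial)) (R := rep χ ρ g⁻¹)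
      (fun x hx => orth_rep h g⁻¹ hx)
      (fun x _ y _ => by rw [heq g trivial, hrr, hrr])
      (fun N n1 n2 n3 => by
        have h1 := hmaps (LinearMap.toMatrix' N) (hmem N n1 n2 n3) g hg
        have h2 := congrArg Matrix.toLin' h1
        rw [← hmul, ← hmul, Matrix.toLin'_toMatrix'] at h2
        exact h2)
    have hconv : ∀ x, θ (rep χ ρ g x) = θ (rep χ ρ g (πL x)) := fun x => by
      rw [hθ0, hθ0, hπg, hπg, hπT _ (hπm x)]
    have hconv' : ∀ x, θ x = θ (πL x) := fun x => by rw [hθ0, hθ0, hπT _ (hπm x)]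
    have htw : ∀ x, tw χ ρ g *ᵥ x = rep χ ρ g x := fun x => rfl
    rcases key with key | key
    · left
      intro x
      refine Matrix.toLin'.injective ?_
      have h1 := key _ (orth_rep h g (hπm x))
      rw [hrr', ← hconv, ← hconv'] at h1
      rw [← hmul, ← hmul, hΘ, hΘ, htw]
      exact h1
    · right
      intro x
      refine Matrix.toLin'.injective ?_
      have h1 := key _ (orth_rep h g (hπm x))
      rw [hrr', ← hconv, ← hconv'] at h1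
      rw [map_neg, ← hmul, ← hmul, hΘ, hΘ, htw]
      exact h1
  · refine Matrix.toLin'.injective ?_
    rw [← hmul, hΘ, (hP x).1]
  · refine Matrix.toLin'.injective ?_
    rw [← hmul, hΘ, (hP x).2]
  · refine Matrix.toLin'.injective ?_
    rw [← hmul, hΘ, hΘ, hθ x hx y hy, map_smul, hβ]
  · refine Matrix.toLin'.injective ?_
    rw [← hmul, ← hmul, hΘ]
    have hM' := (hE M).1 hM
    refine hθc _ ?_ (fun x hx y hy => ?_) x hx
    · rw [hmul, hmul, hM'.1, hM'.2.1]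
    · rw [hβ, hmul, hmul, hM'.2.2 x hx y hy]
  · rintro φ ⟨Δ', hΔ', hφ⟩
    have hcomp : CompactSpace (GK K) := inferInstance
    have hfin : Finite (GK K ⧸ Δ') := Subgroup.quotient_finite_of_isOpen _ hΔ'
    have hfi : Δ'.FiniteIndex := Subgroup.finiteIndex_of_finite_quotient
    have hEq := eqv_of_gal h hl hβ (e := fun s => ev U (Fin.cast hr.symm s))
      (a := fun s => a (Fin.cast hr.symm s)) he hee hne hfi
      (φ := (Matrix.toLin' : Matrix m m ℚ_[ℓ] ≃ₗ[ℚ_[ℓ]] _).toLinearMap ∘ₗ φ)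
      (fun g hg x => by
        have h1 := congrArg Matrix.toLin' (hφ g hg x)
        rw [← hmul, ← hmul] at h1
        exact h1)
    obtain ⟨M, m1, m2, m3, m4⟩ := root_mult (k := ℚ_[ℓ]) hcl (form_symm h.symm)
      (e := fun s => ev U (Fin.cast hr.symm s)) (a := fun s => a (Fin.cast hr.symm s))
      he hee hne ha hsp hr1 hc0 (fun x _ => hP x) hθ hEq
    refine ⟨LinearMap.toMatrix' M, (hE _).2 (hmem M m1 m2 m3), fun x hx => ?_⟩
    refine Matrix.toLin'.injective ?_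
    rw [← hmul, Matrix.toLin'_toMatrix', hΘ]
    exact m4 x hx

end Pool.Agent.H851.UK
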