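import Mathlib
import Pool.Agent.H851.UK.Cor

/-!
# The commutant of the even Clifford algebra is simple, in odd dimension
-/

set_option autoImplicit false
set_option linter.unusedSectionVars false
set_option linter.unusedVariables false

namespace Pool.Agent.H851.UK

open Module

section

variable {k W : Type} [Field k] [CharZero k] [AddCommGroup W] [Module k W] {r : ℕ}
  {a : Fin (2 * r + 1) → k} {P : End k W} {Ψ : Fin (2 * r + 1) → Fin (2 * r + 1) → End k W}

/-- the commutant of the commutant -/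
def IsC (P : End k W) (Ψ : Fin (2 * r + 1) → Fin (2 * r + 1) → End k W) (c : End k W) : Prop :=
  P * c = c ∧ c * P = c ∧ ∀ N ∈ comS (r := r) P Ψ (2 * r), N * c = c * N

theorem isC_mul {c c' : End k W} (h : IsC P Ψ c) (h' : IsC P Ψ c') : IsC P Ψ (c * c') :=
  ⟨by rw [← mul_assoc, h.1], by rw [mul_assoc, h'.2.1], fun N hN => by
    rw [← mul_assoc, h.2.2 N hN, mul_assoc, h'.2.2 N hN, mul_assoc]⟩

theorem isC_add {c c' : End k W} (h : IsC P Ψ c) (h' : IsC P Ψ c') : IsC P Ψ (c + c') :=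
  ⟨by rw [mul_add, h.1, h'.1], by rw [add_mul, h.2.1, h'.2.1], fun N hN => by
    rw [mul_add, add_mul, h.2.2 N hN, h'.2.2 N hN]⟩

theorem isC_smul {c : End k W} (t : k) (h : IsC P Ψ c) : IsC P Ψ (t • c) :=
  ⟨by rw [mul_smul_comm, h.1], by rw [smul_mul_assoc, h.2.1], fun N hN => by
    rw [mul_smul_comm, smul_mul_assoc, h.2.2 N hN]⟩

theorem isC_proj (h : IsCl a P Ψ) : IsC P Ψ P :=
  ⟨h.idem, h.idem, fun N hN => by rw [hN.1, hN.2.1]⟩

theorem isC_gen (h : IsCl a P Ψ) {i : Fin (2 * r + 1)} (hi : i ≠ 0) : IsC P Ψ (Ψ 0 i) :=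
  ⟨h.left _ _, h.right _ _, fun N hN => (hN.2.2 i hi (by omega)).symm⟩

theorem comS_mul {j : ℕ} {M N : End k W} (hM : M ∈ comS (r := r) P Ψ j)
    (hN : N ∈ comS (r := r) P Ψ j) : M * N ∈ comS (r := r) P Ψ j :=
  ⟨by rw [← mul_assoc, hM.1], by rw [mul_assoc, hN.2.1], fun i hi hij => by
    rw [← mul_assoc, hM.2.2 i hi hij, mul_assoc, hN.2.2 i hi hij, mul_assoc]⟩

/-- the decomposition of the operators which commute with the first generators -/
theorem comS_dec (h : IsCl a P Ψ) (ha : ∀ s, a s ≠ 0) {j : ℕ} (hj : j + 1 ≤ 2 * r) :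
    ∃ w : End k W, IsC P Ψ w ∧ ∀ M ∈ comS (r := r) P Ψ j, ∃ X ∈ comS (r := r) P Ψ (j + 1),
      ∃ Y ∈ comS (r := r) P Ψ (j + 1), M = X + Y * w := by
  obtain ⟨z, d, hd, g1, g2, g3, -, g5, g6⟩ := h.prodw ha (2 * r) le_rfl
  have hz : ∀ i : Fin (2 * r + 1), i ≠ 0 → Ψ 0 i * z = -(z * Ψ 0 i) := by
    intro i hi
    rw [g5 i hi (by omega), pow_succ, pow_mul, neg_one_sq, one_pow, one_mul, neg_one_smul]
  have hzC : IsC P Ψ z := ⟨g1, g2, fun N hN => g6 N (by rw [hN.1, hN.2.1]) fun s t =>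
    (h.comm_all ha hN.1 hN.2.1 (fun i hi => hN.2.2 i hi (by omega)) s t).symm⟩
  let i₀ : Fin (2 * r + 1) := ⟨j + 1, by omega⟩
  have hi₀ : i₀ ≠ 0 := fun h' => absurd (congrArg Fin.val h') (by simp [i₀])
  have hc0 : -(a 0 * a i₀) ≠ 0 := neg_ne_zero.2 (mul_ne_zero (ha _) (ha _))
  set γ : End k W := Ψ 0 i₀ with hγ
  have hγγ : γ * γ = -(a 0 * a i₀) • P := h.gen_sq hi₀
  have hγP : γ * P = γ := h.right 0 i₀
  have hPγ : P * γ = γ := h.left 0 i₀
  have hzγ : γ * z = -(z * γ) := hz i₀ hi₀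
  have hww0 : z * γ * (z * γ) = (-(-(a 0 * a i₀) * d)) • P := by
    calc z * γ * (z * γ) = z * (γ * z) * γ := by simp only [mul_assoc]
      _ = -((z * z) * (γ * γ)) := by rw [hzγ]; simp only [mul_assoc, mul_neg, neg_mul]
      _ = _ := by rw [g3, hγγ, mul_smul_comm, smul_mul_assoc, h.idem, smul_smul, neg_smul]
  obtain ⟨w, hw⟩ : ∃ w, w = z * γ := ⟨_, rfl⟩
  have hww : w * w = (-(-(a 0 * a i₀) * d)) • P := by rw [hw, hww0]
  have hPw : P * w = w := by rw [hw, ← mul_assoc, g1]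
  have hwP : w * P = w := by rw [hw, mul_assoc, hγP]
  have hγw : γ * w = -(w * γ) := by rw [hw, ← mul_assoc, hzγ, neg_mul]
  have hiw : ∀ i : Fin (2 * r + 1), i ≠ 0 → i ≠ i₀ → Ψ 0 i * w = w * Ψ 0 i := by
    intro i hi hne
    have e0 := h.gen_anti hi hi₀ hne
    rw [← hγ] at e0
    rw [hw]
    calc Ψ 0 i * (z * γ) = (Ψ 0 i * z) * γ := by rw [mul_assoc]
      _ = -(z * (Ψ 0 i * γ)) := by rw [hz i hi, neg_mul, mul_assoc]
      _ = z * γ * Ψ 0 i := by rw [e0, mul_neg, neg_neg, mul_assoc]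
  have he0 : -(-(a 0 * a i₀) * d) ≠ 0 := neg_ne_zero.2 (mul_ne_zero hc0 hd)
  set e : k := -(-(a 0 * a i₀) * d) with he
  have conj : ∀ M : End k W, P * M = M → M * P = M →
      γ * ((-(a 0 * a i₀))⁻¹ • (γ * M * γ)) = M * γ ∧
      ((-(a 0 * a i₀))⁻¹ • (γ * M * γ)) * γ = γ * M := by
    intro M m1 m2
    constructor
    · rw [mul_smul_comm]
      calc (-(a 0 * a i₀))⁻¹ • (γ * (γ * M * γ)) = (-(a 0 * a i₀))⁻¹ • ((γ * γ) * M * γ) := by
            simp only [mul_assoc]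
        _ = M * γ := by
            rw [hγγ, smul_mul_assoc, smul_mul_assoc, m1, smul_smul, inv_mul_cancel₀ hc0, one_smul]
    · rw [smul_mul_assoc]
      calc (-(a 0 * a i₀))⁻¹ • (γ * M * γ * γ) = (-(a 0 * a i₀))⁻¹ • (γ * M * (γ * γ)) := by
            simp only [mul_assoc]
        _ = γ * M := by
            rw [hγγ, mul_smul_comm, mul_assoc, m2, smul_smul, inv_mul_cancel₀ hc0, one_smul]
  refine ⟨w, by rw [hw]; exact isC_mul hzC (isC_gen h hi₀), ?_⟩
  rintro M ⟨m1, m2, m3⟩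
  obtain ⟨c1, c2⟩ := conj M m1 m2
  set M' : End k W := (-(a 0 * a i₀))⁻¹ • (γ * M * γ) with hM'
  have hPM' : P * M' = M' := by rw [hM', mul_smul_comm, ← mul_assoc, ← mul_assoc, hPγ]
  have hM'P : M' * P = M' := by rw [hM', smul_mul_assoc, mul_assoc, hγP]
  have hM'i : ∀ i : Fin (2 * r + 1), i ≠ 0 → (i : ℕ) ≤ j → Ψ 0 i * M' = M' * Ψ 0 i := by
    intro i hi hij
    have hne : i ≠ i₀ := fun h' => by
      rw [h'] at hij
      simp [i₀] at hij
    have e0 := h.gen_anti hi hi₀ hne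
    rw [← hγ] at e0
    rw [hM', mul_smul_comm, smul_mul_assoc]
    congr 1
    calc Ψ 0 i * (γ * M * γ) = (Ψ 0 i * γ) * M * γ := by simp only [mul_assoc]
      _ = -(γ * (Ψ 0 i * M) * γ) := by rw [e0]; simp only [mul_assoc, neg_mul]
      _ = -(γ * M * (Ψ 0 i * γ)) := by rw [m3 i hi hij]; simp only [mul_assoc]
      _ = γ * M * γ * Ψ 0 i := by rw [e0]; simp only [mul_assoc, mul_neg, neg_neg]
  have hlast : ∀ i : Fin (2 * r + 1), (i : ℕ) ≤ j + 1 → i ≠ i₀ → (i : ℕ) ≤ j := by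
    intro i hij hne
    have h1 : (i : ℕ) ≠ j + 1 := fun h' => hne (Fin.ext h')
    omega
  refine ⟨(2⁻¹ : k) • (M + M'), ⟨?_, ?_, fun i hi hij => ?_⟩,
    (2⁻¹ * e⁻¹ : k) • ((M - M') * w), ⟨?_, ?_, fun i hi hij => ?_⟩, ?_⟩
  · rw [mul_smul_comm, mul_add, m1, hPM']
  · rw [smul_mul_assoc, add_mul, m2, hM'P]
  · rw [mul_smul_comm, smul_mul_assoc]
    congr 1
    by_cases hne : i = i₀
    · subst hne
      rw [← hγ, mul_add, add_mul, c1, c2, add_comm]
    · rw [mul_add, add_mul, m3 i hi (hlast i hij hne), hM'i i hi (hlast i hij hne)]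
  · rw [mul_smul_comm, ← mul_assoc, mul_sub, m1, hPM']
  · rw [smul_mul_assoc, mul_assoc, hwP]
  · rw [mul_smul_comm, smul_mul_assoc]
    congr 1
    by_cases hne : i = i₀
    · subst hne
      rw [← hγ]
      have e1 : γ * (M - M') = -((M - M') * γ) := by rw [mul_sub, sub_mul, c1, c2, neg_sub]
      calc γ * ((M - M') * w) = (γ * (M - M')) * w := by rw [mul_assoc]
        _ = -((M - M') * (γ * w)) := by rw [e1, neg_mul, mul_assoc]
        _ = (M - M') * w * γ := by rw [hγw, mul_neg, neg_neg, mul_assoc]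
    · have e1 : Ψ 0 i * (M - M') = (M - M') * Ψ 0 i := by
        rw [mul_sub, sub_mul, m3 i hi (hlast i hij hne), hM'i i hi (hlast i hij hne)]
      rw [← mul_assoc, e1, mul_assoc, hiw i hi hne, mul_assoc]
  · have e1 : (M - M') * w * w = e • (M - M') := by
      rw [mul_assoc, hww, mul_smul_comm, sub_mul, m2, hM'P]
    rw [smul_mul_assoc, e1, smul_smul, mul_assoc, inv_mul_cancel₀ he0, mul_one, ← smul_add]
    have e2 : M + M' + (M - M') = (2 : k) • M := by
      rw [two_smul]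
      abel
    rw [e2, smul_smul, inv_mul_cancel₀ two_ne_zero, one_smul]

/-- the span of the products of Tate and Clifford elements -/
def spE (P : End k W) (Ψ : Fin (2 * r + 1) → Fin (2 * r + 1) → End k W)
    (J : Submodule k (End k W)) : Submodule k (End k W) :=
  Submodule.span k {X | ∃ N ∈ J, ∃ c, IsC P Ψ c ∧ N * c = X}

theorem spE_mulC {J : Submodule k (End k W)} {X c : End k W} (hX : X ∈ spE P Ψ J)
    (hc : IsC P Ψ c) : X * c ∈ spE P Ψ J := by
  induction hX using Submodule.span_induction with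
  | mem z hz =>
    obtain ⟨N, hN, c', hc', rfl⟩ := hz
    exact Submodule.subset_span ⟨N, hN, c' * c, isC_mul hc' hc, (mul_assoc _ _ _).symm⟩
  | zero => rw [zero_mul]; exact Submodule.zero_mem _
  | add z w _ _ h1 h2 => rw [add_mul]; exact Submodule.add_mem _ h1 h2
  | smul t z _ h1 => rw [smul_mul_assoc]; exact Submodule.smul_mem _ t h1

/-- all operators are combinations of products -/
theorem comS_le (h : IsCl a P Ψ) (ha : ∀ s, a s ≠ 0) (i : ℕ) (hi : i ≤ 2 * r) :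
    comS (r := r) P Ψ (2 * r - i) ≤ spE P Ψ (comS (r := r) P Ψ (2 * r)) := by
  induction i with
  | zero =>
    intro X hX
    rw [Nat.sub_zero] at hX
    exact Submodule.subset_span ⟨X, hX, P, isC_proj h, hX.2.1⟩
  | succ i ih =>
    intro M hM
    have h1 : 2 * r - (i + 1) + 1 = 2 * r - i := by omega
    obtain ⟨w, hw, hdec⟩ := comS_dec h ha (j := 2 * r - (i + 1)) (by omega)
    obtain ⟨X, hX, Y, hY, rfl⟩ := hdec M hM
    rw [h1] at hX hY
    exact Submodule.add_mem _ (ih (by omega) hX) (spE_mulC (ih (by omega) hY) hw)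

/-- products around an element of the commutant -/
theorem spE_mul {M₀ X Y : End k W} (hM₀ : M₀ ∈ comS (r := r) P Ψ (2 * r))
    {J : Submodule k (End k W)}
    (hJ : ∀ A ∈ comS (r := r) P Ψ (2 * r), ∀ B ∈ comS (r := r) P Ψ (2 * r), A * M₀ * B ∈ J)
    (hX : X ∈ spE P Ψ (comS (r := r) P Ψ (2 * r)))
    (hY : Y ∈ spE P Ψ (comS (r := r) P Ψ (2 * r))) : X * M₀ * Y ∈ spE P Ψ J := by
  induction hX using Submodule.span_induction with
  | mem z hz =>
    obtain ⟨N, hN, c, hc, rfl⟩ := hz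
    induction hY using Submodule.span_induction with
    | mem z hz =>
      obtain ⟨N', hN', c', hc', rfl⟩ := hz
      refine Submodule.subset_span ⟨N * M₀ * N', hJ N hN N' hN', c * c', isC_mul hc hc', ?_⟩
      calc N * M₀ * N' * (c * c') = N * M₀ * (N' * c) * c' := by simp only [mul_assoc]
        _ = N * (M₀ * c) * N' * c' := by rw [hc.2.2 N' hN']; simp only [mul_assoc]
        _ = N * c * M₀ * (N' * c') := by rw [hc.2.2 M₀ hM₀]; simp only [mul_assoc]
    | zero => rw [mul_zero]; exact Submodule.zero_mem _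
    | add z w _ _ h1 h2 => rw [mul_add]; exact Submodule.add_mem _ h1 h2
    | smul t z _ h1 => rw [mul_smul_comm]; exact Submodule.smul_mem _ t h1
  | zero => rw [zero_mul, zero_mul]; exact Submodule.zero_mem _
  | add z w _ _ h1 h2 => rw [add_mul, add_mul]; exact Submodule.add_mem _ h1 h2
  | smul t z _ h1 => rw [smul_mul_assoc, smul_mul_assoc]; exact Submodule.smul_mem _ t h1

/-- averaging over the generators -/
theorem exists_avg (h : IsCl a P Ψ) (ha : ∀ s, a s ≠ 0) (j : ℕ) (hj : j ≤ 2 * r) :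
    ∃ A : End k W →ₗ[k] End k W, A P = P ∧
      (∀ N ∈ comS (r := r) P Ψ (2 * r), ∀ X, A (N * X) = N * A X) ∧
      ∀ c, IsC P Ψ c → IsC P Ψ (A c) ∧ A c ∈ comS (r := r) P Ψ j := by
  induction j with
  | zero =>
    exact ⟨LinearMap.id, rfl, fun N _ X => rfl, fun c hc => ⟨hc, hc.1, hc.2.1,
      fun i hi hi' => absurd (Fin.ext (by simpa using hi')) hi⟩⟩
  | succ j ih =>
    obtain ⟨A, a1, a2, a3⟩ := ih (by omega)
    let i₀ : Fin (2 * r + 1) := ⟨j + 1, by omega⟩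
    have hi₀ : i₀ ≠ 0 := fun h' => absurd (congrArg Fin.val h') (by simp [i₀])
    have hc0 : -(a 0 * a i₀) ≠ 0 := neg_ne_zero.2 (mul_ne_zero (ha _) (ha _))
    have hγγ : Ψ 0 i₀ * Ψ 0 i₀ = -(a 0 * a i₀) • P := h.gen_sq hi₀
    let D : End k W →ₗ[k] End k W := (2⁻¹ : k) • (LinearMap.id + (-(a 0 * a i₀))⁻¹ •
      (LinearMap.mulLeft k (Ψ 0 i₀) ∘ₗ LinearMap.mulRight k (Ψ 0 i₀)))
    have hD : ∀ X, D X = (2⁻¹ : k) • (X + (-(a 0 * a i₀))⁻¹ • (Ψ 0 i₀ * (X * Ψ 0 i₀))) :=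
      fun X => rfl
    refine ⟨D ∘ₗ A, ?_, fun N hN X => ?_, fun c hc => ?_⟩
    · change D (A P) = P
      rw [a1, hD, h.left, hγγ, smul_smul, inv_mul_cancel₀ hc0, one_smul, ← two_smul k P, smul_smul,
        inv_mul_cancel₀ two_ne_zero, one_smul]
    · change D (A (N * X)) = N * D (A X)
      have h1 : Ψ 0 i₀ * N = N * Ψ 0 i₀ := hN.2.2 i₀ hi₀ (by omega)
      rw [a2 N hN, hD, hD, mul_smul_comm, mul_add, mul_smul_comm]
      congr 3
      calc Ψ 0 i₀ * (N * A X * Ψ 0 i₀) = (Ψ 0 i₀ * N) * (A X * Ψ 0 i₀) := by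
            simp only [mul_assoc]
        _ = N * (Ψ 0 i₀ * (A X * Ψ 0 i₀)) := by rw [h1]; simp only [mul_assoc]
    · change IsC P Ψ (D (A c)) ∧ D (A c) ∈ _
      obtain ⟨b1, b2⟩ := a3 c hc
      have hγC := isC_gen h hi₀
      have b3 : IsC P Ψ (D (A c)) := by
        rw [hD]
        exact isC_smul _ (isC_add b1 (isC_smul _ (isC_mul hγC (isC_mul b1 hγC))))
      refine ⟨b3, b3.1, b3.2.1, fun i hi hij => ?_⟩
      generalize A c = X at b1 b2
      rw [hD, mul_smul_comm, smul_mul_assoc]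
      congr 1
      by_cases hne : i = i₀
      · subst hne
        rw [mul_add, add_mul, mul_smul_comm, smul_mul_assoc]
        have e1 : Ψ 0 i₀ * (Ψ 0 i₀ * (X * Ψ 0 i₀)) = (-(a 0 * a i₀)) • (X * Ψ 0 i₀) := by
          rw [← mul_assoc, hγγ, smul_mul_assoc, ← mul_assoc, b1.1]
        have e2 : Ψ 0 i₀ * (X * Ψ 0 i₀) * Ψ 0 i₀ = (-(a 0 * a i₀)) • (Ψ 0 i₀ * X) := by
          rw [mul_assoc, mul_assoc, hγγ, mul_smul_comm, b1.2.1, mul_smul_comm]
        rw [e1, e2, smul_smul, smul_smul, inv_mul_cancel₀ hc0, one_smul, one_smul, add_comm]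
      · have hlt : (i : ℕ) ≤ j := by
          have h1 : (i : ℕ) ≠ j + 1 := fun h' => hne (Fin.ext h')
          omega
        have e0 := h.gen_anti hi hi₀ hne
        have e1 := b2.2.2 i hi hlt
        have e2 : Ψ 0 i * (Ψ 0 i₀ * (X * Ψ 0 i₀)) = Ψ 0 i₀ * (X * Ψ 0 i₀) * Ψ 0 i := by
          calc Ψ 0 i * (Ψ 0 i₀ * (X * Ψ 0 i₀)) = (Ψ 0 i * Ψ 0 i₀) * (X * Ψ 0 i₀) := by
                simp only [mul_assoc]
            _ = -(Ψ 0 i₀ * ((Ψ 0 i * X) * Ψ 0 i₀)) := by
                rw [e0]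
                simp only [mul_assoc, neg_mul]
            _ = -(Ψ 0 i₀ * (X * (Ψ 0 i * Ψ 0 i₀))) := by
                rw [e1]
                simp only [mul_assoc]
            _ = _ := by
                rw [e0]
                simp only [mul_assoc, mul_neg, neg_neg]
        rw [mul_add, add_mul, e1, mul_smul_comm, smul_mul_assoc, e2]

/-- the projection is generated by each nonzero element of the commutant, up to all operators -/
theorem rank_one [FiniteDimensional k W] {M₀ : End k W} (h0 : M₀ ≠ 0) (hP : P * P = P)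
    (h1 : P * M₀ = M₀) (h2 : M₀ * P = M₀) {J : Submodule k (End k W)}
    (hJ : ∀ X Y : End k W, P * X = X → X * P = X → P * Y = Y → Y * P = Y → X * M₀ * Y ∈ J) :
    P ∈ J := by
  obtain ⟨v, hv⟩ : ∃ v, M₀ v ≠ 0 := by
    by_contra h'
    push Not at h'
    exact h0 (LinearMap.ext h')
  obtain ⟨φ, hφ⟩ : ∃ φ : Dual k W, φ (M₀ v) ≠ 0 := by
    by_contra h'
    push Not at h'
    exact hv ((Module.forall_dual_apply_eq_zero_iff k (M₀ v)).1 h')
  let b := Module.finBasis k W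
  have hPP : ∀ y, P (P y) = P y := fun y => LinearMap.congr_fun hP y
  have hPM : ∀ y, P (M₀ y) = M₀ y := fun y => LinearMap.congr_fun h1 y
  have hMP : ∀ y, M₀ (P y) = M₀ y := fun y => LinearMap.congr_fun h2 y
  have hsum : P = ∑ i, (φ (M₀ v))⁻¹ • ((LinearMap.smulRight (φ ∘ₗ P) (P (b i))) * M₀ *
      (LinearMap.smulRight (b.coord i ∘ₗ P) (P v))) := by
    refine LinearMap.ext fun x => ?_
    have e1 : P x = ∑ i, b.repr (P x) i • P (b i) := by
      conv_lhs => rw [← hPP x, ← b.sum_repr (P x), map_sum]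
      refine Finset.sum_congr rfl fun i _ => ?_
      rw [map_smul]
    rw [LinearMap.sum_apply, e1]
    refine Finset.sum_congr rfl fun i _ => ?_
    rw [LinearMap.smul_apply, Module.End.mul_apply, Module.End.mul_apply,
      LinearMap.smulRight_apply, LinearMap.smulRight_apply, LinearMap.comp_apply,
      LinearMap.comp_apply, map_smul, hMP, map_smul, hPM, map_smul, Basis.coord_apply,
      smul_eq_mul, smul_smul, mul_comm (b.repr (P x) i), ← mul_assoc, inv_mul_cancel₀ hφ, one_mul]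
  rw [hsum]
  refine Submodule.sum_mem _ fun i _ => Submodule.smul_mem _ _ (hJ _ _ ?_ ?_ ?_ ?_)
  · refine LinearMap.ext fun x => ?_
    rw [Module.End.mul_apply, LinearMap.smulRight_apply, map_smul, hPP]
  · refine LinearMap.ext fun x => ?_
    rw [Module.End.mul_apply, LinearMap.smulRight_apply, LinearMap.smulRight_apply,
      LinearMap.comp_apply, LinearMap.comp_apply, hPP]
  · refine LinearMap.ext fun x => ?_
    rw [Module.End.mul_apply, LinearMap.smulRight_apply, map_smul, hPP]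
  · refine LinearMap.ext fun x => ?_
    rw [Module.End.mul_apply, LinearMap.smulRight_apply, LinearMap.smulRight_apply,
      LinearMap.comp_apply, LinearMap.comp_apply, hPP]

/-- **The commutant is simple.** -/
theorem IsCl.simple [FiniteDimensional k W] (h : IsCl a P Ψ) (ha : ∀ s, a s ≠ 0)
    {M₀ : End k W} (hM₀ : M₀ ∈ comS (r := r) P Ψ (2 * r)) (h0 : M₀ ≠ 0) :
    P ∈ Submodule.span k {X | ∃ A ∈ comS (r := r) P Ψ (2 * r), ∃ B ∈ comS (r := r) P Ψ (2 * r),
      A * M₀ * B = X} := by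
  set J := Submodule.span k {X | ∃ A ∈ comS (r := r) P Ψ (2 * r),
    ∃ B ∈ comS (r := r) P Ψ (2 * r), A * M₀ * B = X} with hJ
  have hJE : J ≤ comS (r := r) P Ψ (2 * r) := by
    rw [hJ, Submodule.span_le]
    rintro _ ⟨A, hA, B, hB, rfl⟩
    exact comS_mul (comS_mul hA hM₀) hB
  have hall : ∀ X : End k W, P * X = X → X * P = X →
      X ∈ spE P Ψ (comS (r := r) P Ψ (2 * r)) := by
    intro X x1 x2
    refine comS_le h ha (2 * r) le_rfl ?_
    rw [Nat.sub_self]
    exact ⟨x1, x2, fun i hi hi' => absurd (Fin.ext (by simpa using hi')) hi⟩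
  have h1 : P ∈ spE P Ψ J := rank_one h0 h.idem hM₀.1 hM₀.2.1 fun X Y x1 x2 y1 y2 =>
    spE_mul hM₀ (fun A hA B hB => Submodule.subset_span ⟨A, hA, B, hB, rfl⟩)
      (hall X x1 x2) (hall Y y1 y2)
  obtain ⟨A, a1, a2, a3⟩ := exists_avg h ha (2 * r) le_rfl
  have h2 : spE P Ψ J ≤ J.comap A := by
    rw [spE, Submodule.span_le]
    rintro _ ⟨N, hN, c, hc, rfl⟩
    change A (N * c) ∈ J
    rw [a2 N (hJE hN)]
    obtain ⟨b1, b2⟩ := a3 c hc
    obtain ⟨t, ht⟩ := h.scalar ha b1.1 b1.2.1 (fun s t =>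
      (h.comm_all ha b2.1 b2.2.1 (fun i hi => b2.2.2 i hi (by omega)) s t).symm)
      (fun b c1 c2 c3 => (b1.2.2 b ⟨c1, c2, fun i hi _ => c3 0 i⟩).symm)
    rw [ht, mul_smul_comm, (hJE hN).2.1]
    exact Submodule.smul_mem _ _ hN
  have h3 := h2 h1
  change A P ∈ J at h3
  rwa [a1] at h3

end

end Pool.Agent.H851.UK
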