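import Mathlib
import Pool.Agent.H851.UK.Cls
import Pool.Agent.H851.UK.Simple

/-!
# All or nothing
-/

set_option autoImplicit false
set_option linter.unusedSectionVars false
set_option linter.unusedVariables false

namespace Pool.Agent.H851.UK

open Matrix Finset Module Pool.Agent.Y114.RM
open NumberField IsDedekindDomain Polynomial Pool.Agent.H851
open Pool.Agent.H851.K3 Pool.Agent.H851.KT Pool.Agent.H851.TT Pool.Agent.H851.ZD
open Pool.Agent.H851.IN Pool.Agent.H851.KS Pool.Agent.H851.KD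
open Pool.Agent.NH56.HY (GK IsFrobenius tw tw_apply chi_ne)
open Pool.Agent.H204R3.GP (FiniteIndexSemisimple)

variable {K : Type} [Field K] [NumberField K] {ℓ : ℕ} [hℓ : Fact ℓ.Prime] {n : Type}
    [Fintype n] [DecidableEq n] {q : Matrix n n ℚ_[ℓ]} {S : Finset ℕ} {χ : GK K →* ℚ_[ℓ]}
    {Pol : HeightOneSpectrum (𝓞 K) → ℤ[X]} {ρ : GK K →* Matrix n n ℚ_[ℓ]} {m : Type}
    [Fintype m] [DecidableEq m] {σ : GK K →* Matrix m m ℚ_[ℓ]}

/-- the algebra of the Tate endomorphisms of the Kuga-Satake part is simple -/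
theorem tate_simple (h : IsK3Type q S χ Pol ρ) (hss : Semisimple ρ) (hc : ScalarEnds q χ ρ)
    (hd3 : 3 ≤ finrank ℚ_[ℓ] (orth q (tate χ ρ)))
    (hodd : Odd (finrank ℚ_[ℓ] (orth q (tate χ ρ)))) {j : ℤ} (hw : WeightOneAt j σ)
    {P : Matrix m m ℚ_[ℓ]} {ψ : (n → ℚ_[ℓ]) → (n → ℚ_[ℓ]) → Matrix m m ℚ_[ℓ]}
    (p : IsKugaSatake q χ ρ σ ⊤ P ψ) (hl : LieOf q χ ρ σ P ψ) {M₀ : Matrix m m ℚ_[ℓ]}
    (hM₀ : M₀ ∈ TateEnd σ P) (h0 : M₀ ≠ 0) :
    ∃ (N : ℕ) (A B : Fin N → Matrix m m ℚ_[ℓ]), (∀ i, A i ∈ TateEnd σ P) ∧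
      (∀ i, B i ∈ TateEnd σ P) ∧ P = ∑ i, A i * M₀ * B i := by
  have hE := fun M => tate_iff h hss hc hd3 hw p hl M
  obtain ⟨a, U, W', Fr⟩ := exists_frame h hss hc
  obtain ⟨β, hβ, hcl, heq⟩ := rel_of h.symm p
  obtain ⟨r, hr⟩ := hodd
  have hmul : ∀ A B : Matrix m m ℚ_[ℓ], Matrix.toLin' A * Matrix.toLin' B =
      Matrix.toLin' (A * B) := fun A B => (Matrix.toLin'_mul A B).symm
  have hmul' : ∀ A B : End ℚ_[ℓ] (m → ℚ_[ℓ]), LinearMap.toMatrix' (A * B) =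
      LinearMap.toMatrix' A * LinearMap.toMatrix' B := fun A B => LinearMap.toMatrix'_mul A B
  have hCl := hcl.isCl (e := fun s => ev U (Fin.cast hr.symm s))
    (a := fun s => a (Fin.cast hr.symm s)) (fun s => ev_mem Fr _) (fun s => ev_self Fr _)
    (fun s t hst => ev_ne Fr (fun h' => hst (Fin.cast_injective _ h')))
  have hne : ∀ s : Fin (2 * r + 1), a (Fin.cast hr.symm s) ≠ 0 := fun s => Fr.ne _
  have hmem : ∀ b ∈ comS (r := r) (Matrix.toLin' P) (fun s t => β (ev U (Fin.cast hr.symm s))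
      (ev U (Fin.cast hr.symm t))) (2 * r), LinearMap.toMatrix' b ∈ TateEnd σ P := by
    rintro b ⟨b1, b2, b3⟩
    have hb := hCl.comm_all hne b1 b2 fun i hi => b3 i hi (by omega)
    refine (hE _).2 ⟨?_, ?_, fun x hx y hy => ?_⟩
    · refine Matrix.toLin'.injective ?_
      rw [← hmul, Matrix.toLin'_toMatrix', b1]
    · refine Matrix.toLin'.injective ?_
      rw [← hmul, Matrix.toLin'_toMatrix', b2]
    · refine Matrix.toLin'.injective ?_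
      rw [← hmul, ← hmul, Matrix.toLin'_toMatrix', ← hβ]
      have hb' : ∀ s t, β (ev U s) (ev U t) * b = b * β (ev U s) (ev U t) := fun s t =>
        hb (Fin.cast hr s) (Fin.cast hr t)
      rw [ev_sum Fr hx, ev_sum Fr hy]
      refine LinearMap.ext fun w => ?_
      have l4 : ∀ s t, β (ev U s) (ev U t) (b w) = b (β (ev U s) (ev U t) w) := fun s t =>
        LinearMap.congr_fun (hb' s t) w
      simp only [Module.End.mul_apply, map_sum, LinearMap.sum_apply, map_smul,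
        LinearMap.smul_apply, l4]
  have hM₀' : Matrix.toLin' M₀ ∈ comS (r := r) (Matrix.toLin' P)
      (fun s t => β (ev U (Fin.cast hr.symm s)) (ev U (Fin.cast hr.symm t))) (2 * r) := by
    refine ⟨by rw [hmul, hM₀.1], by rw [hmul, hM₀.2.1], fun i _ _ => ?_⟩
    change β _ _ * _ = _ * β _ _
    rw [hβ, hmul, hmul, ((hE M₀).1 hM₀).2.2 _ (ev_mem Fr _) _ (ev_mem Fr _)]
  have h0' : Matrix.toLin' M₀ ≠ 0 := by
    intro h1
    apply h0
    rw [← map_zero (Matrix.toLin' : Matrix m m ℚ_[ℓ] ≃ₗ[ℚ_[ℓ]] _)] at h1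
    exact Matrix.toLin'.injective h1
  have h1 := hCl.simple hne hM₀' h0'
  rw [Submodule.mem_span_set'] at h1
  obtain ⟨N, f, g, hfg⟩ := h1
  choose A hA B hB hAB using fun i => (g i).2
  refine ⟨N, fun i => f i • LinearMap.toMatrix' (A i), fun i => LinearMap.toMatrix' (B i),
    fun i => Submodule.smul_mem _ _ (hmem _ (hA i)), fun i => hmem _ (hB i), ?_⟩
  refine Matrix.toLin'.injective ?_
  rw [← hfg, map_sum]
  refine Finset.sum_congr rfl fun i _ => ?_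
  rw [smul_mul_assoc, smul_mul_assoc, map_smul, ← hmul, ← hmul, Matrix.toLin'_toMatrix',
    Matrix.toLin'_toMatrix', hAB i]

/-- **All Tate classes in `T ⊗ End(W)` come from one Kuga-Satake class.** -/
theorem cls_main (h : IsK3Type q S χ Pol ρ) (hss : Semisimple ρ) (hc : ScalarEnds q χ ρ)
    (hd3 : 3 ≤ finrank ℚ_[ℓ] (orth q (tate χ ρ)))
    (hodd : Odd (finrank ℚ_[ℓ] (orth q (tate χ ρ)))) {j : ℤ} (hw : WeightOneAt j σ) :
    ∃ (P : Matrix m m ℚ_[ℓ]) (ψ : (n → ℚ_[ℓ]) → (n → ℚ_[ℓ]) → Matrix m m ℚ_[ℓ])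
      (θ : (n → ℚ_[ℓ]) →ₗ[ℚ_[ℓ]] Matrix m m ℚ_[ℓ]),
      IsKugaSatake q χ ρ σ ⊤ P ψ ∧ (P = 0 ↔ Independent χ ρ σ) ∧ IsTateMap χ ρ σ θ ∧
      IsKSClass (orth q (tate χ ρ)) P ψ θ ∧
      (∀ φ, IsTateMap χ ρ σ φ → ∃ M ∈ TateEnd σ P, ∀ x ∈ orth q (tate χ ρ), φ x = M * θ x) ∧
      (∀ M ∈ TateEnd σ P, IsTateMap χ ρ σ (LinearMap.mulLeft ℚ_[ℓ] M ∘ₗ θ) ∧
        ((∀ x ∈ orth q (tate χ ρ), M * θ x = 0) → M = 0)) ∧
      ∀ φ₀ φ, IsTateMap χ ρ σ φ₀ → IsTateMap χ ρ σ φ →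
        (∃ x ∈ orth q (tate χ ρ), φ₀ x ≠ 0) → GeneratedBy σ P (orth q (tate χ ρ)) φ φ₀ := by
  obtain ⟨P, ψ, p, hl, -, htfae⟩ := ks_main h hss hc hd3 hw.semisimple hw.rep
  obtain ⟨θ, h1, h2, h3, h4⟩ := cls_core h hss hc hd3 hodd hw p hl
  refine ⟨P, ψ, θ, p, htfae.out 0 1, h1, h2, h4, fun M hM => ⟨?_, fun hMθ => ?_⟩,
    fun φ₀ φ hφ₀ hφ hx => ?_⟩
  · obtain ⟨Δ, hΔ, hθ⟩ := h1
    obtain ⟨m1, m2, Δ', hΔ', hM'⟩ := hM
    refine ⟨Δ ⊓ Δ', hΔ.inter hΔ', fun g hg x => ?_⟩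
    change σ g * (M * θ x) = M * θ (tw χ ρ g *ᵥ x) * σ g
    rw [← mul_assoc, hM' g hg.2, mul_assoc, hθ g hg.1, mul_assoc]
  · obtain ⟨a, U, W', Fr⟩ := exists_frame h hss hc
    obtain ⟨s, t, -⟩ := exists_two hd3
    obtain ⟨c, hc0, hr⟩ := h2.root
    have e1 := hMθ _ (ev_mem Fr s)
    have e2 := hr _ (ev_mem Fr s) _ (ev_mem Fr s)
    rw [p.clifford.sq _ (ev_mem Fr s), ← form_apply, ev_self Fr, smul_smul] at e2
    have e3 : (c * a s) • M = 0 := by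
      calc (c * a s) • M = M * ((c * a s) • P) := by rw [mul_smul_comm, hM.2.1]
        _ = M * θ (ev U s) * θ (ev U s) := by rw [← e2, mul_assoc]
        _ = 0 := by rw [e1, zero_mul]
    exact (smul_eq_zero.1 e3).resolve_left (mul_ne_zero hc0 (Fr.ne s))
  · obtain ⟨M₀, hM₀, e0⟩ := h4 φ₀ hφ₀
    obtain ⟨M, hM, e1⟩ := h4 φ hφ
    obtain ⟨x, hx, hx0⟩ := hx
    have hne : M₀ ≠ 0 := by
      rintro rfl
      apply hx0
      rw [e0 x hx, zero_mul]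
    obtain ⟨N, A, B, hA, hB, hP⟩ := tate_simple h hss hc hd3 hodd hw p hl hM₀ hne
    have hmulE : ∀ A ∈ TateEnd σ P, ∀ B ∈ TateEnd σ P, A * B ∈ TateEnd σ P := by
      rintro A ⟨a1, a2, D, hD, a3⟩ B ⟨b1, b2, D', hD', b3⟩
      refine ⟨by rw [← mul_assoc, a1], by rw [mul_assoc, b2], D ⊓ D', hD.inter hD',
        fun g hg => ?_⟩
      rw [← mul_assoc, a3 g hg.1, mul_assoc, b3 g hg.2, mul_assoc]
    refine ⟨N, fun i => M * A i, B, fun i => hmulE _ hM _ (hA i), hB, fun y hy => ?_⟩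
    have e2 : ∀ i, M * A i * φ₀ y * B i = M * (A i * M₀ * B i) * θ y := by
      intro i
      calc M * A i * φ₀ y * B i = M * A i * M₀ * (θ y * B i) := by
            rw [e0 y hy]
            simp only [mul_assoc]
        _ = M * (A i * M₀ * B i) * θ y := by
            rw [h3 _ (hB i) y hy]
            simp only [mul_assoc]
    rw [e1 y hy, Finset.sum_congr rfl fun i _ => e2 i, ← Finset.sum_mul, ← Finset.mul_sum, ← hP,
      hM.2.1]

end Pool.Agent.H851.UK
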