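import Mathlib
import Pool.Agent.H851.UK.Def

/-!
# The definitions used in the statement on the Kuga-Satake classes
-/

set_option autoImplicit false
set_option linter.unusedSectionVars false
set_option linter.unusedVariables false

namespace Pool.Agent.H851.UK

open Matrix NumberField IsDedekindDomain Polynomial
open Pool.Agent.H851.K3 Pool.Agent.H851.KD
open Pool.Agent.NH56.HY (GK IsFrobenius tw)

variable {K : Type} [Field K] [NumberField K] {ℓ : ℕ} [hℓ : Fact ℓ.Prime] {n : Type}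
    [Fintype n] [DecidableEq n] {m : Type} [Fintype m] [DecidableEq m]

/-- `M` is a **Tate endomorphism** of `P W`, for a projection `P`: `M = P M P` commutes with all elements of an open
subgroup of the Galois group. For `W = H^1(A)` with an abelian variety `A` over `K` and `P = 1` these are the
`ℚ_ℓ`-linear combinations of the endomorphisms of `A` over the algebraic closure (Faltings). -/
def IsTateEnd (σ : GK K →* Matrix m m ℚ_[ℓ]) (P M : Matrix m m ℚ_[ℓ]) : Prop :=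
  P * M = M ∧ M * P = M ∧
    ∃ Δ : Subgroup (GK K), IsOpen (Δ : Set (GK K)) ∧ ∀ g ∈ Δ, σ g * M = M * σ g

/-- The map `φ : V(1) → End(W)` is linear, and equivariant for an open subgroup of the Galois group: a (potential)
**Tate class** in the tensor product of `End(W)` and the dual of `V(1)`. -/
def TateClass (χ : GK K →* ℚ_[ℓ]) (ρ : GK K →* Matrix n n ℚ_[ℓ]) (σ : GK K →* Matrix m m ℚ_[ℓ])
    (φ : (n → ℚ_[ℓ]) → Matrix m m ℚ_[ℓ]) : Prop :=
  IsLinearMap ℚ_[ℓ] φ ∧ ∃ Δ : Subgroup (GK K), IsOpen (Δ : Set (GK K)) ∧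
    ∀ g ∈ Δ, ∀ x, σ g * φ x = φ (tw χ ρ g *ᵥ x) * σ g

/-- `θ : V(1) → End(P W)` is a **Kuga-Satake class** for the module `(P, ψ)` of the even Clifford algebra of `T`: up to
a constant, `θ x θ y` is the product `ψ x y` of the vectors `x`, `y` of `T`. -/
def KSClass (T : Submodule ℚ_[ℓ] (n → ℚ_[ℓ])) (P : Matrix m m ℚ_[ℓ])
    (ψ : (n → ℚ_[ℓ]) → (n → ℚ_[ℓ]) → Matrix m m ℚ_[ℓ])
    (θ : (n → ℚ_[ℓ]) → Matrix m m ℚ_[ℓ]) : Prop :=
  (∀ x, P * θ x = θ x ∧ θ x * P = θ x) ∧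
    ∃ c : ℚ_[ℓ], c ≠ 0 ∧ ∀ x ∈ T, ∀ y ∈ T, θ x * θ y = c • ψ x y

/-- `φ` is, on `T`, a sum of maps `x ↦ A φ₀(x) B` with Tate endomorphisms `A` and `B` of `P W`: if `φ₀`, `A` and `B`
are given by algebraic cycles then so is `φ` on `T`. -/
def Generated (σ : GK K →* Matrix m m ℚ_[ℓ]) (P : Matrix m m ℚ_[ℓ])
    (T : Submodule ℚ_[ℓ] (n → ℚ_[ℓ])) (φ₀ φ : (n → ℚ_[ℓ]) → Matrix m m ℚ_[ℓ]) : Prop :=
  ∃ (N : ℕ) (A B : Fin N → Matrix m m ℚ_[ℓ]), (∀ i, IsTateEnd σ P (A i)) ∧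
    (∀ i, IsTateEnd σ P (B i)) ∧ ∀ x ∈ T, φ x = ∑ i, A i * φ₀ x * B i

end Pool.Agent.H851.UK
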