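import Mathlib
import Pool.Agent.H851.UK.Cls2
import Pool.Agent.H851.UK.Def5

/-!
# All or nothing, for functions
-/

set_option autoImplicit false
set_option linter.unusedSectionVars false
set_option linter.unusedVariables false

namespace Pool.Agent.H851.UK

open Matrix Finset Module Pool.Agent.Y114.RM
open NumberField IsDedekindDomain Polynomial Pool.Agent.H851
open Pool.Agent.H851.K3 Pool.Agent.H851.KT Pool.Agent.H851.TT Pool.Agent.H851.ZD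
open Pool.Agent.H851.IN Pool.Agent.H851.KS Pool.Agent.H851.KD
open Pool.Agent.NH56.HY (GK IsFrobenius tw tw_apply chi_ne)

variable {K : Type} [Field K] [NumberField K] {ℓ : ℕ} [hℓ : Fact ℓ.Prime] {n : Type}
    [Fintype n] [DecidableEq n] {q : Matrix n n ℚ_[ℓ]} {S : Finset ℕ} {χ : GK K →* ℚ_[ℓ]}
    {Pol : HeightOneSpectrum (𝓞 K) → ℤ[X]} {ρ : GK K →* Matrix n n ℚ_[ℓ]} {m : Type}
    [Fintype m] [DecidableEq m] {σ : GK K →* Matrix m m ℚ_[ℓ]}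

theorem tateClass_mk {φ : (n → ℚ_[ℓ]) → Matrix m m ℚ_[ℓ]} (h : TateClass χ ρ σ φ) :
    IsTateMap χ ρ σ (IsLinearMap.mk' φ h.1) := h.2

theorem cls_final (h : IsK3Type q S χ Pol ρ) (hss : Semisimple ρ) (hc : ScalarEnds q χ ρ)
    (hd3 : 3 ≤ finrank ℚ_[ℓ] (orth q (tate χ ρ)))
    (hodd : Odd (finrank ℚ_[ℓ] (orth q (tate χ ρ)))) {j : ℤ} (hw : WeightOneAt j σ) :
    ∃ (P : Matrix m m ℚ_[ℓ]) (ψ : (n → ℚ_[ℓ]) → (n → ℚ_[ℓ]) → Matrix m m ℚ_[ℓ])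
      (θ : (n → ℚ_[ℓ]) → Matrix m m ℚ_[ℓ]),
      IsKugaSatake q χ ρ σ ⊤ P ψ ∧ (P = 0 ↔ Independent χ ρ σ) ∧ TateClass χ ρ σ θ ∧
      KSClass (orth q (tate χ ρ)) P ψ θ ∧
      (∀ φ, TateClass χ ρ σ φ → ∃ M, IsTateEnd σ P M ∧ ∀ x ∈ orth q (tate χ ρ), φ x = M * θ x) ∧
      (∀ M, IsTateEnd σ P M → TateClass χ ρ σ (fun x => M * θ x) ∧
        ((∀ x ∈ orth q (tate χ ρ), M * θ x = 0) → M = 0)) ∧
      ∀ φ₀ φ, TateClass χ ρ σ φ₀ → TateClass χ ρ σ φ →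
        (∃ x ∈ orth q (tate χ ρ), φ₀ x ≠ 0) → Generated σ P (orth q (tate χ ρ)) φ₀ φ := by
  obtain ⟨P, ψ, θ, h1, h2, h3, h4, h5, h6, h7⟩ := cls_main h hss hc hd3 hodd hw
  refine ⟨P, ψ, fun x => θ x, h1, h2, ⟨⟨map_add θ, map_smul θ⟩, h3⟩, ⟨h4.unit, h4.root⟩,
    fun φ hφ => h5 _ (tateClass_mk hφ), fun M hM => ⟨⟨⟨fun x y => ?_, fun c x => ?_⟩,
      (h6 M hM).1⟩, (h6 M hM).2⟩, fun φ₀ φ hφ₀ hφ hx =>
    h7 _ _ (tateClass_mk hφ₀) (tateClass_mk hφ) hx⟩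
  · change M * θ (x + y) = M * θ x + M * θ y
    rw [map_add, mul_add]
  · change M * θ (c • x) = c • (M * θ x)
    rw [map_smul, mul_smul_comm]

end Pool.Agent.H851.UK
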