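import Mathlib
import Pool.Agent.H851.UK.Cls3

/-!
# One Frobenius element decides the independence
-/

set_option autoImplicit false
set_option linter.unusedSectionVars false
set_option linter.unusedVariables false

namespace Pool.Agent.H851.UK

open Matrix Finset Module Pool.Agent.Y114.RM
open NumberField IsDedekindDomain Polynomial Pool.Agent.H851
open Pool.Agent.H851.K3 Pool.Agent.H851.KT Pool.Agent.H851.TT Pool.Agent.H851.ZD
open Pool.Agent.H851.IN Pool.Agent.H851.KS Pool.Agent.H851.KD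
open Pool.Agent.NH56.HY (GK IsFrobenius tw tw_apply chi_ne)

section abs

variable {F : Type} [Field F] [IsAlgClosed F] {m : Type} [Fintype m] [DecidableEq m]

theorem quot_of_eq {B L : Matrix m m F} {α : F} (hL : L ≠ 0) (h : B * L = α • (L * B)) :
    ∃ a b, B.charpoly.IsRoot a ∧ B.charpoly.IsRoot b ∧ b = α * a := by
  have hne : Nonempty m := by
    by_contra hm
    rw [not_nonempty_iff] at hm
    exact hL (Subsingleton.elim _ _)
  have hnt : Nontrivial (Matrix m m F) := inferInstance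
  have hs : SemiconjBy L (α • B) B := by
    change L * (α • B) = B * L
    rw [h, mul_smul_comm]
  have key : ∀ p : F[X], aeval B p * L = L * aeval (α • B) p := by
    intro p
    induction p using Polynomial.induction_on' with
    | add p q hp hq => rw [map_add, map_add, add_mul, mul_add, hp, hq]
    | monomial k c =>
      rw [aeval_monomial, aeval_monomial, ← Algebra.smul_def, ← Algebra.smul_def, smul_mul_assoc,
        mul_smul_comm, (hs.pow_right k).eq]
  have h1 : L * aeval B (B.charpoly.comp (Polynomial.C α * X)) = 0 := by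
    have h2 : aeval B (B.charpoly.comp (Polynomial.C α * X)) = aeval (α • B) B.charpoly := by
      rw [aeval_comp]
      congr 1
      rw [map_mul, aeval_C, aeval_X, ← Algebra.smul_def]
    rw [h2, ← key, Matrix.aeval_self_charpoly, zero_mul]
  have h2 : (0 : F) ∈ spectrum F (aeval B (B.charpoly.comp (Polynomial.C α * X))) := by
    rw [spectrum.zero_mem_iff]
    intro hu
    exact hL (hu.mul_left_eq_zero.1 h1)
  rw [spectrum.map_polynomial_aeval_of_nonempty B _
    (spectrum.nonempty_of_isAlgClosed_of_finiteDimensional F B)] at h2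
  obtain ⟨a, ha, ha'⟩ := h2
  refine ⟨a, α * a, Matrix.mem_spectrum_iff_isRoot_charpoly.1 ha, ?_, rfl⟩
  rw [IsRoot.def]
  have h3 : eval a (B.charpoly.comp (Polynomial.C α * X)) = 0 := ha'
  rwa [eval_comp, eval_mul, eval_C, eval_X] at h3

theorem exists_vec {n : Type} [Fintype n] [DecidableEq n] {A : Matrix n n F} {α : F}
    (h : A.charpoly.IsRoot α) : ∃ v, v ≠ 0 ∧ A *ᵥ v = α • v := by
  have h1 : (Matrix.scalar n α - A).det = 0 := by
    rw [← Matrix.eval_charpoly]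
    exact h
  obtain ⟨v, hv, hv'⟩ := Matrix.exists_mulVec_eq_zero_iff.2 h1
  refine ⟨v, hv, ?_⟩
  rw [Matrix.sub_mulVec, sub_eq_zero] at hv'
  rw [← hv']
  simp [Matrix.scalar_apply]

theorem root_vec {n : Type} [Fintype n] [DecidableEq n] {A : Matrix n n F} {α : F} {v : n → F}
    (hv : v ≠ 0) (h : A *ᵥ v = α • v) : A.charpoly.IsRoot α := by
  rw [IsRoot.def, Matrix.eval_charpoly]
  refine Matrix.exists_mulVec_eq_zero_iff.1 ⟨v, hv, ?_⟩
  rw [Matrix.sub_mulVec, h, sub_eq_zero]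
  simp [Matrix.scalar_apply]

/-- the eigenvalues of a power -/
theorem root_pow {B : Matrix m m F} {N : ℕ} (hN : 0 < N) {a : F}
    (h : (B ^ N).charpoly.IsRoot a) : ∃ b, B.charpoly.IsRoot b ∧ b ^ N = a := by
  have h1 := Matrix.mem_spectrum_iff_isRoot_charpoly.2 h
  rw [spectrum.map_pow_of_pos B hN] at h1
  obtain ⟨b, hb, hb'⟩ := h1
  exact ⟨b, Matrix.mem_spectrum_iff_isRoot_charpoly.1 hb, hb'⟩

end abs

variable {K : Type} [Field K] [NumberField K] {ℓ : ℕ} [hℓ : Fact ℓ.Prime] {n : Type}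
    [Fintype n] [DecidableEq n] {q : Matrix n n ℚ_[ℓ]} {S : Finset ℕ} {χ : GK K →* ℚ_[ℓ]}
    {Pol : HeightOneSpectrum (𝓞 K) → ℤ[X]} {ρ : GK K →* Matrix n n ℚ_[ℓ]} {m : Type}
    [Fintype m] [DecidableEq m] {σ : GK K →* Matrix m m ℚ_[ℓ]}

/-- the map with coefficients in `F` -/
theorem sum_map {F : Type} [Field F] [Algebra ℚ_[ℓ] F]
    (Θ : (n → ℚ_[ℓ]) →ₗ[ℚ_[ℓ]] Matrix m m ℚ_[ℓ]) (A : Matrix n n ℚ_[ℓ]) (B : Matrix m m ℚ_[ℓ])
    (h : ∀ x, B * Θ x = Θ (A *ᵥ x) * B) (v : n → F) :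
    B.map (algebraMap ℚ_[ℓ] F) * ∑ i, v i • (Θ (Pi.single i 1)).map (algebraMap ℚ_[ℓ] F) =
      (∑ i, (A.map (algebraMap ℚ_[ℓ] F) *ᵥ v) i •
        (Θ (Pi.single i 1)).map (algebraMap ℚ_[ℓ] F)) * B.map (algebraMap ℚ_[ℓ] F) := by
  have h1 : ∀ i, Θ (A *ᵥ Pi.single i 1) = ∑ k, A k i • Θ (Pi.single k 1) := by
    intro i
    have h2 : A *ᵥ Pi.single i 1 = ∑ k, A k i • (Pi.single k 1 : n → ℚ_[ℓ]) := by
      rw [Matrix.mulVec_single_one]
      ext j
      simp [Finset.sum_apply, Pi.single_apply]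
    rw [h2, map_sum]
    simp only [map_smul]
  have h3 : ∀ i, B.map (algebraMap ℚ_[ℓ] F) * (Θ (Pi.single i 1)).map (algebraMap ℚ_[ℓ] F) =
      ∑ k, algebraMap ℚ_[ℓ] F (A k i) • ((Θ (Pi.single k 1)).map (algebraMap ℚ_[ℓ] F) *
        B.map (algebraMap ℚ_[ℓ] F)) := by
    intro i
    have h4 := congrArg (algebraMap ℚ_[ℓ] F).mapMatrix (h (Pi.single i 1))
    rw [h1, Finset.sum_mul, map_mul, map_sum] at h4
    refine h4.trans (Finset.sum_congr rfl fun k _ => ?_)
    rw [smul_mul_assoc]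
    ext a b
    simp [Matrix.mul_apply, Finset.mul_sum, Matrix.smul_apply, map_mul, map_sum]
  rw [Finset.mul_sum, Finset.sum_mul]
  have h5 : ∀ i, B.map (algebraMap ℚ_[ℓ] F) *
      (v i • (Θ (Pi.single i 1)).map (algebraMap ℚ_[ℓ] F)) =
      ∑ k, (v i * algebraMap ℚ_[ℓ] F (A k i)) •
        ((Θ (Pi.single k 1)).map (algebraMap ℚ_[ℓ] F) * B.map (algebraMap ℚ_[ℓ] F)) := by
    intro i
    rw [mul_smul_comm, h3, Finset.smul_sum]
    exact Finset.sum_congr rfl fun k _ => by rw [smul_smul]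
  rw [Finset.sum_congr rfl fun i _ => h5 i, Finset.sum_comm]
  refine Finset.sum_congr rfl fun k _ => ?_
  rw [← Finset.sum_smul, smul_mul_assoc]
  congr 1
  change _ = ∑ i, algebraMap ℚ_[ℓ] F (A k i) * v i
  exact Finset.sum_congr rfl fun i _ => mul_comm _ _

/-- **The eigenvalues of the elements of an open subgroup.** -/
theorem frob_quot {F : Type} [Field F] [IsAlgClosed F] [Algebra ℚ_[ℓ] F]
    (h : IsK3Type q S χ Pol ρ) (hss : Semisimple ρ)
    {P : Matrix m m ℚ_[ℓ]} {ψ : (n → ℚ_[ℓ]) → (n → ℚ_[ℓ]) → Matrix m m ℚ_[ℓ]}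
    (hK : IsKugaSatake q χ ρ σ ⊤ P ψ) (hP : P ≠ 0)
    {θ : (n → ℚ_[ℓ]) → Matrix m m ℚ_[ℓ]} (hθ : TateClass χ ρ σ θ)
    (hks : KSClass (orth q (tate χ ρ)) P ψ θ) :
    ∃ Δ : Subgroup (GK K), IsOpen (Δ : Set (GK K)) ∧ ∀ g ∈ Δ, ∀ α : F,
      ((tw χ ρ g).map (algebraMap ℚ_[ℓ] F)).charpoly.IsRoot α →
      ∃ a b : F, ((σ g).map (algebraMap ℚ_[ℓ] F)).charpoly.IsRoot a ∧
        ((σ g).map (algebraMap ℚ_[ℓ] F)).charpoly.IsRoot b ∧ b = α * a := by
  obtain ⟨hlin, Δ, hΔ, hθΔ⟩ := hθ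
  obtain ⟨-, c, hc0, hroot⟩ := hks
  obtain ⟨U, hU, hUt⟩ := tate_open χ ρ
  obtain ⟨π, π1, π2, π3⟩ := exists_pi h hss
  refine ⟨Δ ⊓ U, hΔ.inter hU, fun g hg α hα => ?_⟩
  obtain ⟨v, hv0, hv⟩ := exists_vec hα
  let θL : (n → ℚ_[ℓ]) →ₗ[ℚ_[ℓ]] Matrix m m ℚ_[ℓ] := IsLinearMap.mk' θ hlin
  let πL : (n → ℚ_[ℓ]) →ₗ[ℚ_[ℓ]] (n → ℚ_[ℓ]) := (orth q (tate χ ρ)).subtype ∘ₗ π
  have hπm : ∀ x, πL x ∈ orth q (tate χ ρ) := fun x => (π x).2
  have hπg : ∀ g x, πL (tw χ ρ g *ᵥ x) = tw χ ρ g *ᵥ (πL x) := fun g x => π3 g x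
  let Θ : (n → ℚ_[ℓ]) →ₗ[ℚ_[ℓ]] Matrix m m ℚ_[ℓ] := θL ∘ₗ πL
  have hΘ : ∀ x, Θ x = θ (πL x) := fun x => rfl
  have hcl := hK.clifford
  -- the complement of `T`
  have hsub : ∀ x, x - πL x ∈ tate χ ρ := by
    intro x
    have hcm := (tate_compl h hss)
    obtain ⟨t, ht, s, hs, rfl⟩ := Submodule.mem_sup.1
      (show x ∈ orth q (tate χ ρ) ⊔ tate χ ρ by rw [hcm.symm.sup_eq_top]; trivial)
    have e1 : πL (t + s) = t := by
      change ((π (t + s) : orth q (tate χ ρ)) : n → ℚ_[ℓ]) = t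
      rw [map_add, π2 s hs, add_zero, π1 ⟨t, ht⟩]
    rw [e1, add_sub_cancel_left]
    exact hs
  have hqq : ∀ x y, form q (πL x) y = form q (πL x) (πL y) := by
    intro x y
    have h1 : form q (y - πL y) (πL x) = 0 := by
      rw [form_apply]
      exact hπm x _ (hsub y)
    rw [form_symm h.symm, map_sub] at h1
    exact sub_eq_zero.1 h1
  by_cases hL : ∑ i, v i • (Θ (Pi.single i 1)).map (algebraMap ℚ_[ℓ] F) = 0
  · have hne : Nonempty m := by
      by_contra hm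
      rw [not_nonempty_iff] at hm
      exact hP (Subsingleton.elim _ _)
    obtain ⟨f, hf⟩ := hcl.bilin
    have hsum : ∀ x ∈ orth q (tate χ ρ), ∀ y ∈ orth q (tate χ ρ),
        ψ x y + ψ y x = (2 * form q x y) • P := by
      intro x hx y hy
      have h1 := hcl.sq _ (Submodule.add_mem _ hx hy)
      have h2 := hcl.sq x hx
      have h3 := hcl.sq y hy
      rw [← form_apply] at h1 h2 h3
      rw [hf] at h1 h2 h3
      simp only [map_add, LinearMap.add_apply] at h1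
      rw [h2, h3, form_symm h.symm y x] at h1
      rw [hf, hf]
      have h4 : f x y + f y x = (form q x x • P + f y x + (f x y + form q y y • P)) -
          form q x x • P - form q y y • P := by abel
      rw [h4, h1]
      module
    have hanti : ∀ x y, Θ x * Θ y + Θ y * Θ x = (2 * c * form q (πL x) y) • P := by
      intro x y
      rw [hΘ, hΘ, hroot _ (hπm x) _ (hπm y), hroot _ (hπm y) _ (hπm x), ← smul_add,
        hsum _ (hπm x) _ (hπm y), smul_smul, hqq x y]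
      congr 1
      ring
    obtain ⟨i₀, j₀, hij⟩ : ∃ i j, P i j ≠ 0 := by
      by_contra hcon
      push Not at hcon
      exact hP (Matrix.ext hcon)
    have hz : ∀ y, ∑ i, v i * algebraMap ℚ_[ℓ] F (form q (πL (Pi.single i 1)) y) = 0 := by
      intro y
      have h1 : (∑ i, v i • (Θ (Pi.single i 1)).map (algebraMap ℚ_[ℓ] F)) *
          (Θ y).map (algebraMap ℚ_[ℓ] F) + (Θ y).map (algebraMap ℚ_[ℓ] F) *
          (∑ i, v i • (Θ (Pi.single i 1)).map (algebraMap ℚ_[ℓ] F)) = 0 := by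
        rw [hL, zero_mul, mul_zero, add_zero]
      rw [Finset.sum_mul, Finset.mul_sum, ← Finset.sum_add_distrib] at h1
      have h2 : ∀ i, (v i • (Θ (Pi.single i 1)).map (algebraMap ℚ_[ℓ] F)) *
          (Θ y).map (algebraMap ℚ_[ℓ] F) + (Θ y).map (algebraMap ℚ_[ℓ] F) *
          (v i • (Θ (Pi.single i 1)).map (algebraMap ℚ_[ℓ] F)) =
          v i • ((2 * c * form q (πL (Pi.single i 1)) y) • P).map (algebraMap ℚ_[ℓ] F) := by
        intro i
        rw [← hanti, smul_mul_assoc, mul_smul_comm, ← smul_add]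
        congr 1
        rw [← RingHom.mapMatrix_apply, ← RingHom.mapMatrix_apply, ← RingHom.mapMatrix_apply,
          ← map_mul (algebraMap ℚ_[ℓ] F).mapMatrix, ← map_mul (algebraMap ℚ_[ℓ] F).mapMatrix,
          ← map_add (algebraMap ℚ_[ℓ] F).mapMatrix]
      rw [Finset.sum_congr rfl fun i _ => h2 i] at h1
      have h3 := congrFun (congrFun h1 i₀) j₀
      rw [Matrix.sum_apply] at h3
      have h4 : algebraMap ℚ_[ℓ] F (2 * c * P i₀ j₀) *
          ∑ i, v i * algebraMap ℚ_[ℓ] F (form q (πL (Pi.single i 1)) y) = 0 := by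
        rw [Finset.mul_sum]
        refine Eq.trans (Finset.sum_congr rfl fun i _ => ?_) h3
        rw [Matrix.smul_apply, Matrix.map_apply, Matrix.smul_apply, smul_eq_mul, smul_eq_mul]
        simp only [map_mul]
        ring
      refine (mul_eq_zero.1 h4).resolve_left ?_
      exact (_root_.map_ne_zero _).2 (mul_ne_zero (mul_ne_zero two_ne_zero hc0) hij)
    have hw : ∀ k, ∑ i, v i * algebraMap ℚ_[ℓ] F (πL (Pi.single i 1) k) = 0 := by
      have h1 : (fun k => ∑ i, v i * algebraMap ℚ_[ℓ] F (πL (Pi.single i 1) k)) = 0 := by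
        have hdet : (q.map (algebraMap ℚ_[ℓ] F)).det ≠ 0 := by
          rw [← RingHom.mapMatrix_apply, ← RingHom.map_det, _root_.map_ne_zero]
          exact h.nondeg
        by_contra hcon
        refine hdet (Matrix.exists_vecMul_eq_zero_iff.1 ⟨_, hcon, ?_⟩)
        ext k
        rw [Pi.zero_apply, ← hz (Pi.single k 1)]
        change ∑ l, (∑ i, v i * algebraMap ℚ_[ℓ] F (πL (Pi.single i 1) l)) *
          algebraMap ℚ_[ℓ] F (q l k) = _
        simp only [Finset.sum_mul]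
        rw [Finset.sum_comm]
        refine Finset.sum_congr rfl fun i _ => ?_
        rw [form_apply, Matrix.mulVec_single_one, dotProduct, map_sum, Finset.mul_sum]
        refine Finset.sum_congr rfl fun l _ => ?_
        rw [map_mul, mul_assoc]
        rfl
      exact fun k => congrFun h1 k
    have hfix : (tw χ ρ g).map (algebraMap ℚ_[ℓ] F) *ᵥ v = v := by
      have hv' : ∀ k, v k = ∑ i, v i * algebraMap ℚ_[ℓ] F
          (((Pi.single i 1 : n → ℚ_[ℓ]) - πL (Pi.single i 1)) k) := by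
        intro k
        have h1 : ∀ i, v i * algebraMap ℚ_[ℓ] F
            (((Pi.single i 1 : n → ℚ_[ℓ]) - πL (Pi.single i 1)) k) =
            v i * algebraMap ℚ_[ℓ] F ((Pi.single i 1 : n → ℚ_[ℓ]) k) -
              v i * algebraMap ℚ_[ℓ] F (πL (Pi.single i 1) k) := by
          intro i
          rw [Pi.sub_apply, map_sub, mul_sub]
        rw [Finset.sum_congr rfl fun i _ => h1 i, Finset.sum_sub_distrib, hw k, sub_zero]
        simp [Pi.single_apply]
      have hA : ∀ x : n → ℚ_[ℓ], x ∈ tate χ ρ → tw χ ρ g *ᵥ x = x := fun x hx =>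
        tate_tw.1 (hUt g hg.2 x hx)
      ext j
      change ∑ k, algebraMap ℚ_[ℓ] F (tw χ ρ g j k) * v k = v j
      rw [hv' j]
      have h1 : ∀ k, algebraMap ℚ_[ℓ] F (tw χ ρ g j k) * v k =
          ∑ i, v i * algebraMap ℚ_[ℓ] F (tw χ ρ g j k *
            ((Pi.single i 1 : n → ℚ_[ℓ]) - πL (Pi.single i 1)) k) := by
        intro k
        rw [hv' k, Finset.mul_sum]
        exact Finset.sum_congr rfl fun i _ => by rw [map_mul]; ring
      rw [Finset.sum_congr rfl fun k _ => h1 k, Finset.sum_comm]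
      refine Finset.sum_congr rfl fun i _ => ?_
      rw [← Finset.mul_sum, ← map_sum]
      congr 2
      exact congrFun (hA _ (hsub (Pi.single i 1))) j
    have hα1 : α = 1 := by
      have h1 : α • v = (1 : F) • v := by rw [← hv, hfix, one_smul]
      exact smul_left_injective _ hv0 h1
    have hnt : Nontrivial (Matrix m m F) := inferInstance
    obtain ⟨a, ha⟩ := spectrum.nonempty_of_isAlgClosed_of_finiteDimensional F
      ((σ g).map (algebraMap ℚ_[ℓ] F))
    have ha' := Matrix.mem_spectrum_iff_isRoot_charpoly.1 ha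
    exact ⟨a, a, ha', ha', by rw [hα1, one_mul]⟩
  · have h1 := sum_map (F := F) Θ (tw χ ρ g) (σ g) (fun x => by
      rw [hΘ, hΘ, hπg]
      exact hθΔ g hg.1 _) v
    rw [hv] at h1
    refine quot_of_eq hL (h1.trans ?_)
    rw [← smul_mul_assoc, Finset.smul_sum]
    congr 1
    exact Finset.sum_congr rfl fun i _ => by rw [Pi.smul_apply, smul_smul, smul_eq_mul]

theorem aeval_root {F : Type} [Field F] [Algebra ℚ_[ℓ] F] {n : Type} [Fintype n] [DecidableEq n]
    {A : Matrix n n ℚ_[ℓ]} {α : F} :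
    (A.map (algebraMap ℚ_[ℓ] F)).charpoly.IsRoot α ↔ aeval α A.charpoly = 0 := by
  rw [Matrix.charpoly_map, IsRoot.def, eval_map, aeval_def]

/-- **The dichotomy for the eigenvalues** -/
theorem one_main {F : Type} [Field F] [IsAlgClosed F] [Algebra ℚ_[ℓ] F]
    (h : IsK3Type q S χ Pol ρ) (hss : Semisimple ρ) (hc : ScalarEnds q χ ρ)
    (hd3 : 3 ≤ finrank ℚ_[ℓ] (orth q (tate χ ρ)))
    (hodd : Odd (finrank ℚ_[ℓ] (orth q (tate χ ρ)))) {j : ℤ} (hw : WeightOneAt j σ) :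
    (Independent χ ρ σ ∧
      ∀ φ, TateClass χ ρ σ φ → ∀ x ∈ orth q (tate χ ρ), φ x = 0) ∨
    ((∃ Δ : Subgroup (GK K), IsOpen (Δ : Set (GK K)) ∧ ∀ g ∈ Δ, ∀ α : F,
      aeval α (tw χ ρ g).charpoly = 0 →
      ∃ a b : F, aeval a (σ g).charpoly = 0 ∧ aeval b (σ g).charpoly = 0 ∧ α * a = b) ∧
    ∃ N : ℕ, 0 < N ∧ ∀ (g : GK K) (α : F), aeval α (tw χ ρ g).charpoly = 0 →
      ∃ a b : F, aeval a (σ g).charpoly = 0 ∧ aeval b (σ g).charpoly = 0 ∧
        (α * a) ^ N = b ^ N) := by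
  obtain ⟨P, ψ, θ, h1, h2, h3, h4, h5, -, -⟩ := cls_final h hss hc hd3 hodd hw
  by_cases hP : P = 0
  · left
    refine ⟨h2.1 hP, fun φ hφ x hx => ?_⟩
    obtain ⟨M, hM, hM'⟩ := h5 φ hφ
    rw [hM' x hx, ← hM.1, hP, zero_mul, zero_mul]
  · right
    obtain ⟨Δ, hΔ, hq⟩ := frob_quot (F := F) h hss h1 hP h3 h4
    refine ⟨⟨Δ, hΔ, fun g hg α hα => ?_⟩, ?_⟩
    · obtain ⟨a, b, ha, hb, hab⟩ := hq g hg α (aeval_root.2 hα)
      exact ⟨a, b, aeval_root.1 ha, aeval_root.1 hb, hab.symm⟩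
    · have hfi : Δ.FiniteIndex := finiteIndex_of_open hΔ
      refine ⟨Δ.index.factorial, Nat.factorial_pos _, fun g α hα => ?_⟩
      obtain ⟨k, hk, hk', hgk⟩ := Subgroup.exists_pow_mem_of_index_ne_zero hfi.index_ne_zero g
      obtain ⟨l, hl⟩ := Nat.dvd_factorial hk hk'
      have hgN : g ^ Δ.index.factorial ∈ Δ := by
        rw [hl, pow_mul]
        exact Δ.pow_mem hgk l
      obtain ⟨v, hv0, hv⟩ := exists_vec (aeval_root.2 hα)
      have hvN : ∀ N : ℕ, ((tw χ ρ (g ^ N)).map (algebraMap ℚ_[ℓ] F)) *ᵥ v = α ^ N • v := by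
        intro N
        induction N with
        | zero =>
          rw [pow_zero, map_one, pow_zero, one_smul, ← RingHom.mapMatrix_apply, map_one,
            Matrix.one_mulVec]
        | succ N ih =>
          rw [pow_succ, map_mul, ← RingHom.mapMatrix_apply,
            map_mul (algebraMap ℚ_[ℓ] F).mapMatrix, RingHom.mapMatrix_apply,
            RingHom.mapMatrix_apply, ← Matrix.mulVec_mulVec, hv, Matrix.mulVec_smul, ih,
            smul_smul, pow_succ, mul_comm]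
      obtain ⟨a, b, ha, hb, hab⟩ := hq _ hgN _ (root_vec hv0 (hvN _))
      have hσ : (σ (g ^ Δ.index.factorial)).map (algebraMap ℚ_[ℓ] F) =
          ((σ g).map (algebraMap ℚ_[ℓ] F)) ^ Δ.index.factorial := by
        rw [map_pow, ← RingHom.mapMatrix_apply, map_pow, RingHom.mapMatrix_apply]
      rw [hσ] at ha hb
      obtain ⟨a', ha1, ha2⟩ := root_pow (Nat.factorial_pos _) ha
      obtain ⟨b', hb1, hb2⟩ := root_pow (Nat.factorial_pos _) hb
      refine ⟨a', b', aeval_root.1 ha1, aeval_root.1 hb1, ?_⟩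
      rw [mul_pow, ha2, hb2, hab]

end Pool.Agent.H851.UK
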