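import Mathlib

/-!
# Intertwiners of modules of the even Clifford algebra in odd dimension
-/

set_option autoImplicit false

namespace Pool.Agent.H851.UK

open Module

/-- The operators `Ψ s t` on `W` satisfy the relations of the products `e_s e_t` of the vectors of an orthogonal
basis, with `q(e_s) = a s`; `P` is the unit. -/
structure IsCl {k W ι : Type} [Field k] [AddCommGroup W] [Module k W] (a : ι → k) (P : End k W)
    (Ψ : ι → ι → End k W) : Prop where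
  idem : P * P = P
  left : ∀ s t, P * Ψ s t = Ψ s t
  right : ∀ s t, Ψ s t * P = Ψ s t
  sq : ∀ s, Ψ s s = a s • P
  anti : ∀ s t, s ≠ t → Ψ s t = -Ψ t s
  mul : ∀ s t u, Ψ s t * Ψ t u = a t • Ψ s u

/-- **A**: two nonzero modules of the even Clifford algebra in odd dimension have a nonzero intertwiner. -/
def S_A : Prop := ∀ (k W₁ W₂ : Type) [Field k] [CharZero k] [AddCommGroup W₁] [Module k W₁]
  [AddCommGroup W₂] [Module k W₂] (r : ℕ) (a : Fin (2 * r + 1) → k) (P₁ : End k W₁) (P₂ : End k W₂)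
  (Ψ₁ : Fin (2 * r + 1) → Fin (2 * r + 1) → End k W₁)
  (Ψ₂ : Fin (2 * r + 1) → Fin (2 * r + 1) → End k W₂), (∀ s, a s ≠ 0) → P₁ ≠ 0 → P₂ ≠ 0 →
  IsCl a P₁ Ψ₁ → IsCl a P₂ Ψ₂ →
  ∃ L : W₁ →ₗ[k] W₂, L ≠ 0 ∧ P₂ ∘ₗ L = L ∧ L ∘ₗ P₁ = L ∧ ∀ s t, Ψ₂ s t ∘ₗ L = L ∘ₗ Ψ₁ s t

end Pool.Agent.H851.UK
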